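import Pool.Agent.H66.Eng2.Asm
import Pool.Agent.H10.Eng2.Sand
import Pool.Agent.H12.Eng2.TargetII

set_option autoImplicit false

/-!
# Characteristic two: assembly (MP_1664c7_al)
-/

universe u v

namespace Pool.Agent.H66.Eng2

open Pool.Agent.H66.Eng Pool.Agent.H86.Eng2

/-- Characteristic two, full identities: products of generators. -/
theorem e2_mon {F : Type u} [Field F] {A : Type v} [NonUnitalNonAssocRing A] [Module F A]
    [IsScalarTower F A A] [SMulCommClass F A A]
    (hA : E2 A) {X : Set A} (hX : X.Finite) :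
    ∃ N, ∀ n, N ≤ n → ∀ w, Mon X n w → w = 0 :=
  main3M (F := F) (fun K _ _ => thmN_of_qn (qn_of_jn (aj K)))
    (fun _ _ hG c hc x y => Pool.Agent.H10.Eng2.target_I2 hG c hc x y)
    (fun K _ _ _ _ _ _ _ hG hS => Pool.Agent.H12.Eng2.target_II2 K hG hS) hA hX

/-- Characteristic two, full identities. -/
theorem e2_nilpotent {F : Type u} [Field F] {A : Type v} [NonUnitalNonAssocRing A] [Module F A]
    [IsScalarTower F A A] [SMulCommClass F A A]
    (hA : E2 A) (s : Finset A) :
    IsNilpotentAlg (NonUnitalAlgebra.adjoin F (s : Set A)) :=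
  main3N (F := F) (fun K _ _ => thmN_of_qn (qn_of_jn (aj K)))
    (fun _ _ hG c hc x y => Pool.Agent.H10.Eng2.target_I2 hG c hc x y)
    (fun K _ _ _ _ _ _ _ hG hS => Pool.Agent.H12.Eng2.target_II2 K hG hS) hA s

end Pool.Agent.H66.Eng2
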