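import Pool.Agent.H66.Eng2.Prime
import Pool.Agent.H86.Eng2.Inj
import Pool.Agent.H86.Eng2.NC

set_option autoImplicit false

/-!
# (A) for just non-nilpotent algebras from C0 (MP_1664c7_al)
-/

universe u v

namespace Pool.Agent.H66.Eng2

open Pool.Agent.H66.Eng Pool.Agent.H86.Eng2

/-- (C0) for just non-nilpotent algebras. -/
def C0Prop (F : Type u) [Field F] : Prop :=
  ∀ (Q : Type v) [NonUnitalNonAssocRing Q] [Module F Q] [IsScalarTower F Q Q]
    [SMulCommClass F Q Q], ∀ c : Q, Thick2 c → ∀ Y : Set Q,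
    (∀ x ∈ Y, ∀ y ∈ Y, x * y = 0) → JN F (insert c Y) →
    ∀ u : Q, ∀ x ∈ Submodule.span F Y, ∀ y ∈ Submodule.span F Y,
      ((u * x) * y) * c = ((u * y) * x) * c

section
variable {F : Type u} [Field F] {Q : Type v} [NonUnitalNonAssocRing Q] [Module F Q]

/-- In a just non-nilpotent algebra generated by `c` and abelian letters, `c ≠ 0`. -/
theorem JN.c_ne {c : Q} {Y : Set Q} (h : JN F (insert c Y)) (hYY : ∀ x ∈ Y, ∀ y ∈ Y, x * y = 0) :
    c ≠ 0 := by
  intro hc
  apply h.non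
  refine ⟨2, ?_⟩
  have key : ∀ n w, Mon (insert c Y) n w → w = 0 ∨ (n = 1 ∧ w ∈ Y) := by
    intro n w hw
    induction hw with
    | gen hx =>
      rcases Set.mem_insert_iff.mp hx with rfl | hx
      · exact Or.inl hc
      · exact Or.inr ⟨rfl, hx⟩
    | mul h1 h2 ih1 ih2 =>
      left
      rcases ih1 with rfl | ⟨-, hx⟩
      · rw [zero_mul]
      · rcases ih2 with rfl | ⟨-, hy⟩
        · rw [mul_zero]
        · exact hYY _ hx _ hy
  intro n hn w hw
  rw [Submodule.mem_bot]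
  rcases key n w hw with h | ⟨h, -⟩
  · exact h
  · omega

/-- A subspace closed under products and containing the generators is everything. -/
theorem gen_top {X : Set Q} (hX : mspan F X 1 = ⊤) (S : Submodule F Q)
    (hS : ∀ a ∈ S, ∀ b ∈ S, a * b ∈ S) (hXS : X ⊆ (S : Set Q)) : S = ⊤ := by
  rw [eq_top_iff, ← hX]
  refine Submodule.span_le.mpr ?_
  rintro w ⟨n, -, hw⟩
  induction hw with
  | gen hx => exact hXS hx
  | mul _ _ h1 h2 => exact hS _ h1 _ h2

end

/-- (A) from (C0). -/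
theorem aj_of_c0 {F : Type u} [Field F] (hC : C0Prop.{u, v} F) : AJProp.{u, v} F := by
  intro Q _ _ _ _ c hc Y hYY h x hx u
  have prime : ∀ a : Submodule F Q, (∀ i ∈ a, ∀ g : Q, i * g ∈ a) → a ≠ ⊥ →
      ∀ g : Q, (∀ i ∈ a, i * g = 0) → g = 0 := fun a ha hne g hg =>
        h.prime (a := a) (fun x hx y => ⟨ha x hx y, by rw [h.e2.comm y x]; exact ha x hx y⟩) hne hg
  have hVV : ∀ x ∈ Submodule.span F Y, ∀ y ∈ Submodule.span F Y, x * y = 0 :=
    fun x hx y hy => span_mul_zero hYY x hx y hy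
  refine uxx_zero h.e2 hc hVV ?_ (hC Q c hc Y hYY h) prime ?_ hx u
  · intro S hS hcS hYS
    refine gen_top h.gen S hS ?_
    intro z hz
    rcases Set.mem_insert_iff.mp hz with rfl | hz
    · exact hcS
    · exact hYS (Submodule.subset_span hz)
  · exact fun U hUV hUc => inj_of h.e2 hc hYY h.gen (h.c_ne hYY) prime U hUV hUc

/-- (C0) holds (helper86). -/
theorem c0_prop (F : Type u) [Field F] : C0Prop.{u, v} F := by
  intro Q _ _ _ _ c hc Y hYY h u x hx y hy
  exact c0 (F := F) h.e2 hc hYY h.gen u (span_mul_zero hYY x hx y hy)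

/-- (A) for just non-nilpotent algebras. -/
theorem aj (F : Type u) [Field F] : AJProp.{u, v} F := aj_of_c0 (c0_prop F)

end Pool.Agent.H66.Eng2
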