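import Pool.Agent.H66.Eng2.QNof

set_option autoImplicit false

/-!
# Products containing a letter twice vanish (MP_1664c7_al)
-/

universe u v

namespace Pool.Agent.H66.Eng2

open Pool.Agent.H66.Eng Pool.Agent.H86.Eng2

/-- Words in `V` and `c` of a given length. -/
inductive B0 {Q : Type*} [Mul Q] (V : Set Q) (c : Q) : ℕ → Q → Prop
  | v (a : Q) (ha : a ∈ V) : B0 V c 1 a
  | c : B0 V c 1 c
  | mul {m n : ℕ} {a b : Q} : B0 V c m a → B0 V c n b → B0 V c (m + n) (a * b)

/-- Words with one hole. -/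
inductive B1 {Q : Type*} [Mul Q] (V : Set Q) (c : Q) : ℕ → (Q → Q) → Prop
  | x : B1 V c 1 (fun x => x)
  | mul {m n : ℕ} {f : Q → Q} {w : Q} : B1 V c m f → B0 V c n w →
      B1 V c (m + n) (fun x => f x * w)

/-- Words with two holes. -/
inductive B2 {Q : Type*} [Mul Q] (V : Set Q) (c : Q) : ℕ → (Q → Q → Q) → Prop
  | mul {m n : ℕ} {f g : Q → Q} : B1 V c m f → B1 V c n g →
      B2 V c (m + n) (fun x y => f x * g y)
  | mulr {m n : ℕ} {h : Q → Q → Q} {w : Q} : B2 V c m h → B0 V c n w →
      B2 V c (m + n) (fun x y => h x y * w)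

section
variable {Q : Type v} [NonUnitalNonAssocRing Q] {V : AddSubgroup Q} {c : Q}

theorem B0.pos {n : ℕ} {w : Q} (h : B0 (V : Set Q) c n w) : 1 ≤ n := by
  induction h with
  | v _ _ => exact le_rfl
  | c => exact le_rfl
  | mul _ _ h1 h2 => omega

theorem B1.pos {n : ℕ} {f : Q → Q} (h : B1 (V : Set Q) c n f) : 1 ≤ n := by
  induction h with
  | x => exact le_rfl
  | mul _ _ h1 => omega

theorem B1.add {n : ℕ} {f : Q → Q} (h : B1 (V : Set Q) c n f) (x y : Q) :
    f (x + y) = f x + f y := by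
  induction h with
  | x => rfl
  | mul _ _ h1 => simp only [h1, add_mul]

theorem B1.word {n : ℕ} {f : Q → Q} (h : B1 (V : Set Q) c n f) {x : Q} (hx : x ∈ V) :
    B0 (V : Set Q) c n (f x) := by
  induction h with
  | x => exact B0.v x hx
  | mul _ h2 h1 => exact B0.mul h1 h2

theorem B2.add {n : ℕ} {h : Q → Q → Q} (hh : B2 (V : Set Q) c n h) (x y : Q) :
    h (x + y) (x + y) = h x x + h x y + h y x + h y y := by
  have key : ∀ a b d e, h (a + b) (d + e) = h a d + h a e + h b d + h b e := by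
    intro a b d e
    induction hh with
    | mul hf hg =>
      simp only [hf.add, hg.add, add_mul, mul_add]
      abel
    | mulr _ _ ih =>
      rename_i w _ _
      have := congrArg (· * w) ih
      simpa only [add_mul] using this
  exact key x y x y

/-- A word contains a letter or is `c` or zero. -/
theorem B0.letter (hQ : E2 Q) {n : ℕ} {w : Q} (h : B0 (V : Set Q) c n w) :
    (∃ y ∈ V, ∃ f, B1 (V : Set Q) c n f ∧ w = f y) ∨ w = c ∨ w = 0 := by
  induction h with
  | v a ha => exact Or.inl ⟨a, ha, _, B1.x, rfl⟩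
  | c => exact Or.inr (Or.inl rfl)
  | mul ha hb iha ihb =>
    rename_i m n a b
    rcases iha with ⟨y, hy, f, hf, e⟩ | iha
    · exact Or.inl ⟨y, hy, _, B1.mul hf hb, by rw [e]⟩
    · rcases ihb with ⟨y, hy, f, hf, e⟩ | ihb
      · refine Or.inl ⟨y, hy, fun x => f x * a, ?_, ?_⟩
        · have := B1.mul hf ha
          rwa [add_comm] at this
        · rw [e, hQ.comm]
      · right; right
        rcases iha with rfl | rfl
        · rcases ihb with rfl | rfl
          · exact hQ.sq _
          · rw [mul_zero]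
        · rw [zero_mul]

/-- The statement for length `n`. -/
def BD (V : AddSubgroup Q) (c : Q) (n : ℕ) : Prop :=
  ∀ h, B2 (V : Set Q) c n h → ∀ x ∈ V, h x x = 0

theorem BD.swap (hQ : E2 Q) {n : ℕ} (hD : BD V c n) {h : Q → Q → Q}
    (hh : B2 (V : Set Q) c n h) {x y : Q} (hx : x ∈ V) (hy : y ∈ V) : h x y = h y x := by
  have h1 := hh.add x y
  rw [hD h hh _ (V.add_mem hx hy), hD h hh x hx, hD h hh y hy] at h1
  apply hQ.eq_of
  simpa using h1.symm

variable (hQ : E2 Q) (hc : Thick2 c) {n : ℕ} (ih : ∀ m, m < n → BD V c m)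

include hQ ih in
theorem BK1 {a b k l : ℕ} {p s : Q → Q} {q r : Q} (hp : B1 (V : Set Q) c a p)
    (hs : B1 (V : Set Q) c b s) (hq : B0 (V : Set Q) c k q) (hr : B0 (V : Set Q) c l r)
    (hn : a + b + k + l = n) {x : Q} (hx : x ∈ V) :
    ((p x * q) * r) * s x = ((p x * r) * q) * s x := by
  have hk := hq.pos
  have hl := hr.pos
  have h := hQ.full (p x) q r (s x)
  have e1 : (p x * q) * s x = 0 := by
    have := ih (a + k + b) (by omega) _ (B2.mul (B1.mul hp hq) hs) x hx
    exact this
  have e2 : (p x * r) * s x = 0 := by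
    have := ih (a + l + b) (by omega) _ (B2.mul (B1.mul hp hr) hs) x hx
    exact this
  have e3 : p x * s x = 0 := ih (a + b) (by omega) _ (B2.mul hp hs) x hx
  rw [e1, e2, e3] at h
  simp only [zero_mul, add_zero] at h
  exact hQ.eq_of h

include hQ hc ih in
theorem BK2 {a b k l : ℕ} {p s : Q → Q} {q r : Q} (hp : B1 (V : Set Q) c a p)
    (hs : B1 (V : Set Q) c b s) (hq : B0 (V : Set Q) c k q) (hr : B0 (V : Set Q) c l r)
    (hn : a + b + k + l = n) {x : Q} (hx : x ∈ V) :
    (p x * (q * r)) * s x = ((p x * q) * r) * s x := by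
  have key : ∀ (k l : ℕ) (q r : Q), B0 (V : Set Q) c k q → B0 (V : Set Q) c l r →
      a + b + k + l = n → (∃ y ∈ V, ∃ f, B1 (V : Set Q) c k f ∧ q = f y) →
      (p x * (q * r)) * s x = ((p x * q) * r) * s x := by
    intro k l q r hq hr hn ⟨y, hy, f, hf, e⟩
    have hk := hq.pos
    have hl := hr.pos
    have hb := hs.pos
    have h1 : p x * f y = p y * f x :=
      (ih (a + k) (by omega)).swap hQ (B2.mul hp hf) hx hy
    have h2 : ((f x * p y) * r) * s x = ((f x * r) * p y) * s x :=
      BK1 hQ ih hf hs (hp.word hy) hr (by omega) hx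
    have h3 : (f x * r) * p y = (f y * r) * p x :=
      (ih (k + l + a) (by omega)).swap hQ (B2.mul (B1.mul hf hr) hp) hx hy
    rw [e, h1, hQ.comm (p y) (f x), h2, h3, hQ.comm (p x)]
  rcases hq.letter hQ with h | h | h
  · exact key k l q r hq hr hn h
  · rcases hr.letter hQ with h' | h' | h'
    · have := key l k r q hr hq (by omega) h'
      rw [hQ.comm q r, this, BK1 hQ ih hp hs hq hr hn hx]
    · rw [h, h', hQ.sq, hc.cc, mul_zero, zero_mul]
    · rw [h']; simp
  · rw [h]; simp

include hQ hc ih in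
theorem BR1 {a : ℕ} {p : Q → Q} (hp : B1 (V : Set Q) c a p) :
    ∀ {b k : ℕ} {s : Q → Q} {w : Q}, B1 (V : Set Q) c b s → B0 (V : Set Q) c k w →
      a + b + k = n → ∃ w', B0 (V : Set Q) c (a + k - 1) w' ∧
        ∀ x ∈ V, (p x * w) * s x = (x * w') * s x := by
  induction hp with
  | x =>
    intro b k s w hs hw hn
    exact ⟨w, by simpa using hw, fun x _ => rfl⟩
  | mul hf hw2 ihf =>
    rename_i m l f w2
    intro b k s w hs hw hn
    obtain ⟨w', hw', h⟩ := ihf hs (B0.mul hw2 hw) (by omega)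
    refine ⟨w', ?_, ?_⟩
    · have e : m + (l + k) - 1 = m + l + k - 1 := by omega
      rwa [e] at hw'
    · intro x hx
      rw [← h x hx, BK2 hQ hc ih hf hs hw2 hw (by omega) hx]

include hQ hc ih in
theorem BR2 (hVV : ∀ x ∈ V, ∀ y ∈ V, x * y = 0) {k : ℕ} {w : Q} (hw : B0 (V : Set Q) c k w) :
    (∀ {a b : ℕ} {p s : Q → Q}, B1 (V : Set Q) c a p → B1 (V : Set Q) c b s → a + b + k = n →
      ∃ u, B1 (V : Set Q) c (a + k - 1) u ∧ ∀ x ∈ V, (p x * w) * s x = (u x * c) * s x) ∨
    w ∈ V ∨ w = 0 := by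
  induction hw with
  | v a ha => exact Or.inr (Or.inl ha)
  | c =>
    left
    intro a b p s hp hs hn
    exact ⟨p, by simpa using hp, fun x _ => rfl⟩
  | mul h1 h2 ih1 ih2 =>
    rename_i k1 k2 w1 w2
    rcases ih1 with ih1 | ih1
    · left
      intro a b p s hp hs hn
      obtain ⟨u, hu, h⟩ := ih1 (B1.mul hp h2) hs (by omega)
      refine ⟨u, ?_, ?_⟩
      · have e : a + k2 + k1 - 1 = a + (k1 + k2) - 1 := by omega
        rwa [e] at hu
      · intro x hx
        rw [← h x hx, hQ.comm w1 w2, BK2 hQ hc ih hp hs h2 h1 (by omega) hx]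
    · rcases ih2 with ih2 | ih2
      · left
        intro a b p s hp hs hn
        obtain ⟨u, hu, h⟩ := ih2 (B1.mul hp h1) hs (by omega)
        refine ⟨u, ?_, ?_⟩
        · have e : a + k1 + k2 - 1 = a + (k1 + k2) - 1 := by omega
          rwa [e] at hu
        · intro x hx
          rw [← h x hx, BK2 hQ hc ih hp hs h1 h2 (by omega) hx]
      · right; right
        rcases ih1 with ih1 | ih1
        · rcases ih2 with ih2 | ih2
          · exact hVV _ ih1 _ ih2
          · rw [ih2, mul_zero]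
        · rw [ih1, zero_mul]

end

section
variable {Q : Type v} [NonUnitalNonAssocRing Q] {V : AddSubgroup Q} {c : Q}

/-- Everything containing a letter twice vanishes. -/
theorem bd_all (hQ : E2 Q) (hc : Thick2 c) (hVV : ∀ x ∈ V, ∀ y ∈ V, x * y = 0)
    (h2 : ∀ x ∈ V, ∀ u : Q, (u * x) * x = 0) : ∀ n, BD V c n := by
  intro n
  induction n using Nat.strong_induction_on with
  | _ n ih =>
    intro h hh
    -- a factor can be rooted at `c`
    have root : ∀ {a b k : ℕ} {f s : Q → Q} {w : Q}, B1 (V : Set Q) c a f →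
        B0 (V : Set Q) c k w → B1 (V : Set Q) c b s → a + k + b = n →
        (∀ x ∈ V, (f x * w) * s x = 0) ∨ ∃ u m, B1 (V : Set Q) c m u ∧ m + 1 = a + k ∧
          ∀ x ∈ V, (f x * w) * s x = (u x * c) * s x := by
      intro a b k f s w hf hw hs hn
      obtain ⟨w', hw', h1⟩ := BR1 hQ hc ih hf hs hw (by omega)
      have ha := hf.pos
      have hk := hw.pos
      rcases BR2 hQ hc ih hVV hw' with h3 | h3 | h3
      · obtain ⟨u, hu, h4⟩ := h3 B1.x hs (by omega)
        right
        refine ⟨u, 1 + (a + k - 1) - 1, hu, by omega, ?_⟩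
        intro x hx
        rw [h1 x hx, h4 x hx]
      · left
        intro x hx
        rw [h1 x hx, hVV x hx _ h3, zero_mul]
      · left
        intro x hx
        rw [h1 x hx, h3, mul_zero, zero_mul]
    have letx : ∀ {a k : ℕ} {f : Q → Q} {w : Q}, B1 (V : Set Q) c a f →
        B0 (V : Set Q) c k w → a + k + 1 = n → ∀ x ∈ V, (f x * w) * x = 0 := by
      intro a k f w hf hw hn x hx
      obtain ⟨w', hw', h1⟩ := BR1 hQ hc ih hf B1.x hw (by omega)
      have := h1 x hx
      rw [this, hQ.comm x w', h2 x hx]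
    cases hh with
    | mulr h1 hw =>
      rename_i m l h1' w
      intro x hx
      have := hw.pos
      change h1' x x * w = 0
      rw [ih m (by omega) h1' h1 x hx, zero_mul]
    | mul hf hg =>
      intro x hx
      cases hf with
      | x =>
        cases hg with
        | x => exact hQ.sq x
        | mul hg hw =>
          rename_i m l g w
          change x * (g x * w) = 0
          rw [hQ.comm]
          exact letx hg hw (by omega) x hx
      | mul hf hw =>
        rename_i m l f w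
        cases hg with
        | x =>
          exact letx hf hw (by omega) x hx
        | mul hg hw2 =>
          rename_i m2 l2 g w2
          rcases root hf hw (B1.mul hg hw2) (by omega) with h3 | ⟨u, m', hu, he, h3⟩
          · exact h3 x hx
          · have e1 := h3 x hx
            change (f x * w) * (g x * w2) = 0
            rw [e1]
            rcases root hg hw2 (B1.mul hu B0.c) (by omega) with h4 | ⟨u2, m2', hu2, he2, h4⟩
            · have := h4 x hx
              rwa [hQ.comm] at this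
            · have e2 := h4 x hx
              rw [hQ.comm] at e2
              rw [e2]
              exact hc.th _ _

theorem xm_b {x z : Q} {k : ℕ} (hQ : E2 Q) (h : XM (V : Set Q) c x k z) :
    (k = 0 → ∃ n, B0 (V : Set Q) c n z) ∧ (k = 1 → ∃ n f, B1 (V : Set Q) c n f ∧ z = f x) ∧
    (k = 2 → ∃ n h, B2 (V : Set Q) c n h ∧ z = h x x) := by
  induction h with
  | v a ha => exact ⟨fun _ => ⟨1, B0.v a ha⟩, by omega, by omega⟩
  | c => exact ⟨fun _ => ⟨1, B0.c⟩, by omega, by omega⟩
  | x => exact ⟨by omega, fun _ => ⟨1, _, B1.x, rfl⟩, by omega⟩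
  | mul _ _ ih1 ih2 =>
    rename_i m n y z _ _
    obtain ⟨a0, a1, a2⟩ := ih1
    obtain ⟨b0, b1, b2⟩ := ih2
    refine ⟨?_, ?_, ?_⟩
    · intro hk
      obtain ⟨n1, h1⟩ := a0 (by omega)
      obtain ⟨n2, h2⟩ := b0 (by omega)
      exact ⟨_, B0.mul h1 h2⟩
    · intro hk
      rcases Nat.eq_zero_or_pos m with hm | hm
      · obtain ⟨n1, h1⟩ := a0 hm
        obtain ⟨n2, f, h2, e⟩ := b1 (by omega)
        exact ⟨_, _, B1.mul h2 h1, by rw [e, hQ.comm]⟩
      · obtain ⟨n1, f, h1, e⟩ := a1 (by omega)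
        obtain ⟨n2, h2⟩ := b0 (by omega)
        exact ⟨_, _, B1.mul h1 h2, by rw [e]⟩
    · intro hk
      have hm : m = 0 ∨ m = 1 ∨ m = 2 := by omega
      rcases hm with hm | hm | hm
      · obtain ⟨n1, h1⟩ := a0 hm
        obtain ⟨n2, h, h2, e⟩ := b2 (by omega)
        exact ⟨_, _, B2.mulr h2 h1, by rw [e, hQ.comm]⟩
      · obtain ⟨n1, f, h1, e⟩ := a1 hm
        obtain ⟨n2, g, h2, e'⟩ := b1 (by omega)
        exact ⟨_, _, B2.mul h1 h2, by rw [e, e']⟩
      · obtain ⟨n1, h, h1, e⟩ := a2 hm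
        obtain ⟨n2, h2⟩ := b0 (by omega)
        exact ⟨_, _, B2.mulr h1 h2, by rw [e]⟩

/-- **(B).** -/
theorem bprop : BProp.{v} := by
  intro Q _ hQ c hc V hVV h2 x hx z hz
  obtain ⟨n, h, hh, e⟩ := (xm_b hQ hz).2.2 rfl
  rw [e]
  exact bd_all hQ hc hVV h2 n h hh x hx

end

end Pool.Agent.H66.Eng2
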