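import Pool.Agent.H66.Eng2.Final

set_option autoImplicit false

/-!
# Base change to an infinite field (MP_1664c7_al)
-/

universe u v

namespace Pool.Agent.H66.Eng2

open Pool.Agent.H66.Eng Pool.Agent.H86.Eng2
open scoped TensorProduct

section all

variable {F : Type u} [Field F] {R : Type v} [NonUnitalNonAssocRing R] [Module F R]
  [IsScalarTower F R R] [SMulCommClass F R R]

theorem MulId.e2_top {S : Set R} (h : MulId S) (hS : Submodule.span F S = ⊤) : E2 R := by
  have m : ∀ x : R, x ∈ Submodule.span F S := fun x => by rw [hS]; trivial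
  exact
    { two := h.two
      sq := fun x => h.sq' (F := F) x (m x)
      eng := fun x y => h.eng' (F := F) x (m x) y (m y)
      lin := fun x a w => h.lin' (F := F) x (m x) a (m a) w (m w) }

end all

section base

variable (F : Type u) [Field F] (A : Type v) [NonUnitalNonAssocRing A] [Module F A]
  [IsScalarTower F A A] [SMulCommClass F A A]

theorem tensor_e2 (K : Type u) [Field K] [Algebra F K] (hA : E2 A) : E2 (K ⊗[F] A) := by
  have hS : Submodule.span K {x : K ⊗[F] A | ∃ a : A, x = (1 : K) ⊗ₜ[F] a} = ⊤ := by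
    rw [eq_top_iff]
    intro x _
    induction x using TensorProduct.induction_on with
    | zero => exact Submodule.zero_mem _
    | tmul k a =>
      have e : k ⊗ₜ[F] a = k • ((1 : K) ⊗ₜ[F] a) := by
        rw [TensorProduct.smul_tmul', smul_eq_mul, mul_one]
      rw [e]
      exact Submodule.smul_mem _ _ (Submodule.subset_span ⟨a, rfl⟩)
    | add x y hx hy => exact Submodule.add_mem _ (hx trivial) (hy trivial)
  refine MulId.e2_top (F := K) ?_ hS
  refine
    { two := ?_
      sq := ?_
      comm := ?_
      eng := ?_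
      lin := ?_
      full := ?_ }
  · intro x
    induction x using TensorProduct.induction_on with
    | zero => simp
    | tmul k a => rw [← TensorProduct.tmul_add, hA.two, TensorProduct.tmul_zero]
    | add x y hx hy =>
      linear_combination (norm := abel) hx + hy
  · rintro a ⟨a, rfl⟩
    rw [Algebra.TensorProduct.tmul_mul_tmul, hA.sq, TensorProduct.tmul_zero]
  · rintro a ⟨a, rfl⟩ b ⟨b, rfl⟩
    rw [Algebra.TensorProduct.tmul_mul_tmul, Algebra.TensorProduct.tmul_mul_tmul,
      ← TensorProduct.tmul_add, hA.comm a b, hA.two, TensorProduct.tmul_zero]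
  · rintro x ⟨x, rfl⟩ a ⟨a, rfl⟩
    simp only [Algebra.TensorProduct.tmul_mul_tmul, mul_one]
    rw [hA.eng, TensorProduct.tmul_zero]
  · rintro x ⟨x, rfl⟩ a ⟨a, rfl⟩ w ⟨w, rfl⟩
    simp only [Algebra.TensorProduct.tmul_mul_tmul, mul_one, ← TensorProduct.tmul_add]
    rw [hA.lin, TensorProduct.tmul_zero]
  · rintro x ⟨x, rfl⟩ p ⟨p, rfl⟩ q ⟨q, rfl⟩ r ⟨r, rfl⟩
    simp only [Algebra.TensorProduct.tmul_mul_tmul, mul_one, ← TensorProduct.tmul_add]
    rw [hA.full, TensorProduct.tmul_zero]

theorem tmul_one_inj (K : Type u) [Field K] [Algebra F K] {a : A}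
    (h : (1 : K) ⊗ₜ[F] a = 0) : a = 0 := by
  obtain ⟨φ, hφ⟩ := (Algebra.linearMap F K).exists_leftInverse_of_injective
    (LinearMap.ker_eq_bot.mpr (algebraMap F K).injective)
  have h1 : φ 1 = 1 := by
    have := LinearMap.congr_fun hφ 1
    simpa using this
  have h2 := congrArg (fun z => TensorProduct.lid F A (LinearMap.rTensor A φ z)) h
  simpa [h1] using h2

end base

/-- **Main reduction in characteristic two, any field**, for monomials. -/
theorem main3M {F : Type u} [Field F] {A : Type v} [NonUnitalNonAssocRing A] [Module F A]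
    [IsScalarTower F A A] [SMulCommClass F A A]
    (hN : ∀ (K : Type u) [Field K] [Infinite K], ThmNProp.{u, max u v} K)
    (hI : ∀ (G : Type (max u v)) [NonUnitalNonAssocRing G], E2 G →
      ∀ c : G, (∀ u : G, (u * c) * c = 0) → ∀ x y : G, Thick2 ((x * c) * (y * c)))
    (hII : ∀ (K : Type u) [Field K] [Infinite K] (G : Type (max u v)) [NonUnitalNonAssocRing G]
      [Module K G] [IsScalarTower K G G] [SMulCommClass K G G], E2 G →
      (∀ c : G, (∀ u : G, (u * c) * c = 0) → c = 0) → ∀ a : G, a = 0)
    (hA : E2 A) {X : Set A} (hX : X.Finite) : ∃ N, ∀ n, N ≤ n → ∀ w, Mon X n w → w = 0 := by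
  let K := AlgebraicClosure F
  have hinf : Infinite K := inferInstance
  have hE : E2 (K ⊗[F] A) := tensor_e2 F A K hA
  obtain ⟨N, hN⟩ := main2N (F := K) (A := K ⊗[F] A) (hN K) hI
    (fun G _ _ _ _ => hII K G) hE
    (X := (fun a : A => (1 : K) ⊗ₜ[F] a) '' X) (hX.image _)
  refine ⟨N, ?_⟩
  intro n hn w hw
  have hmap : Mon ((fun a : A => (1 : K) ⊗ₜ[F] a) '' X) n ((1 : K) ⊗ₜ[F] w) := by
    refine Mon.map (fun a : A => (1 : K) ⊗ₜ[F] a) ?_ hw
    intro x y
    rw [Algebra.TensorProduct.tmul_mul_tmul, mul_one]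
  exact tmul_one_inj F A K (hN n hn _ hmap)

/-- **Main reduction in characteristic two, any field.** -/
theorem main3N {F : Type u} [Field F] {A : Type v} [NonUnitalNonAssocRing A] [Module F A]
    [IsScalarTower F A A] [SMulCommClass F A A]
    (hN : ∀ (K : Type u) [Field K] [Infinite K], ThmNProp.{u, max u v} K)
    (hI : ∀ (G : Type (max u v)) [NonUnitalNonAssocRing G], E2 G →
      ∀ c : G, (∀ u : G, (u * c) * c = 0) → ∀ x y : G, Thick2 ((x * c) * (y * c)))
    (hII : ∀ (K : Type u) [Field K] [Infinite K] (G : Type (max u v)) [NonUnitalNonAssocRing G]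
      [Module K G] [IsScalarTower K G G] [SMulCommClass K G G], E2 G →
      (∀ c : G, (∀ u : G, (u * c) * c = 0) → c = 0) → ∀ a : G, a = 0)
    (hA : E2 A) (s : Finset A) :
    IsNilpotentAlg (NonUnitalAlgebra.adjoin F (s : Set A)) :=
  nilpotent_of_mon (main3M (F := F) hN hI hII hA s.finite_toSet)

/-- The same, from the letter bound. -/
theorem main3 {F : Type u} [Field F] {A : Type v} [NonUnitalNonAssocRing A] [Module F A]
    [IsScalarTower F A A] [SMulCommClass F A A]
    (hLB : ∀ (K : Type u) [Field K] [Infinite K] (G : Type (max u v)) [NonUnitalNonAssocRing G]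
      [Module K G] [IsScalarTower K G G] [SMulCommClass K G G], E2 G → LetterBound K G)
    (hI : ∀ (G : Type (max u v)) [NonUnitalNonAssocRing G], E2 G →
      ∀ c : G, (∀ u : G, (u * c) * c = 0) → ∀ x y : G, Thick2 ((x * c) * (y * c)))
    (hII : ∀ (K : Type u) [Field K] [Infinite K] (G : Type (max u v)) [NonUnitalNonAssocRing G]
      [Module K G] [IsScalarTower K G G] [SMulCommClass K G G], E2 G →
      (∀ c : G, (∀ u : G, (u * c) * c = 0) → c = 0) → ∀ a : G, a = 0)
    (hA : E2 A) (s : Finset A) :
    IsNilpotentAlg (NonUnitalAlgebra.adjoin F (s : Set A)) :=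
  main3N (fun K _ _ => thmNProp_of_LB (fun G _ _ _ _ => hLB K G)) hI hII hA s

/-- `E2` for algebras over a field of characteristic two with more than two elements. -/
theorem e2_of_field {F : Type u} [Field F] {A : Type v} [NonUnitalNonAssocRing A] [Module F A]
    [IsScalarTower F A A] [SMulCommClass F A A] (h2 : (2 : F) = 0)
    (t : F) (ht0 : t ≠ 0) (ht1 : t ≠ 1)
    (sq : ∀ x : A, x * x = 0) (eng : ∀ x y : A, ((x * y) * y) * y = 0) : E2 A := by
  have two : ∀ x : A, x + x = 0 := by
    intro x
    rw [← two_smul F x, h2, zero_smul]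
  have hexp : ∀ (r : F) (x a w : A),
      r • (((x * a) * a) * w + ((x * a) * w) * a + ((x * w) * a) * a)
      + (r * r) • (((x * w) * w) * a + ((x * w) * a) * w + ((x * a) * w) * w) = 0 := by
    intro r x a w
    have h := eng x (a + r • w)
    have ha := eng x a
    have hw := eng x w
    simp only [mul_add, add_mul, mul_smul_comm, smul_mul_assoc, smul_add, smul_smul, ha, hw,
      smul_zero, zero_add, add_zero] at h
    simp only [smul_add]
    rw [← h]
    abel
  refine ⟨two, sq, eng, ?_⟩
  intro x a w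
  set P := ((x * a) * a) * w + ((x * a) * w) * a + ((x * w) * a) * a with hP
  set Q := ((x * w) * w) * a + ((x * w) * a) * w + ((x * a) * w) * w with hQ
  have h1 : P + Q = 0 := by
    have := hexp 1 x a w
    simpa using this
  have ht := hexp t x a w
  have hQ' : Q = P := by
    have e : P + Q = P + P := by rw [h1, two]
    exact add_left_cancel e
  rw [← hP, ← hQ, hQ', ← add_smul] at ht
  have hne : t + t * t ≠ 0 := by
    have e : t + t * t = t * (1 + t) := by ring
    rw [e]
    refine mul_ne_zero ht0 ?_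
    intro h0
    apply ht1
    have e2 : t = t + 2 := by rw [h2, add_zero]
    calc t = t + 2 := e2
      _ = (1 + t) + 1 := by ring
      _ = 1 := by rw [h0, zero_add]
  exact (smul_eq_zero.mp ht).resolve_left hne

end Pool.Agent.H66.Eng2
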