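import Pool.Agent.H66.Eng2.ThmN

set_option autoImplicit false

/-!
# Closed ideals (MP_1664c7_al)
-/

universe u v

namespace Pool.Agent.H66.Eng2

open Pool.Agent.H66.Eng Pool.Agent.H86.Eng2

section closed

variable {F : Type u} [Field F] {B : Type v} [NonUnitalNonAssocRing B] [Module F B]

/-- Closure of a subspace in the topology given by the powers. -/
def Cl (X : Set B) (I : Submodule F B) : Submodule F B := ⨅ n, I ⊔ mspan F X n

theorem mem_Cl {X : Set B} {I : Submodule F B} {x : B} :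
    x ∈ Cl X I ↔ ∀ n, x ∈ I ⊔ mspan F X n := by
  unfold Cl
  rw [Submodule.mem_iInf]

theorem le_Cl (X : Set B) (I : Submodule F B) : I ≤ Cl X I := by
  intro x hx
  rw [mem_Cl]
  intro n
  exact Submodule.mem_sup_left hx

theorem Cl_mono {X : Set B} {I J : Submodule F B} (h : I ≤ J) : Cl X I ≤ Cl X J := by
  intro x hx
  rw [mem_Cl] at hx ⊢
  intro n
  exact sup_le_sup_right h _ (hx n)

theorem Cl_Cl (X : Set B) (I : Submodule F B) : Cl X (Cl X I) ≤ Cl X I := by
  intro x hx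
  rw [mem_Cl] at hx ⊢
  intro n
  have h := hx n
  have h2 : Cl X I ⊔ mspan F X n ≤ I ⊔ mspan F X n := by
    refine sup_le ?_ le_sup_right
    intro y hy
    exact (mem_Cl.mp hy) n
  exact h2 h

theorem mspan_anti {X : Set B} {m n : ℕ} (h : m ≤ n) : mspan F X n ≤ mspan F X m := by
  refine Submodule.span_mono ?_
  rintro w ⟨k, hk, hw⟩
  exact ⟨k, by omega, hw⟩

variable [IsScalarTower F B B] [SMulCommClass F B B]

theorem mspan_ideal {X : Set B} (hgen : mspan F X 1 = ⊤) (n : ℕ) : SId (mspan F X n) := by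
  intro x hx y
  have hy : y ∈ mspan F X 1 := by rw [hgen]; trivial
  exact ⟨mspan_anti (by omega) (mspan_mul hx hy), mspan_anti (by omega) (mspan_mul hy hx)⟩

omit [IsScalarTower F B B] [SMulCommClass F B B] in
theorem sup_ideal {I J : Submodule F B} (hI : SId I) (hJ : SId J) : SId (I ⊔ J) := by
  intro x hx y
  obtain ⟨a, ha, b, hb, rfl⟩ := Submodule.mem_sup.mp hx
  rw [add_mul, mul_add]
  exact ⟨Submodule.add_mem_sup (hI a ha y).1 (hJ b hb y).1,
    Submodule.add_mem_sup (hI a ha y).2 (hJ b hb y).2⟩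

theorem Cl_ideal {X : Set B} (hgen : mspan F X 1 = ⊤) {I : Submodule F B} (hI : SId I) :
    SId (Cl X I) := by
  intro x hx y
  rw [mem_Cl] at hx
  constructor
  · rw [mem_Cl]; intro n; exact (sup_ideal hI (mspan_ideal hgen n) x (hx n) y).1
  · rw [mem_Cl]; intro n; exact (sup_ideal hI (mspan_ideal hgen n) x (hx n) y).2

theorem Cl_mul {X : Set B} (hgen : mspan F X 1 = ⊤) {I J K : Submodule F B}
    (h : ∀ a ∈ I, ∀ b ∈ J, a * b ∈ K) {x y : B} (hx : x ∈ Cl X I) (hy : y ∈ Cl X J) :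
    x * y ∈ Cl X K := by
  rw [mem_Cl] at hx hy ⊢
  intro n
  obtain ⟨a, ha, p, hp, rfl⟩ := Submodule.mem_sup.mp (hx n)
  obtain ⟨b, hb, q, hq, rfl⟩ := Submodule.mem_sup.mp (hy n)
  have e : (a + p) * (b + q) = a * b + (a * q + p * (b + q)) := by
    rw [add_mul, mul_add, mul_add]; abel
  rw [e]
  exact Submodule.add_mem_sup (h a ha b hb) (Submodule.add_mem _
    (mspan_ideal hgen n q hq a).2 (mspan_ideal hgen n p hp (b + q)).1)

/-- Nakayama type statement. -/
theorem nilMod_of_sup {X : Set B} {I : Submodule F B} (hI : SId I)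
    (hcl : Cl X I ≤ I) {K : ℕ} (hK1 : 1 ≤ K)
    (h : ∀ n, K ≤ n → n < 2 * K → ∀ w, Mon X n w → w ∈ I ⊔ mspan F X (2 * K)) :
    NilMod X I := by
  have step : ∀ n, K ≤ n → mspan F X n ≤ I ⊔ mspan F X (n + 1) := by
    intro n
    induction n using Nat.strong_induction_on with
    | _ n ih =>
      intro hn
      refine Submodule.span_le.mpr ?_
      rintro w ⟨m, hm, hw⟩
      rcases Nat.lt_or_ge n m with h1 | h1
      · exact Submodule.mem_sup_right (Submodule.subset_span ⟨m, h1, hw⟩)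
      have hmn : m = n := le_antisymm h1 hm
      subst hmn
      rcases Nat.lt_or_ge m (2 * K) with h2 | h2
      · have h4 := h m hn h2 w hw
        have h5 : I ⊔ mspan F X (2 * K) ≤ I ⊔ mspan F X (m + 1) :=
          sup_le le_sup_left ((mspan_anti (by omega)).trans le_sup_right)
        exact h5 h4
      rcases hw.cases' with ⟨h3, _⟩ | ⟨i, j, x, y, hi, hj, hij, hx, hy, rfl⟩
      · omega
      rcases Nat.lt_or_ge i K with hiK | hiK
      · -- j ≥ K
        have hyj : y ∈ I ⊔ mspan F X (j + 1) :=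
          ih j (by omega) (by omega) (Submodule.subset_span ⟨j, le_rfl, hy⟩)
        obtain ⟨s, hs, p, hp, rfl⟩ := Submodule.mem_sup.mp hyj
        rw [mul_add]
        refine Submodule.add_mem_sup (hI s hs x).2 ?_
        have hx' : x ∈ mspan F X i := Submodule.subset_span ⟨i, le_rfl, hx⟩
        exact mspan_anti (by omega) (mspan_mul hx' hp)
      · have hxi : x ∈ I ⊔ mspan F X (i + 1) :=
          ih i (by omega) hiK (Submodule.subset_span ⟨i, le_rfl, hx⟩)
        obtain ⟨s, hs, p, hp, rfl⟩ := Submodule.mem_sup.mp hxi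
        rw [add_mul]
        refine Submodule.add_mem_sup (hI s hs y).1 ?_
        have hy' : y ∈ mspan F X j := Submodule.subset_span ⟨j, le_rfl, hy⟩
        exact mspan_anti (by omega) (mspan_mul hp hy')
  have all : ∀ k, mspan F X K ≤ I ⊔ mspan F X (K + k) := by
    intro k
    induction k with
    | zero => exact le_sup_right
    | succ k ihk =>
      refine ihk.trans (sup_le le_sup_left ?_)
      have := step (K + k) (by omega)
      simpa [add_assoc] using this
  refine ⟨K, ?_⟩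
  intro n hn w hw
  apply hcl
  rw [mem_Cl]
  intro m
  have h1 : w ∈ mspan F X K := Submodule.subset_span ⟨n, hn, hw⟩
  have h5 : I ⊔ mspan F X (K + m) ≤ I ⊔ mspan F X m :=
    sup_le le_sup_left ((mspan_anti (by omega)).trans le_sup_right)
  exact h5 (all m h1)

theorem exists_max_closed {X : Set B} (hX : X.Finite) (hgen : mspan F X 1 = ⊤)
    {I₀ : Submodule F B} (hI₀ : SId I₀) (hc₀ : Cl X I₀ ≤ I₀) (hn : ¬ NilMod X I₀) :
    ∃ I : Submodule F B, SId I ∧ Cl X I ≤ I ∧ ¬ NilMod X I ∧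
      ∀ J : Submodule F B, SId J → Cl X J ≤ J → I ≤ J → ¬ NilMod X J → J = I := by
  have hz := zorn_le_nonempty₀ {I : Submodule F B | SId I ∧ Cl X I ≤ I ∧ ¬ NilMod X I} ?_ I₀
    ⟨hI₀, hc₀, hn⟩
  · obtain ⟨I, _, hmax⟩ := hz
    refine ⟨I, hmax.prop.1, hmax.prop.2.1, hmax.prop.2.2, ?_⟩
    intro J hJ hJc hIJ hJn
    exact le_antisymm (hmax.le_of_ge ⟨hJ, hJc, hJn⟩ hIJ) hIJ
  · intro c hc hchain I₁ hI₁
    have hne : c.Nonempty := ⟨I₁, hI₁⟩
    have hdir : DirectedOn (· ≤ ·) c := hchain.directedOn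
    have hsid : SId (sSup c) := by
      intro x hx y
      rw [Submodule.mem_sSup_of_directed hne hdir] at hx
      obtain ⟨I, hIc, hxI⟩ := hx
      have := (hc hIc).1 x hxI y
      exact ⟨le_sSup hIc this.1, le_sSup hIc this.2⟩
    refine ⟨Cl X (sSup c), ⟨Cl_ideal hgen hsid, Cl_Cl X _, ?_⟩,
      fun I hI => (le_sSup hI).trans (le_Cl X _)⟩
    rintro ⟨K0, hK0⟩
    set K := K0 + 1 with hKdef
    have hK : ∀ n, K ≤ n → ∀ w, Mon X n w → w ∈ Cl X (sSup c) := fun n hn => hK0 n (by omega)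
    have hfin := Mon.finite_lt hX (2 * K)
    set S := {p : ℕ × B | p.1 < 2 * K ∧ Mon X p.1 p.2} with hS
    have hall : ∀ T : Set (ℕ × B), T.Finite → (∀ p ∈ T, K ≤ p.1 ∧ Mon X p.1 p.2) →
        ∃ I ∈ c, ∀ p ∈ T, p.2 ∈ I ⊔ mspan F X (2 * K) := by
      intro T hT
      induction T, hT using Set.Finite.induction_on with
      | empty => intro _; exact ⟨I₁, hI₁, by simp⟩
      | insert _ _ ih =>
        rename_i a s ha hs
        intro hp
        obtain ⟨I, hIc, hIs⟩ := ih (fun p hp' => hp p (Set.mem_insert_of_mem _ hp'))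
        have ha2 := hp a (Set.mem_insert _ _)
        have ham := (mem_Cl.mp (hK a.1 ha2.1 a.2 ha2.2)) (2 * K)
        obtain ⟨s', hs', p', hp'', hsum⟩ := Submodule.mem_sup.mp ham
        rw [Submodule.mem_sSup_of_directed hne hdir] at hs'
        obtain ⟨I', hI'c, hsI'⟩ := hs'
        obtain ⟨I'', hI''c, h1, h2⟩ := hdir I hIc I' hI'c
        refine ⟨I'', hI''c, ?_⟩
        intro p hpm
        rcases Set.mem_insert_iff.mp hpm with rfl | hpm
        · rw [← hsum]
          exact Submodule.add_mem_sup (h2 hsI') hp''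
        · exact sup_le_sup_right h1 _ (hIs p hpm)
    obtain ⟨I, hIc, hIS⟩ := hall {p : ℕ × B | p ∈ S ∧ K ≤ p.1} (hfin.subset (fun p hp => hp.1))
      (fun p hp => ⟨hp.2, hp.1.2⟩)
    refine (hc hIc).2.2 ?_
    refine nilMod_of_sup (hc hIc).1 (hc hIc).2.1 (K := K) (by omega) ?_
    intro n hn1 hn2 w hw
    exact hIS (n, w) ⟨⟨hn2, hw⟩, hn1⟩

end closed

end Pool.Agent.H66.Eng2
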