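import Pool.Agent.H66.Eng.Ext

set_option autoImplicit false

/-!
# Extension lemma, general form (MP_1664c7_al)
-/

namespace Pool.Agent.H66.Eng2

open Pool.Agent.H66.Eng

section ring
variable {A : Type*} [NonUnitalNonAssocRing A]

/-- The relation `R_x R_y R_y = - R_{xy} R_y - R_{(xy)y}` on `I`. -/
def RelOn (I : AddSubgroup A) : Prop :=
  ∀ z ∈ I, ∀ x y : A, ((z * x) * y) * y = -((z * (x * y)) * y) - z * ((x * y) * y)

/-- polarised form. -/
theorem relp {I : AddSubgroup A} (hR : RelOn I) {z : A} (hz : z ∈ I) (x y w : A) :
    ((z * x) * y) * w = -(((z * x) * w) * y) - (z * (x * y)) * w - (z * (x * w)) * y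
      - z * ((x * y) * w) - z * ((x * w) * y) := by
  have h := hR z hz x (y + w)
  have hy := hR z hz x y
  have hw := hR z hz x w
  simp only [mul_add, add_mul] at h
  have e : ((z * x) * y) * w = (((z * x) * y) * y + ((z * x) * w) * y +
      (((z * x) * y) * w + ((z * x) * w) * w)) - ((z * x) * y) * y - ((z * x) * w) * w
      - ((z * x) * w) * y := by abel
  rw [e, h, hy, hw]
  abel

/-- Permuting the tail keeps vanishing, when all shorter words vanish. -/
theorem perm_act {X : Set A} {I : AddSubgroup A} (hI : IsId I) (hR : RelOn I) {M k : ℕ}
    (ih : ∀ z ∈ I, ∀ l : List (ℕ × A), l.length ≤ k → MonL X l → M ≤ wt l → act z l = 0)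
    {l l' : List (ℕ × A)} (hp : l.Perm l') :
    ∀ (z : A), z ∈ I → ∀ (p : List (ℕ × A)) (b : ℕ × A),
      (p ++ b :: l).length = k + 1 → MonL X (p ++ b :: l) → M ≤ wt (p ++ b :: l) →
      (act z (p ++ b :: l) = 0 ↔ act z (p ++ b :: l') = 0) := by
  induction hp with
  | nil => intros; exact Iff.rfl
  | cons a _ ihp =>
    intro z hz p b h1 h2 h3
    have := ihp z hz (p ++ [b]) a (by simpa using h1) (by simpa using h2) (by simpa using h3)
    simpa using this
  | swap a c l =>
    intro z hz p b h1 h2 h3
    -- lists c :: a :: l and a :: c :: l
    have hb : Mon X b.1 b.2 := h2 b (by simp)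
    have ha : Mon X a.1 a.2 := h2 a (by simp)
    have hc : Mon X c.1 c.2 := h2 c (by simp)
    have hl : ∀ q ∈ l, Mon X q.1 q.2 := fun q hq => h2 q (by simp [hq])
    have hpp : ∀ q ∈ p, Mon X q.1 q.2 := fun q hq => h2 q (by simp [hq])
    simp only [List.length_append, List.length_cons] at h1
    simp only [wt_append, wt_cons] at h3
    rw [act_append, act_append]
    simp only [act_cons]
    set u := act z p with hu
    have hu' : u ∈ I := act_mem hI hz p
    have hrel := relp hR hu' b.2 c.2 a.2
    have e1 : act ((u * (b.2 * c.2)) * a.2) l = 0 := by
      have := ih z hz (p ++ (b.1 + c.1, b.2 * c.2) :: a :: l)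
        (by simp only [List.length_append, List.length_cons]; omega) ?_
        (by simp only [wt_append, wt_cons]; omega)
      · rw [act_append] at this
        simpa only [act_cons] using this
      · intro q hq
        simp only [List.mem_append, List.mem_cons] at hq
        rcases hq with hq | rfl | rfl | hq
        · exact hpp q hq
        · exact hb.mul hc
        · exact ha
        · exact hl q hq
    have e2 : act ((u * (b.2 * a.2)) * c.2) l = 0 := by
      have := ih z hz (p ++ (b.1 + a.1, b.2 * a.2) :: c :: l)
        (by simp only [List.length_append, List.length_cons]; omega) ?_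
        (by simp only [wt_append, wt_cons]; omega)
      · rw [act_append] at this
        simpa only [act_cons] using this
      · intro q hq
        simp only [List.mem_append, List.mem_cons] at hq
        rcases hq with hq | rfl | rfl | hq
        · exact hpp q hq
        · exact hb.mul ha
        · exact hc
        · exact hl q hq
    have e3 : act (u * ((b.2 * c.2) * a.2)) l = 0 := by
      have := ih z hz (p ++ (b.1 + c.1 + a.1, (b.2 * c.2) * a.2) :: l)
        (by simp only [List.length_append, List.length_cons]; omega) ?_
        (by simp only [wt_append, wt_cons]; omega)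
      · rw [act_append] at this
        simpa only [act_cons] using this
      · intro q hq
        simp only [List.mem_append, List.mem_cons] at hq
        rcases hq with hq | rfl | hq
        · exact hpp q hq
        · exact (hb.mul hc).mul ha
        · exact hl q hq
    have e4 : act (u * ((b.2 * a.2) * c.2)) l = 0 := by
      have := ih z hz (p ++ (b.1 + a.1 + c.1, (b.2 * a.2) * c.2) :: l)
        (by simp only [List.length_append, List.length_cons]; omega) ?_
        (by simp only [wt_append, wt_cons]; omega)
      · rw [act_append] at this
        simpa only [act_cons] using this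
      · intro q hq
        simp only [List.mem_append, List.mem_cons] at hq
        rcases hq with hq | rfl | hq
        · exact hpp q hq
        · exact (hb.mul ha).mul hc
        · exact hl q hq
    have hmain : act (((u * b.2) * c.2) * a.2) l = - act (((u * b.2) * a.2) * c.2) l := by
      rw [hrel]
      simp only [sub_eq_add_neg, act_add, act_neg, e1, e2, e3, e4]
      simp
    rw [hmain, neg_eq_zero]
  | trans h1 h2 ih1 ih2 =>
    rename_i l₁ l₂ l₃
    intro z hz p b g1 g2 g3
    rw [ih1 z hz p b g1 g2 g3]
    have hlen : l₁.length = l₂.length := h1.length_eq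
    refine ih2 z hz p b ?_ ?_ ?_
    · simpa [hlen] using g1
    · intro q hq
      apply g2 q
      simp only [List.mem_append, List.mem_cons] at hq ⊢
      rcases hq with hq | rfl | hq
      · exact Or.inl hq
      · exact Or.inr (Or.inl rfl)
      · exact Or.inr (Or.inr (h1.mem_iff.mpr hq))
    · have hw : wt l₁ = wt l₂ := by
        unfold wt
        exact (h1.map _).sum_eq
      simp only [wt_append, wt_cons] at g3 ⊢
      omega

/-- Words of large weight vanish on `I`. -/
theorem words_zero {X : Set A} (hX : X.Finite) {I : AddSubgroup A} (hI : IsId I) (hR : RelOn I)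
    (hII : ∀ x ∈ I, ∀ y ∈ I, x * y = 0) {N : ℕ}
    (hN : ∀ n, N ≤ n → ∀ w, Mon X n w → w ∈ I) :
    ∃ M, ∀ z ∈ I, ∀ l : List (ℕ × A), MonL X l → M ≤ wt l → act z l = 0 := by
  classical
  set S : Finset (ℕ × A) := (Mon.finite_lt hX N).toFinset with hS
  set M := (S.card + 1) * N + 1 with hM
  refine ⟨M, ?_⟩
  have main : ∀ k : ℕ, ∀ z ∈ I, ∀ l : List (ℕ × A), l.length ≤ k → MonL X l → M ≤ wt l →
      act z l = 0 := by
    intro k
    induction k with
    | zero =>
      intro z hz l hl _ hw
      have : l = [] := List.length_eq_zero_iff.mp (by omega)
      subst this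
      simp [wt, hM] at hw
    | succ k ih =>
      intro z hz l hl hm hw
      rcases Nat.lt_or_ge l.length (k + 1) with hlt | hge
      · exact ih z hz l (by omega) hm hw
      have hlen : l.length = k + 1 := le_antisymm hl hge
      by_cases hbig : ∃ p ∈ l, N ≤ p.1
      · obtain ⟨p, hp, hpN⟩ := hbig
        exact act_zero_of_mem hI hII hz l ⟨p, hp, hN _ hpN _ (hm p hp)⟩
      push Not at hbig
      have hlS : ∀ p ∈ l, p ∈ S := by
        intro p hp
        rw [hS, Set.Finite.mem_toFinset]
        exact ⟨hbig p hp, hm p hp⟩
      -- the length is large
      have hwl : ∀ l' : List (ℕ × A), (∀ p ∈ l', p.1 < N) → wt l' ≤ l'.length * N := by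
        intro l'
        induction l' with
        | nil => intro _; simp [wt]
        | cons p l' ih' =>
          intro h
          rw [wt_cons, List.length_cons]
          have h1 := h p (by simp)
          have h2 := ih' (fun q hq => h q (by simp [hq]))
          nlinarith
      have hkN : M ≤ (k + 1) * N := by
        have := hwl l hbig
        rw [hlen] at this
        omega
      have hk : S.card + 1 < k + 1 := by
        by_contra hcon
        push Not at hcon
        have : (k + 1) * N ≤ (S.card + 1) * N := Nat.mul_le_mul_right N hcon
        omega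
      match l, hlen, hm, hw, hlS with
      | [], hlen, _, _, _ => simp at hlen
      | b :: t, hlen, hm, hw, hlS =>
        have htl : t.length = k := by simpa using hlen
        have hdup : ¬ t.Nodup := by
          intro hnd
          have h1 : t.toFinset ⊆ S := by
            intro p hp
            exact hlS p (by simp at hp; simp [hp])
          have h2 := Finset.card_le_card h1
          rw [List.toFinset_card_of_nodup hnd, htl] at h2
          omega
        obtain ⟨a, ha⟩ := List.exists_duplicate_iff_not_nodup.mpr hdup
        have hsub := List.duplicate_iff_sublist.mp ha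
        obtain ⟨t', ht'⟩ := hsub.exists_perm_append
        have hp : t.Perm (a :: a :: t') := by simpa using ht'
        have hiff := perm_act hI hR ih hp z hz [] b (by simpa using hlen) (by simpa using hm)
          (by simpa using hw)
        simp only [List.nil_append] at hiff
        rw [hiff]
        simp only [act_cons]
        have hrel := hR z hz b.2 a.2
        rw [hrel]
        have hb : Mon X b.1 b.2 := hm b (by simp)
        have hat : a ∈ t := hp.mem_iff.mpr (by simp)
        have hamon : Mon X a.1 a.2 := hm a (by simp [hat])
        have ht'm : ∀ q ∈ t', Mon X q.1 q.2 := by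
          intro q hq
          exact hm q (by simp [hp.mem_iff.mpr (show q ∈ a :: a :: t' by simp [hq])])
        have hlt' : t'.length + 2 = k := by
          have := hp.length_eq
          simp at this
          omega
        have hwt : wt t = a.1 + (a.1 + wt t') := by
          have : wt t = wt (a :: a :: t') := by
            unfold wt
            exact (hp.map _).sum_eq
          rw [this, wt_cons, wt_cons]
        rw [wt_cons] at hw
        have e1 : act ((z * (b.2 * a.2)) * a.2) t' = 0 := by
          have := ih z hz ((b.1 + a.1, b.2 * a.2) :: a :: t')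
            (by simp only [List.length_cons]; omega) ?_ (by simp only [wt_cons]; omega)
          · simpa only [act_cons] using this
          · intro q hq
            simp only [List.mem_cons] at hq
            rcases hq with rfl | rfl | hq
            · exact hb.mul hamon
            · exact hamon
            · exact ht'm q hq
        have e2 : act (z * ((b.2 * a.2) * a.2)) t' = 0 := by
          have := ih z hz ((b.1 + a.1 + a.1, (b.2 * a.2) * a.2) :: t')
            (by simp only [List.length_cons]; omega) ?_ (by simp only [wt_cons]; omega)
          · simpa only [act_cons] using this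
          · intro q hq
            simp only [List.mem_cons] at hq
            rcases hq with rfl | hq
            · exact (hb.mul hamon).mul hamon
            · exact ht'm q hq
        rw [sub_eq_add_neg, act_add, act_neg, act_neg, e1, e2]
        simp
  intro z hz l hm hw
  exact main l.length z hz l le_rfl hm hw

/-- Decomposition of a long monomial. -/
theorem mon_decomp (anti : ∀ x y : A, x * y = -(y * x)) {X : Set A} {N : ℕ} (hN1 : 1 ≤ N) :
    ∀ (K : ℕ), N ≤ K → ∀ w : A, Mon X K w → ∃ (n : ℕ) (u : A) (l : List (ℕ × A)),
      N ≤ n ∧ n < 2 * N ∧ Mon X n u ∧ MonL X l ∧ n + wt l = K ∧ (w = act u l ∨ w = - act u l) := by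
  intro K
  induction K using Nat.strong_induction_on with
  | _ K ih =>
    intro hK w hw
    rcases Nat.lt_or_ge K (2 * N) with hlt | hge
    · exact ⟨K, w, [], hK, hlt, hw, by intro p hp; simp at hp, by simp [wt],
        Or.inl (act_nil w).symm⟩
    · rcases hw.cases' with ⟨h1, _⟩ | ⟨i, j, x, y, hi, hj, hij, hx, hy, rfl⟩
      · omega
      · rcases Nat.lt_or_ge i N with hiN | hiN
        · -- j ≥ N
          obtain ⟨n, u, l, hn1, hn2, hu, hl, hwl, hyl⟩ := ih j (by omega) (by omega) y hy
          refine ⟨n, u, l ++ [(i, x)], hn1, hn2, hu, ?_, ?_, ?_⟩
          · intro p hp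
            simp only [List.mem_append, List.mem_singleton] at hp
            rcases hp with hp | rfl
            · exact hl p hp
            · exact hx
          · rw [wt_append]; simp only [wt_cons]; simp [wt] at hwl ⊢; omega
          · rw [act_append, act_cons, act_nil, anti x y]
            rcases hyl with h | h
            · right; rw [h]
            · left; rw [h]; simp
        · obtain ⟨n, u, l, hn1, hn2, hu, hl, hwl, hxl⟩ := ih i (by omega) hiN x hx
          refine ⟨n, u, l ++ [(j, y)], hn1, hn2, hu, ?_, ?_, ?_⟩
          · intro p hp
            simp only [List.mem_append, List.mem_singleton] at hp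
            rcases hp with hp | rfl
            · exact hl p hp
            · exact hy
          · rw [wt_append]; simp only [wt_cons]; simp [wt] at hwl ⊢; omega
          · rw [act_append, act_cons, act_nil]
            rcases hxl with h | h
            · left; rw [h]
            · right; rw [h]; simp

/-- **Extension lemma.** -/
theorem extension (anti : ∀ x y : A, x * y = -(y * x)) {X : Set A} (hX : X.Finite)
    {I : AddSubgroup A} (hI : IsId I) (hR : RelOn I)
    (hII : ∀ x ∈ I, ∀ y ∈ I, x * y = 0)
    (hN : ∃ N, ∀ n, N ≤ n → ∀ w, Mon X n w → w ∈ I) :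
    ∃ K, ∀ n, K ≤ n → ∀ w, Mon X n w → w = 0 := by
  obtain ⟨N0, hN0⟩ := hN
  set N := N0 + 1 with hNdef
  have hN : ∀ n, N ≤ n → ∀ w, Mon X n w → w ∈ I := fun n hn => hN0 n (by omega)
  obtain ⟨M, hM⟩ := words_zero hX hI hR hII hN
  refine ⟨M + 2 * N, ?_⟩
  intro n hn w hw
  obtain ⟨m, u, l, h1, h2, hu, hl, hwl, hor⟩ := mon_decomp (N := N) anti (by omega) n (by omega) w hw
  have hz := hM u (hN m h1 u hu) l hl (by omega)
  rcases hor with h | h <;> rw [h, hz]
  simp

end ring

end Pool.Agent.H66.Eng2
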