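import Pool.Agent.H66.Eng2.Closed

set_option autoImplicit false

/-!
# Reduction in characteristic two: assembly (MP_1664c7_al)
-/

universe u v

namespace Pool.Agent.H66.Eng2

open Pool.Agent.H66.Eng Pool.Agent.H86.Eng2

section gr

variable {F : Type u} [Field F] {B : Type v} [NonUnitalNonAssocRing B] [Module F B]
  [IsScalarTower F B B] [SMulCommClass F B B]

/-- Homogeneous elements: `w t^k`, where `P k w`. -/
def Hom (P : ℕ → B → Prop) : Set (PS B) := {f | ∃ k w, P k w ∧ f = sing k w}

omit [IsScalarTower F B B] [SMulCommClass F B B] in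
theorem hom_mulId (hB : E2 B) (P : ℕ → B → Prop) : MulId (Hom P) where
  two := by
    intro f
    funext k
    exact hB.two (f k)
  sq := by
    rintro a ⟨i, a, _, rfl⟩
    rw [sing_mul_sing, hB.sq, sing_zero]
  comm := by
    rintro a ⟨i, a, _, rfl⟩ b ⟨j, b, _, rfl⟩
    rw [sing_mul_sing, sing_mul_sing, add_comm j i, ← sing_add, hB.comm a b, hB.two, sing_zero]
  eng := by
    rintro x ⟨i, x, _, rfl⟩ a ⟨j, a, _, rfl⟩
    rw [sing_mul_sing, sing_mul_sing, sing_mul_sing, hB.eng, sing_zero]
  lin := by
    rintro x ⟨i, x, _, rfl⟩ a ⟨j, a, _, rfl⟩ w ⟨k, w, _, rfl⟩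
    simp only [sing_mul_sing]
    have e1 : i + j + k + j = i + j + j + k := by omega
    have e2 : i + k + j + j = i + j + j + k := by omega
    rw [e1, e2, ← sing_add, ← sing_add, hB.lin, sing_zero]
  full := by
    rintro x ⟨i, x, _, rfl⟩ p ⟨j, p, _, rfl⟩ q ⟨k, q, _, rfl⟩ r ⟨l, r, _, rfl⟩
    simp only [sing_mul_sing]
    have e1 : i + j + l + k = i + j + k + l := by omega
    have e2 : i + k + j + l = i + j + k + l := by omega
    have e3 : i + k + l + j = i + j + k + l := by omega
    have e4 : i + l + j + k = i + j + k + l := by omega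
    have e5 : i + l + k + j = i + j + k + l := by omega
    rw [e1, e2, e3, e4, e5, ← sing_add, ← sing_add, ← sing_add, ← sing_add, ← sing_add,
      hB.full, sing_zero]

/-- The span of homogeneous elements is closed under products. -/
theorem hom_span_mul {P : ℕ → B → Prop}
    (hP : ∀ i a j b, P i a → P j b → P (i + j) (a * b)) :
    ∀ f ∈ Submodule.span F (Hom P), ∀ g ∈ Submodule.span F (Hom P),
      f * g ∈ Submodule.span F (Hom P) := by
  refine span_mul_mem ?_
  rintro f ⟨i, a, ha, rfl⟩ g ⟨j, b, hb, rfl⟩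
  rw [sing_mul_sing]
  exact Submodule.subset_span ⟨i + j, a * b, hP i a j b ha hb, rfl⟩

theorem adjoin_le_hom {P : ℕ → B → Prop}
    (hP : ∀ i a j b, P i a → P j b → P (i + j) (a * b)) {Z : Set (PS B)} (hZ : Z ⊆ Hom P) :
    ∀ f ∈ NonUnitalAlgebra.adjoin F Z, f ∈ Submodule.span F (Hom P) := by
  intro f hf
  induction hf using NonUnitalAlgebra.adjoin_induction with
  | mem x hx => exact Submodule.subset_span (hZ hx)
  | add x y _ _ h1 h2 => exact Submodule.add_mem _ h1 h2
  | zero => exact Submodule.zero_mem _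
  | mul x y _ _ h1 h2 => exact hom_span_mul hP x h1 y h2
  | smul r x _ h1 => exact Submodule.smul_mem _ r h1

/-- Generators of an adjoined subalgebra, as elements of the subalgebra. -/
def gens (F : Type u) [Field F] {R : Type v} [NonUnitalNonAssocRing R] [Module F R]
    [IsScalarTower F R R] [SMulCommClass F R R] (Z : Set R) :
    Set (NonUnitalAlgebra.adjoin F Z) := {f | (f : R) ∈ Z}

theorem gens_top {R : Type v} [NonUnitalNonAssocRing R] [Module F R]
    [IsScalarTower F R R] [SMulCommClass F R R] (Z : Set R) :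
    mspan F (gens F Z) 1 = ⊤ := by
  rw [eq_top_iff]
  rintro ⟨f, hf⟩ -
  induction hf using NonUnitalAlgebra.adjoin_induction with
  | mem x hx =>
    exact Submodule.subset_span ⟨1, le_rfl, Mon.gen (show _ ∈ gens F Z from hx)⟩
  | add x y hx hy h1 h2 => exact Submodule.add_mem _ h1 h2
  | zero => exact Submodule.zero_mem _
  | mul x y hx hy h1 h2 =>
    have := mspan_mul h1 h2
    exact mspan_anti (by omega) this
  | smul r x hx h1 => exact Submodule.smul_mem _ r h1

theorem gens_finite {R : Type v} [NonUnitalNonAssocRing R] [Module F R]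
    [IsScalarTower F R R] [SMulCommClass F R R] {Z : Set R} (hZ : Z.Finite) :
    (gens F Z).Finite :=
  hZ.preimage (Subtype.val_injective.injOn)

end gr

section jn

variable {F : Type u} [Field F] {B : Type v} [NonUnitalNonAssocRing B] [Module F B]
  [IsScalarTower F B B] [SMulCommClass F B B]

/-- Just non-nilpotent algebras in the sense of closed ideals. -/
structure JN (F : Type u) [Field F] {B : Type v} [NonUnitalNonAssocRing B] [Module F B]
    (X : Set B) : Prop where
  e2 : E2 B
  fin : X.Finite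
  gen : mspan F X 1 = ⊤
  res : ⨅ n, mspan F X n = ⊥
  non : ¬ NilMod X (⊥ : Submodule F B)
  max : ∀ J : Submodule F B, SId J → J ≠ ⊥ → NilMod X (Cl X J)

omit [IsScalarTower F B B] [SMulCommClass F B B] in
theorem Cl_bot {X : Set B} (h : ⨅ n, mspan F X n = ⊥) : Cl X (⊥ : Submodule F B) = ⊥ := by
  unfold Cl
  simp only [bot_sup_eq]
  exact h

omit [IsScalarTower F B B] [SMulCommClass F B B] in
theorem bot_ideal : SId (⊥ : Submodule F B) := by
  intro x hx y
  have : x = 0 := by simpa using hx
  subst this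
  simp

theorem JN.semi {X : Set B} (h : JN F X) : Semi F B := by
  intro J hJ hJJ
  by_contra hne
  apply h.non
  refine ext_rel h.e2 h.fin (Cl_ideal h.gen hJ) bot_ideal ?_ (h.max J hJ hne)
  intro x hx y hy
  rw [← Cl_bot h.res]
  refine Cl_mul h.gen ?_ hx hy
  intro a ha b hb
  simpa using hJJ a ha b hb

theorem desc (hs : Semi F B) {c : B} : ∀ n, cspan F c n = ⊥ → c = 0 := by
  intro n
  induction n using Nat.strong_induction_on with
  | _ n ih =>
    intro h
    rcases Nat.lt_or_ge n 2 with h1 | h1
    · have hc : c ∈ cspan F c n := by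
        have : c ∈ cspan F c 1 := Submodule.subset_span CP.gen
        exact cspan_anti (by omega) this
      rw [h] at hc
      simpa using hc
    · refine ih ((n + 1) / 2) (by omega) ?_
      refine hs _ (cspan_ideal c _) ?_
      intro x hx y hy
      have h2 := cspan_anti (show n ≤ (n + 1) / 2 + (n + 1) / 2 by omega) (cspan_mul hx hy)
      rw [h] at h2
      simpa using h2

/-- The key step: no thick sandwiches. -/
theorem JN.thick_zero (hN : ThmNProp.{u, v} F)
    {X : Set B} (h : JN F X) {c : B} (hc : Thick2 c) : c = 0 := by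
  by_contra hc0
  have hJ1 : cspan F c 1 ≠ ⊥ := by
    intro hb
    have : c ∈ cspan F c 1 := Submodule.subset_span CP.gen
    rw [hb] at this
    exact hc0 (by simpa using this)
  obtain ⟨n0, hn0⟩ := h.max _ (cspan_ideal c 1) hJ1
  -- the associated graded algebra
  set Z : Set (PS B) := insert (sing 1 c) (sing 0 '' X) with hZ
  set P : ℕ → B → Prop := fun k w => CP c k w with hP
  have hPm : ∀ i a j b, P i a → P j b → P (i + j) (a * b) := fun _ _ _ _ ha hb => CP.mul ha hb
  have hZP : Z ⊆ Hom P := by
    intro f hf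
    rcases Set.mem_insert_iff.mp hf with rfl | ⟨x, _, rfl⟩
    · exact ⟨1, c, CP.gen, rfl⟩
    · exact ⟨0, x, CP.elt x, rfl⟩
  have hle := adjoin_le_hom (F := F) hPm hZP
  have hR : E2 (NonUnitalAlgebra.adjoin F Z) := (hom_mulId h.e2 P).e2 (F := F) _ hle
  have hcoef : ∀ f ∈ Submodule.span F (Hom P), ∀ k, f k ∈ cspan F c k := by
    intro f hf k
    induction hf using Submodule.span_induction with
    | mem f hf =>
      obtain ⟨i, w, hw, rfl⟩ := hf
      by_cases hk : k = i
      · subst hk
        rw [sing_same]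
        exact Submodule.subset_span hw
      · rw [sing_ne _ hk]
        exact Submodule.zero_mem _
    | zero => exact Submodule.zero_mem _
    | add f g _ _ h1 h2 => exact Submodule.add_mem _ h1 h2
    | smul r f _ h1 => exact Submodule.smul_mem _ r h1
  -- the ideal
  let I : Submodule F (NonUnitalAlgebra.adjoin F Z) :=
    { carrier := {f | ∀ k, (f : PS B) k ∈ Cl X (cspan F c (k + 1))}
      zero_mem' := fun k => Submodule.zero_mem _
      add_mem' := fun {f g} hf hg k => Submodule.add_mem _ (hf k) (hg k)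
      smul_mem' := fun r f hf k => Submodule.smul_mem _ r (hf k) }
  have hImem : ∀ f : NonUnitalAlgebra.adjoin F Z,
      f ∈ I ↔ ∀ k, (f : PS B) k ∈ Cl X (cspan F c (k + 1)) := fun f => Iff.rfl
  have hI : SId I := by
    intro f hf g
    rw [hImem] at hf
    have hg : ∀ k, (g : PS B) k ∈ Cl X (cspan F c k) :=
      fun k => le_Cl X _ (hcoef g (hle g g.2) k)
    constructor
    · rw [hImem]
      intro k
      change ((f : PS B) * (g : PS B)) k ∈ _
      rw [ps_mul]
      refine Submodule.sum_mem _ ?_
      rintro ⟨i, j⟩ hij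
      have hij' : i + j = k := by simpa using hij
      have := Cl_mul h.gen (fun a ha b hb => cspan_mul ha hb) (hf i) (hg j)
      have e : i + 1 + j = k + 1 := by omega
      rwa [e] at this
    · rw [hImem]
      intro k
      change ((g : PS B) * (f : PS B)) k ∈ _
      rw [ps_mul]
      refine Submodule.sum_mem _ ?_
      rintro ⟨i, j⟩ hij
      have hij' : i + j = k := by simpa using hij
      have := Cl_mul h.gen (fun a ha b hb => cspan_mul ha hb) (hg i) (hf j)
      have e : i + (j + 1) = k + 1 := by omega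
      rwa [e] at this
  have hG := e2_quo hR hI
  set q := qmk hI with hq
  -- generators
  have hcZ : sing 1 c ∈ NonUnitalAlgebra.adjoin F Z :=
    NonUnitalAlgebra.subset_adjoin F (Set.mem_insert _ _)
  set c' : NonUnitalAlgebra.adjoin F Z := ⟨sing 1 c, hcZ⟩ with hc'
  set Y' : Set (NonUnitalAlgebra.adjoin F Z) := {f | (f : PS B) ∈ sing 0 '' X} with hY'
  have hY'fin : Y'.Finite := (h.fin.image _).preimage (Subtype.val_injective.injOn)
  have hins : insert c' Y' = gens F Z := by
    ext f
    constructor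
    · intro hf
      rcases Set.mem_insert_iff.mp hf with rfl | hf
      · exact Set.mem_insert _ _
      · exact Set.mem_insert_of_mem _ hf
    · intro hf
      rcases Set.mem_insert_iff.mp (show (f : PS B) ∈ insert (sing 1 c) (sing 0 '' X) from hf)
        with hf | hf
      · exact Set.mem_insert_iff.mpr (Or.inl (Subtype.ext hf))
      · exact Set.mem_insert_of_mem _ hf
  have hgen' : mspan F (insert c' Y') 1 = ⊤ := by rw [hins]; exact gens_top Z
  have hc'thick : Thick2 c' := by
    have ht := ps_thick hc 1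
    exact ⟨fun x => Subtype.ext (ht.cc x), fun x y => Subtype.ext (ht.cxc x y),
      fun x y => Subtype.ext (ht.th x y)⟩
  have him : (q '' (insert c' Y')) = insert (q c') (q '' Y') := Set.image_insert_eq
  have hgenG : mspan F (insert (q c') (q '' Y')) 1 = ⊤ := by
    rw [eq_top_iff]
    intro b _
    obtain ⟨a, rfl⟩ := qmk_surj hI b
    have ha : a ∈ mspan F (insert c' Y') 1 := by rw [hgen']; trivial
    have h1 : q a ∈ (mspan F (insert c' Y') 1).map q := ⟨a, ha, rfl⟩
    have h2 : (mspan F (insert c' Y') 1).map q ≤ mspan F (q '' (insert c' Y')) 1 := by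
      unfold mspan
      rw [Submodule.map_span]
      refine Submodule.span_le.mpr ?_
      rintro b ⟨a, ⟨m, hm, ha⟩, rfl⟩
      exact Submodule.subset_span ⟨m, hm, Mon.map q (qmk_mul hI) ha⟩
    rw [← him]
    exact h2 h1
  have hmonY : ∀ n f, Mon Y' n f → ∃ w, Mon X n w ∧ (f : PS B) = sing 0 w := by
    intro n f hf
    induction hf with
    | gen hx =>
      obtain ⟨x, hx, hxe⟩ := hx
      exact ⟨x, Mon.gen hx, hxe.symm⟩
    | mul _ _ h1 h2 =>
      obtain ⟨a, ha, hae⟩ := h1
      obtain ⟨b, hb, hbe⟩ := h2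
      refine ⟨a * b, ha.mul hb, ?_⟩
      rename_i y z _ _
      change ((y : PS B) * (z : PS B)) = _
      rw [hae, hbe, sing_mul_sing]
  have hnilG : ∃ n0, ∀ n, n0 ≤ n → ∀ w, Mon (q '' Y') n w → w = 0 := by
    refine ⟨n0, ?_⟩
    intro n hn w hw
    obtain ⟨f, hf, rfl⟩ := Mon.lift q (qmk_mul hI) hw
    rw [hq, qmk_eq_zero, hImem]
    intro k
    obtain ⟨w, hw, hfe⟩ := hmonY n f hf
    rw [hfe]
    by_cases hk : k = 0
    · subst hk
      rw [sing_same]
      exact hn0 n hn w hw
    · rw [sing_ne _ hk]
      exact Submodule.zero_mem _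
  obtain ⟨K, hK⟩ := hN (Quo I hI) hG (q '' Y') (hY'fin.image q) (q c')
    (thick_quo hc'thick hI) hgenG hnilG
  -- J_k is contained in the closure of J_{k+1}
  have hstep : ∀ k, K ≤ k → cspan F c k ≤ Cl X (cspan F c (k + 1)) := by
    intro k hk
    refine Submodule.span_le.mpr ?_
    intro z hz
    have hmem := cp_expand (F := F) (T := {w : B | ∃ m, 1 ≤ m ∧ Mon X m w}) h.gen hz
    refine Submodule.span_le.mpr ?_ hmem
    intro w hw
    have htm : ∀ k w, TM {w : B | ∃ m, 1 ≤ m ∧ Mon X m w} c k w →
        ∃ n f, k ≤ n ∧ Mon (insert c' Y') n f ∧ (f : PS B) = sing k w := by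
      intro k w hw
      induction hw with
      | leaf a ha =>
        obtain ⟨m, _, ha⟩ := ha
        have hmon : ∀ m a, Mon X m a → ∃ f, Mon (insert c' Y') m f ∧ (f : PS B) = sing 0 a := by
          intro m a ha
          induction ha with
          | gen hx =>
            rename_i x
            have hxZ : sing 0 x ∈ NonUnitalAlgebra.adjoin F Z :=
              NonUnitalAlgebra.subset_adjoin F (Set.mem_insert_of_mem _ ⟨x, hx, rfl⟩)
            exact ⟨⟨sing 0 x, hxZ⟩, Mon.gen (Set.mem_insert_of_mem _ ⟨x, hx, rfl⟩), rfl⟩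
          | mul _ _ h1 h2 =>
            obtain ⟨f, hf, hfe⟩ := h1
            obtain ⟨g, hg, hge⟩ := h2
            refine ⟨f * g, hf.mul hg, ?_⟩
            change ((f : PS B) * (g : PS B)) = _
            rw [hfe, hge, sing_mul_sing]
        obtain ⟨f, hf, hfe⟩ := hmon m a ha
        exact ⟨m, f, Nat.zero_le _, hf, hfe⟩
      | gen => exact ⟨1, c', le_rfl, Mon.gen (Set.mem_insert _ _), rfl⟩
      | mul _ _ h1 h2 =>
        obtain ⟨n1, f, hn1, hf, hfe⟩ := h1
        obtain ⟨n2, g, hn2, hg, hge⟩ := h2
        refine ⟨n1 + n2, f * g, by omega, hf.mul hg, ?_⟩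
        change ((f : PS B) * (g : PS B)) = _
        rw [hfe, hge, sing_mul_sing]
    obtain ⟨n, f, hkn, hf, hfe⟩ := htm k w hw
    have hzero : q f = 0 := by
      apply hK n (by omega)
      rw [← him]
      exact Mon.map q (qmk_mul hI) hf
    rw [hq, qmk_eq_zero, hImem] at hzero
    have := hzero k
    rwa [hfe, sing_same] at this
  -- hence J_K = 0
  have hall : ∀ n, cspan F c K ≤ Cl X (cspan F c (K + n)) := by
    intro n
    induction n with
    | zero => exact le_Cl X _
    | succ n ih =>
      refine ih.trans ?_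
      refine (Cl_mono (hstep (K + n) (by omega))).trans ?_
      exact Cl_Cl X _
  have hpw : ∀ n, cspan F c n ≤ mspan F X n := by
    intro n
    refine Submodule.span_le.mpr ?_
    intro z hz
    induction hz with
    | elt x =>
      have : x ∈ mspan F X 1 := by rw [h.gen]; trivial
      exact mspan_anti (by omega) this
    | gen =>
      change c ∈ mspan F X 1
      rw [h.gen]
      trivial
    | mul _ _ h1 h2 => exact mspan_mul h1 h2
  have hbot : cspan F c K = ⊥ := by
    rw [eq_bot_iff, ← h.res]
    refine le_iInf ?_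
    intro n
    refine (hall n).trans ?_
    intro x hx
    have := (mem_Cl.mp hx) n
    refine (sup_le ((hpw (K + n)).trans (mspan_anti (by omega))) le_rfl) this
  exact hc0 (desc h.semi K hbot)

/-- No just non-nilpotent algebras. -/
theorem JN.false (hN : ThmNProp.{u, v} F)
    (hI : ∀ (G : Type v) [NonUnitalNonAssocRing G], E2 G →
      ∀ c : G, (∀ u : G, (u * c) * c = 0) → ∀ x y : G, Thick2 ((x * c) * (y * c)))
    (hII : ∀ (G : Type v) [NonUnitalNonAssocRing G] [Module F G]
      [IsScalarTower F G G] [SMulCommClass F G G], E2 G →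
      (∀ c : G, (∀ u : G, (u * c) * c = 0) → c = 0) → ∀ a : G, a = 0)
    {X : Set B} (h : JN F X) : False := by
  apply h.non
  have htriv : ∀ a : B, a = 0 := by
    refine hII B h.e2 ?_
    intro c hc
    refine h.thick_zero hN (thick2_of h.e2 hc ?_)
    intro x y
    exact h.thick_zero hN (hI B h.e2 c hc x y)
  refine ⟨0, ?_⟩
  intro n _ w _
  rw [htriv w]
  exact Submodule.zero_mem _

end jn

section main

variable {F : Type u} [Field F] {A : Type v} [NonUnitalNonAssocRing A] [Module F A]
  [IsScalarTower F A A] [SMulCommClass F A A]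

/-- Residually nilpotent case. -/
theorem residual_case (hN : ThmNProp.{u, v} F)
    (hI : ∀ (G : Type v) [NonUnitalNonAssocRing G], E2 G →
      ∀ c : G, (∀ u : G, (u * c) * c = 0) → ∀ x y : G, Thick2 ((x * c) * (y * c)))
    (hII : ∀ (G : Type v) [NonUnitalNonAssocRing G] [Module F G]
      [IsScalarTower F G G] [SMulCommClass F G G], E2 G →
      (∀ c : G, (∀ u : G, (u * c) * c = 0) → c = 0) → ∀ a : G, a = 0)
    (hA : E2 A) {X : Set A} (hX : X.Finite) (hgen : mspan F X 1 = ⊤)
    (hres : ⨅ n, mspan F X n = ⊥) : NilMod X (⊥ : Submodule F A) := by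
  by_contra hnon
  obtain ⟨I, hIid, hIcl, hIn, hmax⟩ := exists_max_closed hX hgen bot_ideal
    (by rw [Cl_bot hres]) hnon
  set q := qmk hIid with hq
  have hmapspan : ∀ n, (mspan F X n).map q = mspan F (q '' X) n := by
    intro n
    unfold mspan
    rw [Submodule.map_span]
    congr 1
    ext b
    constructor
    · rintro ⟨a, ⟨m, hm, ha⟩, rfl⟩
      exact ⟨m, hm, Mon.map q (qmk_mul hIid) ha⟩
    · rintro ⟨m, hm, hb⟩
      obtain ⟨a, ha, rfl⟩ := Mon.lift q (qmk_mul hIid) hb
      exact ⟨a, ⟨m, hm, ha⟩, rfl⟩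
  have hJN : JN F (q '' X) := by
    refine ⟨e2_quo hA hIid, hX.image q, ?_, ?_, ?_, ?_⟩
    · rw [← hmapspan, hgen, Submodule.map_top, LinearMap.range_eq_top]
      exact qmk_surj hIid
    · rw [eq_bot_iff]
      intro z hz
      obtain ⟨a, rfl⟩ := qmk_surj hIid z
      rw [Submodule.mem_iInf] at hz
      have ha : a ∈ I := by
        apply hIcl
        rw [mem_Cl]
        intro n
        have h1 := hz n
        rw [← hmapspan] at h1
        obtain ⟨b, hb, hbe⟩ := h1
        have h2 : a - b ∈ I := by
          rw [← qmk_eq hIid]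
          exact hbe.symm
        have e : a = (a - b) + b := by abel
        rw [e]
        exact Submodule.add_mem_sup h2 hb
      simpa using (qmk_eq_zero hIid a).mpr ha
    · rintro ⟨K, hK⟩
      apply hIn
      refine ⟨K, ?_⟩
      intro n hn w hw
      rw [← qmk_eq_zero hIid]
      simpa using hK n hn _ (Mon.map q (qmk_mul hIid) hw)
    · intro J hJ hJne
      have hgenQ : mspan F (q '' X) 1 = ⊤ := by
        rw [← hmapspan, hgen, Submodule.map_top, LinearMap.range_eq_top]
        exact qmk_surj hIid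
      set J' := (Cl (q '' X) J).comap q with hJ'
      have hJ'id : SId J' := comap_ideal hIid (Cl_ideal hgenQ hJ)
      have hIJ : I ≤ J' := by
        intro x hx
        rw [hJ', Submodule.mem_comap, hq, (qmk_eq_zero hIid x).mpr hx]
        exact Submodule.zero_mem _
      have hJ'cl : Cl X J' ≤ J' := by
        intro x hx
        rw [hJ', Submodule.mem_comap]
        apply Cl_Cl
        rw [mem_Cl]
        intro n
        have h1 := (mem_Cl.mp hx) n
        obtain ⟨a, ha, b, hb, rfl⟩ := Submodule.mem_sup.mp h1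
        rw [map_add]
        refine Submodule.add_mem_sup ha ?_
        rw [← hmapspan]
        exact ⟨b, hb, rfl⟩
      have hnil : NilMod X J' := by
        by_contra hnn
        have heq := hmax J' hJ'id hJ'cl hIJ hnn
        apply hJne
        rw [eq_bot_iff]
        intro y hy
        obtain ⟨y, rfl⟩ := qmk_surj hIid y
        have : y ∈ J' := le_Cl _ _ hy
        rw [heq] at this
        simpa using (qmk_eq_zero hIid y).mpr this
      obtain ⟨K, hK⟩ := hnil
      refine ⟨K, ?_⟩
      intro n hn w hw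
      obtain ⟨a, ha, rfl⟩ := Mon.lift q (qmk_mul hIid) hw
      exact hK n hn a ha
  exact hJN.false hN hI hII

/-- **Main reduction in characteristic two.** -/
theorem main2N (hN : ThmNProp.{u, v} F)
    (hI : ∀ (G : Type v) [NonUnitalNonAssocRing G], E2 G →
      ∀ c : G, (∀ u : G, (u * c) * c = 0) → ∀ x y : G, Thick2 ((x * c) * (y * c)))
    (hII : ∀ (G : Type v) [NonUnitalNonAssocRing G] [Module F G]
      [IsScalarTower F G G] [SMulCommClass F G G], E2 G →
      (∀ c : G, (∀ u : G, (u * c) * c = 0) → c = 0) → ∀ a : G, a = 0)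
    (hA : E2 A) {X : Set A} (hX : X.Finite) : ∃ K, ∀ n, K ≤ n → ∀ w, Mon X n w → w = 0 := by
  set Z : Set (PS A) := sing 1 '' X with hZ
  set P : ℕ → A → Prop := fun k w => Mon X k w with hP
  have hPm : ∀ i a j b, P i a → P j b → P (i + j) (a * b) := fun _ _ _ _ ha hb => Mon.mul ha hb
  have hZP : Z ⊆ Hom P := by
    rintro f ⟨x, hx, rfl⟩
    exact ⟨1, x, Mon.gen hx, rfl⟩
  have hle := adjoin_le_hom (F := F) hPm hZP
  have hR : E2 (NonUnitalAlgebra.adjoin F Z) := (hom_mulId hA P).e2 (F := F) _ hle
  have hfin : (gens F Z).Finite := gens_finite (hX.image _)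
  have hmon : ∀ n f, Mon (gens F Z) n f → ∃ w, Mon X n w ∧ (f : PS A) = sing n w := by
    intro n f hf
    induction hf with
    | gen hx =>
      obtain ⟨x, hx, hxe⟩ := hx
      exact ⟨x, Mon.gen hx, hxe.symm⟩
    | mul _ _ h1 h2 =>
      obtain ⟨a, ha, hae⟩ := h1
      obtain ⟨b, hb, hbe⟩ := h2
      refine ⟨a * b, ha.mul hb, ?_⟩
      rename_i y z _ _
      change ((y : PS A) * (z : PS A)) = _
      rw [hae, hbe, sing_mul_sing]
  have hres : ⨅ n, mspan F (gens F Z) n = ⊥ := by
    rw [eq_bot_iff]
    intro f hf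
    rw [Submodule.mem_iInf] at hf
    have hk : ∀ k, (f : PS A) k = 0 := by
      intro k
      have h1 := hf (k + 1)
      unfold mspan at h1
      clear hf
      induction h1 using Submodule.span_induction with
      | mem g hg =>
        obtain ⟨m, hm, hg⟩ := hg
        obtain ⟨w, _, hge⟩ := hmon m g hg
        rw [hge, sing_ne]
        omega
      | zero => rfl
      | add g g' _ _ h1 h2 =>
        change (g : PS A) k + (g' : PS A) k = 0
        rw [h1, h2, add_zero]
      | smul r g _ h1 =>
        change r • (g : PS A) k = 0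
        rw [h1, smul_zero]
    have : f = 0 := Subtype.ext (funext hk)
    simpa using this
  obtain ⟨K, hK⟩ := residual_case (F := F) hN hI hII hR hfin (gens_top Z) hres
  refine ⟨K, ?_⟩
  intro n hn w hw
  have hlift : ∀ n w, Mon X n w → ∃ f, Mon (gens F Z) n f ∧ (f : PS A) = sing n w := by
    intro n w hw
    induction hw with
    | gen hx =>
      rename_i x
      have hxZ : sing 1 x ∈ NonUnitalAlgebra.adjoin F Z :=
        NonUnitalAlgebra.subset_adjoin F ⟨x, hx, rfl⟩
      exact ⟨⟨sing 1 x, hxZ⟩, Mon.gen (show sing 1 x ∈ Z from ⟨x, hx, rfl⟩), rfl⟩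
    | mul _ _ h1 h2 =>
      obtain ⟨f, hf, hfe⟩ := h1
      obtain ⟨g, hg, hge⟩ := h2
      refine ⟨f * g, hf.mul hg, ?_⟩
      change ((f : PS A) * (g : PS A)) = _
      rw [hfe, hge, sing_mul_sing]
  obtain ⟨f, hf, hfe⟩ := hlift n w hw
  have h0 := hK n hn f hf
  have h1 : f = 0 := by simpa using h0
  have h2 : sing n w n = 0 := by
    rw [← hfe, h1]
    rfl
  rwa [sing_same] at h2

/-- The same, from the letter bound. -/
theorem main2 (hLB : ∀ (G : Type v) [NonUnitalNonAssocRing G] [Module F G]
      [IsScalarTower F G G] [SMulCommClass F G G], E2 G → LetterBound F G)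
    (hI : ∀ (G : Type v) [NonUnitalNonAssocRing G], E2 G →
      ∀ c : G, (∀ u : G, (u * c) * c = 0) → ∀ x y : G, Thick2 ((x * c) * (y * c)))
    (hII : ∀ (G : Type v) [NonUnitalNonAssocRing G] [Module F G]
      [IsScalarTower F G G] [SMulCommClass F G G], E2 G →
      (∀ c : G, (∀ u : G, (u * c) * c = 0) → c = 0) → ∀ a : G, a = 0)
    (hA : E2 A) {X : Set A} (hX : X.Finite) : ∃ K, ∀ n, K ≤ n → ∀ w, Mon X n w → w = 0 :=
  main2N (F := F) (thmNProp_of_LB hLB) hI hII hA hX

/-- From monomials in the generators to arbitrary products in the generated subalgebra. -/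
theorem nilpotent_of_mon {s : Set A} (h : ∃ K, ∀ n, K ≤ n → ∀ w, Mon s n w → w = 0) :
    IsNilpotentAlg (NonUnitalAlgebra.adjoin F s) := by
  obtain ⟨K, hK⟩ := h
  refine ⟨K + 1, by omega, ?_⟩
  have key : ∀ (n : ℕ) (z : NonUnitalAlgebra.adjoin F s), IsProduct n z →
      (z : A) ∈ mspan F s n := by
    intro n z hz
    induction hz with
    | single x => exact adjoin_le_mspan _ _ x.2
    | mul _ _ h1 h2 => exact mspan_mul h1 h2
  intro z hz
  have hmem := key _ z hz
  have hzero : mspan F s (K + 1) ≤ ⊥ := by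
    refine Submodule.span_le.mpr ?_
    rintro w ⟨m, hm, hw⟩
    simpa using hK m (by omega) w hw
  have := hzero hmem
  apply Subtype.ext
  simpa using this

end main

end Pool.Agent.H66.Eng2
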