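import Pool.Agent.H66.Eng2.Ext
import Pool.Agent.H66.Eng.Assembly
import Pool.Agent.H86.Eng2.Weight

set_option autoImplicit false

/-!
# Power series over nonassociative algebras, identities on spans (MP_1664c7_al)
-/

universe u v

namespace Pool.Agent.H66.Eng2

open Pool.Agent.H66.Eng Pool.Agent.H86.Eng2

/-- Formal power series with coefficients in a nonassociative algebra. -/
def PS (A : Type v) : Type v := ℕ → A

section PS

variable {F : Type u} [Field F] {A : Type v} [NonUnitalNonAssocRing A] [Module F A]
  [IsScalarTower F A A] [SMulCommClass F A A]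

instance : AddCommGroup (PS A) := inferInstanceAs (AddCommGroup (ℕ → A))
instance : Module F (PS A) := inferInstanceAs (Module F (ℕ → A))
instance : Mul (PS A) := ⟨fun f g n => ∑ p ∈ Finset.HasAntidiagonal.antidiagonal n, f p.1 * g p.2⟩

theorem ps_mul (f g : PS A) (n : ℕ) :
    (f * g) n = ∑ p ∈ Finset.HasAntidiagonal.antidiagonal n, f p.1 * g p.2 := rfl
theorem ps_add (f g : PS A) (n : ℕ) : (f + g) n = f n + g n := rfl
theorem ps_zero (n : ℕ) : (0 : PS A) n = 0 := rfl
theorem ps_smul (r : F) (f : PS A) (n : ℕ) : (r • f) n = r • f n := rfl

instance : NonUnitalNonAssocRing (PS A) :=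
  { (inferInstance : AddCommGroup (PS A)) with
    mul := (· * ·)
    left_distrib := by
      intro x y z
      funext n
      change (x * (y + z)) n = (x * y) n + (x * z) n
      simp only [ps_mul, ps_add, mul_add, Finset.sum_add_distrib]
    right_distrib := by
      intro x y z
      funext n
      change ((x + y) * z) n = (x * z) n + (y * z) n
      simp only [ps_mul, ps_add, add_mul, Finset.sum_add_distrib]
    zero_mul := by
      intro x
      funext n
      change ((0 : PS A) * x) n = 0
      simp only [ps_mul, ps_zero, zero_mul, Finset.sum_const_zero]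
    mul_zero := by
      intro x
      funext n
      change (x * (0 : PS A)) n = 0
      simp only [ps_mul, ps_zero, mul_zero, Finset.sum_const_zero] }

instance : IsScalarTower F (PS A) (PS A) :=
  ⟨fun r x y => by
    funext n
    change ((r • x) * y) n = r • (x * y) n
    simp only [ps_mul, ps_smul, smul_mul_assoc, Finset.smul_sum]⟩

instance : SMulCommClass F (PS A) (PS A) :=
  ⟨fun r x y => by
    funext n
    change r • (x * y) n = (x * (r • y)) n
    simp only [ps_mul, ps_smul, mul_smul_comm, Finset.smul_sum]⟩

/-- The monomial `a t^n`. -/
def sing (n : ℕ) (a : A) : PS A := fun k => if k = n then a else 0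

theorem sing_same (n : ℕ) (a : A) : sing n a n = a := by simp [sing]
theorem sing_ne {n k : ℕ} (a : A) (h : k ≠ n) : sing n a k = 0 := by simp [sing, h]

theorem sing_zero (n : ℕ) : sing n (0 : A) = 0 := by
  funext k
  change (if k = n then (0 : A) else 0) = 0
  simp

theorem sing_add (n : ℕ) (a b : A) : sing n (a + b) = sing n a + sing n b := by
  funext k
  change (if k = n then a + b else 0) = (if k = n then a else 0) + (if k = n then b else 0)
  split_ifs <;> simp

theorem sing_smul (n : ℕ) (r : F) (a : A) : sing n (r • a) = r • sing n a := by
  funext k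
  change (if k = n then r • a else 0) = r • (if k = n then a else 0)
  split_ifs <;> simp

theorem mul_sing_apply (f : PS A) (n : ℕ) (b : A) (k : ℕ) :
    (f * sing n b) k = if n ≤ k then f (k - n) * b else 0 := by
  rw [ps_mul]
  split_ifs with h
  · rw [Finset.sum_eq_single (k - n, n)]
    · rw [sing_same]
    · rintro ⟨i, j⟩ hp hne
      have hij : i + j = k := by simpa using hp
      have : j ≠ n := by
        rintro rfl
        apply hne
        ext
        · change i = k - j; omega
        · rfl
      rw [sing_ne _ this, mul_zero]
    · intro hn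
      exact absurd (by simp; omega) hn
  · apply Finset.sum_eq_zero
    rintro ⟨i, j⟩ hp
    have hij : i + j = k := by simpa using hp
    have : j ≠ n := by omega
    rw [sing_ne _ this, mul_zero]

theorem sing_mul_sing (m n : ℕ) (a b : A) : sing m a * sing n b = sing (m + n) (a * b) := by
  funext k
  rw [mul_sing_apply]
  change _ = if k = m + n then a * b else 0
  split_ifs with h1 h2 h2
  · have : k - n = m := by omega
    rw [this, sing_same]
  · rw [sing_ne, zero_mul]; omega
  · omega
  · rfl

theorem ps_thick {c : A} (hc : Thick2 c) (n : ℕ) : Thick2 (sing n c) where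
  cc := by
    intro f
    funext k
    rw [mul_sing_apply]
    split_ifs with h
    · rw [mul_sing_apply]
      split_ifs with h'
      · rw [hc.cc]; rfl
      · rw [zero_mul]; rfl
    · rfl
  cxc := by
    intro f g
    funext k
    rw [mul_sing_apply]
    split_ifs with h
    · rw [ps_mul, Finset.sum_mul]
      apply Finset.sum_eq_zero
      rintro ⟨i, j⟩ _
      rw [mul_sing_apply]
      split_ifs with h'
      · exact hc.cxc _ _
      · rw [zero_mul, zero_mul]
    · rfl
  th := by
    intro f g
    funext k
    rw [ps_mul]
    apply Finset.sum_eq_zero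
    rintro ⟨i, j⟩ _
    rw [mul_sing_apply, mul_sing_apply]
    split_ifs with h1 h2
    · exact hc.th _ _
    · rw [mul_zero]
    · rw [zero_mul]
    · rw [zero_mul]

end PS

section rel

variable {F : Type u} [Field F] {R : Type v} [NonUnitalNonAssocRing R] [Module F R]
  [IsScalarTower F R R] [SMulCommClass F R R]

/-- The identities hold on the set `S` in multilinear form. -/
structure MulId (S : Set R) : Prop where
  two : ∀ x : R, x + x = 0
  sq : ∀ a ∈ S, a * a = 0
  comm : ∀ a ∈ S, ∀ b ∈ S, a * b + b * a = 0
  eng : ∀ x ∈ S, ∀ a ∈ S, ((x * a) * a) * a = 0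
  lin : ∀ x ∈ S, ∀ a ∈ S, ∀ w ∈ S,
    ((x * a) * a) * w + ((x * a) * w) * a + ((x * w) * a) * a = 0
  full : ∀ x ∈ S, ∀ p ∈ S, ∀ q ∈ S, ∀ r ∈ S,
    ((x * p) * q) * r + ((x * p) * r) * q + ((x * q) * p) * r + ((x * q) * r) * p
      + ((x * r) * p) * q + ((x * r) * q) * p = 0

theorem MulId.comm' {S : Set R} (h : MulId S) :
    ∀ a ∈ Submodule.span F S, ∀ b ∈ Submodule.span F S, a * b + b * a = 0 := by
  intro a ha b hb
  induction ha using Submodule.span_induction with
  | mem a ha =>
    induction hb using Submodule.span_induction with
    | mem b hb => exact h.comm a ha b hb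
    | zero => simp
    | add b b' _ _ h1 h2 =>
      rw [mul_add, add_mul]
      linear_combination (norm := abel) h1 + h2
    | smul r b _ h1 => rw [mul_smul_comm, smul_mul_assoc, ← smul_add, h1, smul_zero]
  | zero => simp
  | add a a' _ _ h1 h2 =>
    rw [mul_add, add_mul]
    linear_combination (norm := abel) h1 + h2
  | smul r a _ h1 => rw [mul_smul_comm, smul_mul_assoc, ← smul_add, h1, smul_zero]

theorem MulId.sq' {S : Set R} (h : MulId S) : ∀ a ∈ Submodule.span F S, a * a = 0 := by
  intro a ha
  induction ha using Submodule.span_induction with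
  | mem a ha => exact h.sq a ha
  | zero => simp
  | add a a' hx hy h1 h2 =>
    have := h.comm' (F := F) a hx a' hy
    rw [mul_add, add_mul, add_mul]
    linear_combination (norm := abel) h1 + h2 + this
  | smul r a _ h1 => rw [mul_smul_comm, smul_mul_assoc, h1, smul_zero, smul_zero]

theorem MulId.full' {S : Set R} (h : MulId S) :
    ∀ x ∈ Submodule.span F S, ∀ p ∈ Submodule.span F S, ∀ q ∈ Submodule.span F S,
    ∀ r ∈ Submodule.span F S,
    ((x * p) * q) * r + ((x * p) * r) * q + ((x * q) * p) * r + ((x * q) * r) * p
      + ((x * r) * p) * q + ((x * r) * q) * p = 0 := by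
  intro x hx p hp q hq r hr
  induction hx using Submodule.span_induction with
  | zero => simp
  | add a a' _ _ h1 h2 =>
    simp only [mul_add, add_mul]
    linear_combination (norm := abel) h1 + h2
  | smul t a _ h1 => simp only [mul_smul_comm, smul_mul_assoc, ← smul_add, h1, smul_zero]
  | mem x hx =>
    induction hp using Submodule.span_induction with
    | zero => simp
    | add a a' _ _ h1 h2 =>
      simp only [mul_add, add_mul]
      linear_combination (norm := abel) h1 + h2
    | smul t a _ h1 => simp only [mul_smul_comm, smul_mul_assoc, ← smul_add, h1, smul_zero]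
    | mem p hp =>
      induction hq using Submodule.span_induction with
      | zero => simp
      | add a a' _ _ h1 h2 =>
        simp only [mul_add, add_mul]
        linear_combination (norm := abel) h1 + h2
      | smul t a _ h1 => simp only [mul_smul_comm, smul_mul_assoc, ← smul_add, h1, smul_zero]
      | mem q hq =>
        induction hr using Submodule.span_induction with
        | zero => simp
        | add a a' _ _ h1 h2 =>
          simp only [mul_add, add_mul]
          linear_combination (norm := abel) h1 + h2
        | smul t a _ h1 => simp only [mul_smul_comm, smul_mul_assoc, ← smul_add, h1, smul_zero]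
        | mem r hr => exact h.full x hx p hp q hq r hr

theorem MulId.lin' {S : Set R} (h : MulId S) :
    ∀ x ∈ Submodule.span F S, ∀ a ∈ Submodule.span F S, ∀ w ∈ Submodule.span F S,
    ((x * a) * a) * w + ((x * a) * w) * a + ((x * w) * a) * a = 0 := by
  intro x hx a ha w hw
  induction ha using Submodule.span_induction with
  | zero => simp
  | add a a' hx1 hx2 h1 h2 =>
    have := h.full' (F := F) x hx a hx1 a' hx2 w hw
    simp only [mul_add, add_mul]
    linear_combination (norm := abel) h1 + h2 + this
  | smul t a _ h1 => simp only [mul_smul_comm, smul_mul_assoc, ← smul_add, h1, smul_zero]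
  | mem a ha =>
    induction hx using Submodule.span_induction with
    | zero => simp
    | add y y' _ _ h1 h2 =>
      simp only [mul_add, add_mul]
      linear_combination (norm := abel) h1 + h2
    | smul t y _ h1 => simp only [mul_smul_comm, smul_mul_assoc, ← smul_add, h1, smul_zero]
    | mem x hx =>
      induction hw using Submodule.span_induction with
      | zero => simp
      | add y y' _ _ h1 h2 =>
        simp only [mul_add, add_mul]
        linear_combination (norm := abel) h1 + h2
      | smul t y _ h1 => simp only [mul_smul_comm, smul_mul_assoc, ← smul_add, h1, smul_zero]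
      | mem w hw => exact h.lin x hx a ha w hw

theorem MulId.eng' {S : Set R} (h : MulId S) :
    ∀ x ∈ Submodule.span F S, ∀ a ∈ Submodule.span F S, ((x * a) * a) * a = 0 := by
  intro x hx a ha
  induction ha using Submodule.span_induction with
  | zero => simp
  | add a a' hx1 hx2 h1 h2 =>
    have e1 := h.lin' (F := F) x hx a hx1 a' hx2
    have e2 := h.lin' (F := F) x hx a' hx2 a hx1
    simp only [mul_add, add_mul]
    linear_combination (norm := abel) h1 + h2 + e1 + e2
  | smul t a _ h1 => simp only [mul_smul_comm, smul_mul_assoc, h1, smul_zero]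
  | mem a ha =>
    induction hx using Submodule.span_induction with
    | zero => simp
    | add y y' _ _ h1 h2 =>
      simp only [add_mul]
      linear_combination (norm := abel) h1 + h2
    | smul t y _ h1 => simp only [smul_mul_assoc, h1, smul_zero]
    | mem x hx => exact h.eng x hx a ha

/-- A subalgebra contained in the span of `S` satisfies the identities. -/
theorem MulId.e2 {S : Set R} (h : MulId S) (B : NonUnitalSubalgebra F R)
    (hB : ∀ b ∈ B, b ∈ Submodule.span F S) : E2 B where
  two := fun x => Subtype.ext (h.two x)
  sq := fun x => Subtype.ext (h.sq' (F := F) x (hB x x.2))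
  eng := fun x y => Subtype.ext (h.eng' (F := F) x (hB x x.2) y (hB y y.2))
  lin := fun x a w => Subtype.ext (h.lin' (F := F) x (hB x x.2) a (hB a a.2) w (hB w w.2))

end rel

end Pool.Agent.H66.Eng2
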