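import Pool.Agent.H66.Eng2.PrimeP

set_option autoImplicit false
set_option linter.unusedSectionVars false

/-!
# The prime lemma (MP_1664c7_al)
-/

universe u v

namespace Pool.Agent.H66.Eng2

open Pool.Agent.H66.Eng Pool.Agent.H86.Eng2

section IK
variable {F : Type u} [Field F] {B : Type v} [NonUnitalNonAssocRing B] [Module F B]
  [IsScalarTower F B B] [SMulCommClass F B B]

/-- The ideals `I_k`. -/
def IK (F : Type u) [Field F] {B : Type v} [NonUnitalNonAssocRing B] [Module F B]
    (A : Submodule F B) (u : B) : ℕ → Submodule F B
  | 0 => A
  | k + 1 => Submodule.span F {z | ∃ i ∈ IK F A u k, ∃ l : List B, z = fw (i * u) l}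

variable (hB : E2 B) {A : Submodule F B} (hAid : SId A) {u : B}
  (hu : ∀ i ∈ A, ∀ h, i * (u * h) = (i * u) * h)

include hB hAid in
theorem IK_id (k : ℕ) : SId (IK F A u k) := by
  cases k with
  | zero => exact hAid
  | succ k =>
    intro z hz y
    have h1 : z * y ∈ IK F A u (k + 1) := by
      change z ∈ Submodule.span F _ at hz
      induction hz using Submodule.span_induction with
      | mem z hz =>
        obtain ⟨i, hi, l, rfl⟩ := hz
        refine Submodule.subset_span ⟨i, hi, l ++ [y], ?_⟩
        rw [fw_append']; rfl
      | zero => rw [zero_mul]; exact Submodule.zero_mem _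
      | add a b _ _ ha hb => rw [add_mul]; exact Submodule.add_mem _ ha hb
      | smul r a _ ha => rw [smul_mul_assoc]; exact Submodule.smul_mem _ r ha
    exact ⟨h1, by rw [hB.comm]; exact h1⟩

include hB hAid in
theorem IK_fw {k : ℕ} {z : B} (hz : z ∈ IK F A u k) (l : List B) : fw z l ∈ IK F A u k := by
  induction l generalizing z with
  | nil => exact hz
  | cons a l ih => exact ih ((IK_id hB hAid k) z hz a).1

theorem IK_u {k : ℕ} {z : B} (hz : z ∈ IK F A u k) : z * u ∈ IK F A u (k + 1) :=
  Submodule.subset_span ⟨z, hz, [], rfl⟩

include hB hAid in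
theorem IK_anti (k : ℕ) : IK F A u (k + 1) ≤ IK F A u k := by
  refine Submodule.span_le.mpr ?_
  rintro z ⟨i, hi, l, rfl⟩
  exact IK_fw hB hAid ((IK_id hB hAid k) i hi u).1 l

include hB hAid in
theorem IK_le {k l : ℕ} (h : k ≤ l) : IK F A u l ≤ IK F A u k := by
  induction h with
  | refl => exact le_rfl
  | step _ ih => exact (IK_anti hB hAid _).trans ih

include hB hAid hu in
/-- `I_l I_k ⊆ I_{k+l}`. -/
theorem IK_mul : ∀ (k l : ℕ) (p i : B), p ∈ IK F A u k → i ∈ IK F A u l →
    i * p ∈ IK F A u (k + l) := by
  intro k
  induction k with
  | zero =>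
    intro l p i _ hi
    rw [zero_add]
    exact ((IK_id hB hAid l) i hi p).1
  | succ k ihk =>
    -- words
    have hw : ∀ (m : ℕ) (l : ℕ) (i : B), i ∈ IK F A u l → ∀ p' ∈ IK F A u k, ∀ xs : List B,
        xs.length = m → i * fw (p' * u) xs ∈ IK F A u (k + 1 + l) := by
      intro m
      induction m using Nat.strong_induction_on with
      | _ m ihm =>
        intro l i hi p' hp' xs hxs
        have hid := IK_id (F := F) (u := u) hB hAid (k + 1 + l)
        rcases List.eq_nil_or_concat xs with rfl | ⟨xs1, x, rfl⟩
        · rw [fw_nil', hB.comm p' u, hu i (IK_le hB hAid (Nat.zero_le _) hi)]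
          have := ihk (l + 1) p' (i * u) hp' (IK_u hi)
          have e : k + (l + 1) = k + 1 + l := by omega
          rwa [e] at this
        · rw [List.concat_eq_append] at hxs ⊢
          rcases List.eq_nil_or_concat xs1 with rfl | ⟨xs2, b, rfl⟩
          · -- one letter
            have hlen : m = 1 := by simpa using hxs.symm
            have key := hB.full p' u x i
            have e1 : ((p' * u) * i) * x ∈ IK F A u (k + 1 + l) := by
              have := ihm 0 (by omega) l i hi p' hp' [] rfl
              rw [fw_nil', hB.comm] at this
              exact (hid _ this x).1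
            have e2 : ((p' * x) * u) * i ∈ IK F A u (k + 1 + l) := by
              have := ihm 0 (by omega) l i hi (p' * x) ((IK_id hB hAid k) p' hp' x).1 [] rfl
              rw [fw_nil', hB.comm] at this
              exact this
            have hm : ∀ z, z ∈ IK F A u (k + l) → z * u ∈ IK F A u (k + 1 + l) := by
              intro z hz
              have := IK_u hz
              have e : k + l + 1 = k + 1 + l := by omega
              rwa [e] at this
            have e3 : ((p' * x) * i) * u ∈ IK F A u (k + 1 + l) := by
              apply hm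
              rw [hB.comm]
              exact ihk l _ i ((IK_id hB hAid k) p' hp' x).1 hi
            have hpi : p' * i ∈ IK F A u (k + l) := by
              rw [hB.comm]; exact ihk l p' i hp' hi
            have e4 : ((p' * i) * u) * x ∈ IK F A u (k + 1 + l) := (hid _ (hm _ hpi) x).1
            have e5 : ((p' * i) * x) * u ∈ IK F A u (k + 1 + l) :=
              hm _ ((IK_id hB hAid (k + l)) _ hpi x).1
            rw [List.nil_append, fw_cons', fw_nil', hB.comm]
            have : ((p' * u) * x) * i = -(((p' * u) * i) * x + ((p' * x) * u) * i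
                + ((p' * x) * i) * u + ((p' * i) * u) * x + ((p' * i) * x) * u) := by
              linear_combination (norm := abel) key
            rw [this]
            exact Submodule.neg_mem _ (Submodule.add_mem _ (Submodule.add_mem _
              (Submodule.add_mem _ (Submodule.add_mem _ e1 e2) e3) e4) e5)
          · rw [List.concat_eq_append] at hxs ⊢
            have hlen : m = xs2.length + 2 := by simp at hxs; omega
            set q := fw (p' * u) xs2 with hq
            have hfw : fw (p' * u) (xs2 ++ [b] ++ [x]) = (q * b) * x := by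
              rw [fw_append', fw_append']; rfl
            rw [hfw]
            have key := hB.full b q x i
            have e1 : ((b * q) * i) * x ∈ IK F A u (k + 1 + l) := by
              have := ihm (xs2.length + 1) (by omega) l i hi p' hp' (xs2 ++ [b]) (by simp)
              rw [fw_append', fw_cons', fw_nil', ← hq, hB.comm, hB.comm q b] at this
              exact (hid _ this x).1
            have e2 : ((b * x) * q) * i ∈ IK F A u (k + 1 + l) := by
              have := ihm (xs2.length + 1) (by omega) l i hi p' hp' (xs2 ++ [b * x]) (by simp)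
              rw [fw_append', fw_cons', fw_nil', ← hq, hB.comm, hB.comm q (b * x)] at this
              exact this
            have hidl := IK_id (F := F) (u := u) hB hAid l
            have e3 : ((b * x) * i) * q ∈ IK F A u (k + 1 + l) :=
              ihm xs2.length (by omega) l _ (hidl i hi (b * x)).2 p' hp' xs2 rfl
            have e4 : ((b * i) * q) * x ∈ IK F A u (k + 1 + l) :=
              (hid _ (ihm xs2.length (by omega) l _ (hidl i hi b).2 p' hp' xs2 rfl) x).1
            have e5 : ((b * i) * x) * q ∈ IK F A u (k + 1 + l) :=
              ihm xs2.length (by omega) l _ (hidl _ (hidl i hi b).2 x).1 p' hp' xs2 rfl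
            have : i * ((q * b) * x) = -(((b * q) * i) * x + ((b * x) * q) * i
                + ((b * x) * i) * q + ((b * i) * q) * x + ((b * i) * x) * q) := by
              rw [hB.comm i, hB.comm q b]
              linear_combination (norm := abel) key
            rw [this]
            exact Submodule.neg_mem _ (Submodule.add_mem _ (Submodule.add_mem _
              (Submodule.add_mem _ (Submodule.add_mem _ e1 e2) e3) e4) e5)
    intro l p i hp hi
    change p ∈ Submodule.span F _ at hp
    induction hp using Submodule.span_induction with
    | mem z hz =>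
      obtain ⟨p', hp', xs, rfl⟩ := hz
      exact hw _ l i hi p' hp' xs rfl
    | zero => rw [mul_zero]; exact Submodule.zero_mem _
    | add a b _ _ ha hb => rw [mul_add]; exact Submodule.add_mem _ ha hb
    | smul r a _ ha => rw [mul_smul_comm]; exact Submodule.smul_mem _ r ha

include hB hAid in
theorem IK_vl {j : ℕ} {z : B} (hz : z ∈ IK F A u j) (w : List (Option B)) :
    vl u z w ∈ IK F A u (j + nph w) := by
  induction w generalizing z j with
  | nil => exact hz
  | cons a w ih =>
    cases a with
    | none =>
      rw [vl_none, nph_none]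
      have := ih (IK_u hz)
      have e : j + 1 + nph w = j + (nph w + 1) := by omega
      rwa [e] at this
    | some b =>
      rw [vl_some, nph_some]
      exact ih ((IK_id hB hAid j) z hz b).1

omit [SMulCommClass F B B] in
theorem vl_smul (r : F) (u z : B) (w : List (Option B)) : vl u (r • z) w = r • vl u z w := by
  induction w generalizing z with
  | nil => rfl
  | cons a w ih =>
    cases a with
    | none => rw [vl_none, vl_none, smul_mul_assoc, ih]
    | some b => rw [vl_some, vl_some, smul_mul_assoc, ih]

/-- `I_k` is spanned by words with `k` times `u`. -/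
theorem IK_span (k : ℕ) :
    IK F A u k ≤ Submodule.span F {z | ∃ i ∈ A, ∃ w, nph w = k ∧ z = vl u i w} := by
  induction k with
  | zero =>
    intro z hz
    exact Submodule.subset_span ⟨z, hz, [], rfl, rfl⟩
  | succ k ih =>
    refine Submodule.span_le.mpr ?_
    rintro z ⟨i, hi, l, rfl⟩
    have key : ∀ i ∈ Submodule.span F {z | ∃ i ∈ A, ∃ w, nph w = k ∧ z = vl u i w},
        fw (i * u) l ∈
          Submodule.span F {z | ∃ i ∈ A, ∃ w, nph w = k + 1 ∧ z = vl u i w} := by
      intro i hi
      induction hi using Submodule.span_induction with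
      | mem z hz =>
        obtain ⟨i, hi', w, hw, rfl⟩ := hz
        refine Submodule.subset_span ⟨i, hi', w ++ none :: l.map some, ?_, ?_⟩
        · rw [nph_append, nph_none, nph_map, hw]
        · rw [vl_append, vl_none, vl_map]
      | zero => rw [zero_mul, fw_zero']; exact Submodule.zero_mem _
      | add a b _ _ ha hb => rw [add_mul, fw_add']; exact Submodule.add_mem _ ha hb
      | smul r a _ ha => rw [smul_mul_assoc, fw_smul]; exact Submodule.smul_mem _ r ha
    exact key i (ih hi)

include hB hAid hu in
/-- Words with letters in a finite set modulo an ideal. -/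
theorem words_in {k : ℕ} (hk : 2 ≤ k) (E : Finset B) (hE : E.card + 3 < 3 * k)
    (R : Submodule F B) (hR1 : IK F A u (k + 1) ≤ R)
    (S : Submodule F B) (hS : ∀ s ∈ S, ∀ i ∈ A, ∀ w1 w2, vl u i (w1 ++ some s :: w2) ∈ R)
    (htop : Submodule.span F (E : Set B) ⊔ (IK F A u 1 ⊔ S) = ⊤) :
    ∀ n, ∀ i ∈ A, ∀ w, nph w = k → nlt w = n → vl u i w ∈ R := by
  classical
  have hA' : ∀ i ∈ (A : Set B), ∀ b, i * b ∈ (A : Set B) := fun i hi b => (hAid i hi b).1
  have hu' : ∀ i ∈ (A : Set B), ∀ h, i * (u * h) = (i * u) * h := hu
  intro n
  induction n using Nat.strong_induction_on with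
  | _ n ih =>
    have hHk : Hk u (A : Set B) R.toAddSubgroup k n := fun i hi w h1 h2 =>
      ih (nlt w) h2 i hi w h1 rfl
    -- words with all letters in `E`
    have base : ∀ i ∈ A, ∀ w, nph w = k → nlt w = n → (∀ z, some z ∈ w → z ∈ E) →
        vl u i w ∈ R := by
      intro i hi w h1 h2 h3
      rcases Nat.lt_or_ge (nlt w + 3) (3 * nph w) with h | h
      · rw [vl_few hB hA' hu' w.length w i le_rfl hi h]
        exact R.zero_mem
      · obtain ⟨ps, Z, rfl, hps, hZ⟩ := exists_fill w
        have hlen : nlt (fill ps Z) = Z.length := by
          have : ∀ (ps : List Bool) (Z : List B), nsl ps = Z.length →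
              nlt (fill ps Z) = Z.length := by
            intro ps
            induction ps with
            | nil =>
              intro Z h
              have : Z = [] := List.length_eq_zero_iff.mp h.symm
              subst this
              rfl
            | cons t ps ih =>
              intro Z h
              cases t with
              | true => simpa [fill] using ih Z (by simpa using h)
              | false =>
                cases Z with
                | nil => simp at h
                | cons a Z =>
                  have := ih Z (by simpa using h)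
                  simp [fill, this]
          exact this ps Z hps
        have hnd : ¬ Z.Nodup := by
          intro hnd
          have h4 : Z.toFinset ⊆ E := by
            intro z hz
            rw [List.mem_toFinset] at hz
            exact h3 z ((hZ z).mp hz)
          have h5 := Finset.card_le_card h4
          rw [List.toFinset_card_of_nodup hnd] at h5
          omega
        obtain ⟨e, he⟩ := List.exists_duplicate_iff_not_nodup.mpr hnd
        obtain ⟨Z1, hZ1⟩ := (List.duplicate_iff_sublist.mp he).exists_perm_append
        have hl := hZ1.length_eq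
        cases Z1 with
        | nil => simp at hl; omega
        | cons a Z2 =>
          have hp : Z.Perm (a :: e :: e :: Z2) := by
            refine hZ1.trans ?_
            simp only [List.cons_append, List.nil_append]
            exact ((List.Perm.swap a e Z2).cons e).trans (List.Perm.swap a e (e :: Z2))
          have e1 := fill_perm hB hA' hu' hk hHk hi hp ps [] hps (by simpa using h1)
            (by simpa using h2)
          simp only [List.nil_append] at e1
          have hc := fill_count (B := B) ps Z (a :: e :: e :: Z2) hps hp.length_eq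
          have e2 := fill_dup hB hA' hu' hHk hi a e Z2 ps hk
            (by rw [hps, hp.length_eq]; rfl) (by rw [← hc.1]; exact h1)
            (by rw [← hc.2]; exact h2)
          have e3 := R.sub_mem e1 e2
          rwa [add_sub_cancel_right] at e3
    -- expand the letters
    have key : ∀ (w2 w1 : List (Option B)), (∀ z, some z ∈ w1 → z ∈ E) →
        ∀ i ∈ A, nph (w1 ++ w2) = k → nlt (w1 ++ w2) = n → vl u i (w1 ++ w2) ∈ R := by
      intro w2
      induction w2 with
      | nil =>
        intro w1 hw1 i hi h1 h2
        rw [List.append_nil] at h1 h2 ⊢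
        exact base i hi w1 h1 h2 hw1
      | cons a w2 ihw =>
        intro w1 hw1 i hi h1 h2
        cases a with
        | none =>
          have := ihw (w1 ++ [none]) (by intro z hz; simp at hz; exact hw1 z hz) i hi
            (by simpa using h1) (by simpa using h2)
          simpa using this
        | some b =>
          let T : Submodule F B :=
            { carrier := {b | vl u i (w1 ++ some b :: w2) ∈ R}
              zero_mem' := by
                change vl u i (w1 ++ some 0 :: w2) ∈ R
                rw [vl_append, vl_some, mul_zero, vl_zero]; exact R.zero_mem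
              add_mem' := by
                intro b d hb hd
                change vl u i (w1 ++ some (b + d) :: w2) ∈ R
                have hb' : vl u i (w1 ++ some b :: w2) ∈ R := hb
                have hd' : vl u i (w1 ++ some d :: w2) ∈ R := hd
                rw [vl_append, vl_some] at hb' hd' ⊢
                rw [mul_add, vl_add]
                exact R.add_mem hb' hd'
              smul_mem' := by
                intro r b hb
                change vl u i (w1 ++ some (r • b) :: w2) ∈ R
                have hb' : vl u i (w1 ++ some b :: w2) ∈ R := hb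
                rw [vl_append, vl_some] at hb' ⊢
                rw [mul_smul_comm, vl_smul]
                exact R.smul_mem r hb' }
          have hT : T = ⊤ := by
            rw [eq_top_iff, ← htop]
            refine sup_le (Submodule.span_le.mpr ?_) (sup_le ?_ ?_)
            · intro e he
              change vl u i (w1 ++ some e :: w2) ∈ R
              have := ihw (w1 ++ [some e]) (by
                intro z hz
                simp at hz
                rcases hz with h | rfl
                · exact hw1 z h
                · exact he) i hi (by simp [nph_append] at h1 ⊢; exact h1)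
                (by simp [nlt_append] at h2 ⊢; omega)
              simpa using this
            · intro b hb
              change vl u i (w1 ++ some b :: w2) ∈ R
              apply hR1
              rw [vl_append, vl_some]
              have e1 : vl u i w1 ∈ IK F A u (0 + nph w1) :=
                IK_vl hB hAid (j := 0) (show i ∈ IK F A u 0 from hi) w1
              have e2 := IK_mul hB hAid hu 1 (0 + nph w1) b _ hb e1
              have e3 := IK_vl hB hAid e2 w2
              have e : 1 + (0 + nph w1) + nph w2 = k + 1 := by
                rw [nph_append, nph_some] at h1; omega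
              rwa [e] at e3
            · intro b hb
              exact hS b hb i hi w1 w2
          have : b ∈ T := by rw [hT]; trivial
          exact this
    intro i hi w h1 h2
    have := key w [] (by simp) i hi (by simpa using h1) (by simpa using h2)
    simpa using this

end IK

section final
variable {F : Type u} [Field F] {B : Type v} [NonUnitalNonAssocRing B] [Module F B]
  [IsScalarTower F B B] [SMulCommClass F B B]

theorem vl_ideal {I : Submodule F B} (hI : SId I) {u z : B} (hz : z ∈ I)
    (w : List (Option B)) : vl u z w ∈ I := by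
  induction w generalizing z with
  | nil => exact hz
  | cons a w ih =>
    cases a with
    | none => exact ih (hI z hz u).1
    | some b => exact ih (hI z hz b).1

theorem fw_ideal {I : Submodule F B} (hI : SId I) {z : B} (hz : z ∈ I)
    (w : List B) : fw z w ∈ I := by
  induction w generalizing z with
  | nil => exact hz
  | cons b w ih => exact ih (hI z hz b).1

theorem JN.cl_ann {X : Set B} (h : JN F X) {a : Submodule F B} {g : B}
    (hg : ∀ i ∈ a, i * g = 0) : ∀ i ∈ Cl X a, i * g = 0 := by
  intro i hi
  have : i * g ∈ ⨅ n, mspan F X n := by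
    rw [Submodule.mem_iInf]
    intro n
    obtain ⟨b, hb, p, hp, rfl⟩ := Submodule.mem_sup.mp (mem_Cl.mp hi n)
    rw [add_mul, hg b hb, zero_add]
    exact (mspan_ideal h.gen n p hp g).1
  rw [h.res] at this
  simpa using this

/-- **The prime lemma.** -/
theorem JN.prime {X : Set B} (h : JN F X) {a : Submodule F B} (ha : SId a) (hne : a ≠ ⊥)
    {g : B} (hg : ∀ i ∈ a, i * g = 0) : g = 0 := by
  classical
  have hB := h.e2
  by_contra hg0
  set A := Cl X a with hAdef
  have hAid : SId A := Cl_ideal h.gen ha
  have hAne : A ≠ ⊥ := by
    intro hb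
    apply hne
    rw [eq_bot_iff, ← hb]
    exact le_Cl X a
  have hAg : ∀ i ∈ A, i * g = 0 := h.cl_ann hg
  obtain ⟨K, hK⟩ := h.max a ha hne
  have hKA : ∀ n, K ≤ n → mspan F X n ≤ A := by
    intro n hn
    refine Submodule.span_le.mpr ?_
    rintro w ⟨m, hm, hw⟩
    exact hK m (by omega) w hw
  -- step 0a
  have h0a : ∃ g1 h1 : B, (∀ i ∈ A, i * g1 = 0) ∧ ∃ i ∈ A, i * (g1 * h1) ≠ 0 := by
    by_contra hcon
    push Not at hcon
    let Rn : Submodule F B :=
      { carrier := {g | ∀ i ∈ A, i * g = 0}
        zero_mem' := by intro i _; rw [mul_zero]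
        add_mem' := by intro x y hx hy i hi; rw [mul_add, hx i hi, hy i hi, add_zero]
        smul_mem' := by intro r x hx i hi; rw [mul_smul_comm, hx i hi, smul_zero] }
    have hRid : SId Rn := by
      intro x hx y
      have h1 : x * y ∈ Rn := hcon x y hx
      exact ⟨h1, by rw [hB.comm]; exact h1⟩
    have hRne : Rn ≠ ⊥ := by
      intro hb
      apply hg0
      have : g ∈ Rn := hAg
      rw [hb] at this
      simpa using this
    obtain ⟨K2, hK2⟩ := h.max Rn hRid hRne
    have hD : A ⊓ Cl X Rn = ⊥ := by
      apply h.semi
      · intro x hx y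
        have h1 := hAid x hx.1 y
        have h2 := Cl_ideal h.gen hRid x hx.2 y
        exact ⟨⟨h1.1, h2.1⟩, ⟨h1.2, h2.2⟩⟩
      · intro x hx y hy
        have h1 := Cl_mul h.gen (I := A) (J := Rn) (K := ⊥)
          (fun i hi r hr => by rw [Submodule.mem_bot]; exact hr i hi)
          (le_Cl X A hx.1) hy.2
        rw [Cl_bot h.res] at h1
        simpa using h1
    apply h.non
    refine ⟨K + K2, ?_⟩
    intro n hn w hw
    rw [← hD]
    exact ⟨hK n (by omega) w hw, hK2 n (by omega) w hw⟩
  obtain ⟨g1, h1, hg1, hi1⟩ := h0a
  -- step 0b
  have h0b : ∃ h0 : B, (∃ i ∈ A, i * (g1 * h0) ≠ 0) ∧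
      ∀ h' : B, ∀ i ∈ A, i * (g1 * (h0 * h')) = 0 := by
    set P : ℕ → Prop := fun n => ∃ h ∈ mspan F X n, ∃ i ∈ A, i * (g1 * h) ≠ 0 with hP
    have hP1 : P 1 := ⟨h1, by rw [h.gen]; trivial, hi1⟩
    have hPK : ¬ P (K + 1) := by
      rintro ⟨h2, hh2, i, _, hne⟩
      apply hne
      have : h2 * g1 = 0 := hg1 h2 (hKA (K + 1) (by omega) hh2)
      rw [hB.comm g1 h2, this, mul_zero]
    have hex : ∃ n, ¬ P (n + 1) := ⟨K, hPK⟩
    set m := Nat.find hex with hm
    have hm1 : ¬ P (m + 1) := Nat.find_spec hex
    have hm0 : m ≠ 0 := by
      intro h0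
      rw [h0] at hm1
      exact hm1 hP1
    obtain ⟨m', hm'⟩ := Nat.exists_eq_succ_of_ne_zero hm0
    have hPm : P m := by
      have := Nat.find_min hex (m := m') (by omega)
      rw [not_not] at this
      rw [hm']
      exact this
    obtain ⟨h0, hh0, hi0⟩ := hPm
    refine ⟨h0, hi0, ?_⟩
    intro h' i hi
    by_contra hne
    apply hm1
    refine ⟨h0 * h', ?_, i, hi, hne⟩
    exact mspan_mul hh0 (by rw [h.gen]; trivial)
  obtain ⟨h0, ⟨i0, hi0A, hi0⟩, hh0⟩ := h0b
  set u := g1 * h0 with hudef
  have hu : ∀ i ∈ A, ∀ h', i * (u * h') = (i * u) * h' := by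
    intro i hi h'
    have key := hB.full h0 g1 h' i
    have e1 : ((h0 * h') * g1) * i = 0 := by
      rw [hB.comm (h0 * h') g1, hB.comm]
      exact hh0 h' i hi
    have e2 : (h0 * i) * g1 = 0 := hg1 _ (hAid i hi h0).2
    have e3 : ((h0 * i) * h') * g1 = 0 := hg1 _ (hAid _ (hAid i hi h0).2 h').1
    have e4 : ((h0 * h') * i) * g1 = 0 := hg1 _ (hAid i hi (h0 * h')).2
    rw [e1, e2, e3, e4, hB.comm h0 g1, ← hudef] at key
    rw [hB.comm i (u * h'), hB.comm i u]
    apply hB.eq_of
    simpa using key
  -- the ideals
  have hI1 : IK F A u 1 ≠ ⊥ := by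
    intro hb
    apply hi0
    have : i0 * u ∈ IK F A u 1 := IK_u (show i0 ∈ IK F A u 0 from hi0A)
    rw [hb] at this
    simpa using this
  obtain ⟨K1, hK1⟩ := h.max _ (IK_id hB hAid 1) hI1
  have hfinE : {w : B | ∃ n, n < K1 ∧ Mon X n w}.Finite := by
    refine ((Mon.finite_lt h.fin K1).image Prod.snd).subset ?_
    rintro w ⟨n, hn, hw⟩
    exact ⟨(n, w), ⟨hn, hw⟩, rfl⟩
  set E := hfinE.toFinset with hE
  have hstep : ∀ k, E.card + 2 ≤ k → IK F A u k ≤ Cl X (IK F A u (k + 1)) := by
    intro k hk z hz
    rw [mem_Cl]
    intro N
    have hz' := IK_span k hz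
    have htop : Submodule.span F (E : Set B) ⊔ (IK F A u 1 ⊔ mspan F X N) = ⊤ := by
      rw [eq_top_iff, ← h.gen]
      refine Submodule.span_le.mpr ?_
      rintro w ⟨n, _, hw⟩
      rcases Nat.lt_or_ge n K1 with hn | hn
      · refine Submodule.mem_sup_left (Submodule.subset_span ?_)
        rw [hE, Set.Finite.coe_toFinset]
        exact ⟨n, hn, hw⟩
      · exact Submodule.mem_sup_right (mem_Cl.mp (hK1 n hn w hw) N)
    have hall := words_in hB hAid hu (k := k) (by omega) E (by omega)
      (IK F A u (k + 1) ⊔ mspan F X N) le_sup_left (mspan F X N)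
      (by
        intro s hs i hi w1 w2
        apply Submodule.mem_sup_right
        rw [vl_append, vl_some]
        exact vl_ideal (mspan_ideal h.gen N) (mspan_ideal h.gen N s hs _).2 w2) htop
    refine (Submodule.span_le.mpr ?_) hz'
    rintro z ⟨i, hi, w, hw, rfl⟩
    exact hall _ i hi w hw rfl
  have hdeg : ∀ l, IK F A u l ≤ mspan F X l := by
    intro l
    induction l with
    | zero =>
      intro z _
      have : z ∈ mspan F X 1 := by rw [h.gen]; trivial
      exact mspan_anti (Nat.zero_le 1) this
    | succ l ih =>
      refine Submodule.span_le.mpr ?_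
      rintro z ⟨i, hi, w, rfl⟩
      refine fw_ideal (mspan_ideal h.gen (l + 1)) ?_ w
      exact mspan_mul (ih hi) (by rw [h.gen]; trivial)
  have hCl : ∀ j k, E.card + 2 ≤ k → IK F A u k ≤ Cl X (IK F A u (k + j)) := by
    intro j
    induction j with
    | zero => intro k _; exact le_Cl X _
    | succ j ih =>
      intro k hk
      refine (ih k hk).trans ?_
      refine (Cl_mono (hstep (k + j) (by omega))).trans ?_
      exact Cl_Cl X _
  have hzero : IK F A u (E.card + 2) = ⊥ := by
    rw [eq_bot_iff, ← h.res]
    intro z hz
    rw [Submodule.mem_iInf]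
    intro n
    have h2 := mem_Cl.mp (hCl n (E.card + 2) le_rfl hz) n
    have h3 : IK F A u (E.card + 2 + n) ⊔ mspan F X n ≤ mspan F X n :=
      sup_le ((hdeg _).trans (mspan_anti (by omega))) le_rfl
    exact h3 h2
  have hex : ∃ k, IK F A u k = ⊥ := ⟨_, hzero⟩
  set k1 := Nat.find hex with hk1
  have hk1z : IK F A u k1 = ⊥ := Nat.find_spec hex
  have hk10 : k1 ≠ 0 := by
    intro h0
    rw [h0] at hk1z
    exact hAne hk1z
  have hk11 : k1 ≠ 1 := by
    intro h0
    rw [h0] at hk1z
    exact hI1 hk1z
  obtain ⟨j, hj⟩ : ∃ j, k1 = j + 2 := ⟨k1 - 2, by omega⟩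
  have hjne : IK F A u (j + 1) ≠ ⊥ := Nat.find_min hex (m := j + 1) (by omega)
  apply hjne
  apply h.semi
  · exact IK_id hB hAid (j + 1)
  · intro x hx y hy
    have h1 := IK_mul hB hAid hu (j + 1) (j + 1) y x hy hx
    have h2 := IK_le (F := F) (u := u) hB hAid (k := k1) (l := j + 1 + (j + 1)) (by omega) h1
    rw [hk1z] at h2
    simpa using h2

end final

end Pool.Agent.H66.Eng2
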