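import Pool.Agent.H66.Eng2.PrimeW

set_option autoImplicit false
set_option linter.unusedSectionVars false

/-!
# The prime lemma: permutations (MP_1664c7_al)
-/

universe u v

namespace Pool.Agent.H66.Eng2

open Pool.Agent.H66.Eng Pool.Agent.H86.Eng2

section fill
variable {B : Type v}

/-- Fill the slots (`false`) of a pattern with letters. -/
def fill : List Bool → List B → List (Option B)
  | [], _ => []
  | true :: ps, Z => none :: fill ps Z
  | false :: ps, [] => fill ps []
  | false :: ps, b :: Z => some b :: fill ps Z

/-- Number of slots. -/
def nsl (ps : List Bool) : ℕ := ps.countP (· == false)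

@[simp] theorem nsl_nil : nsl [] = 0 := rfl
@[simp] theorem nsl_true (ps : List Bool) : nsl (true :: ps) = nsl ps := by
  unfold nsl; rw [List.countP_cons]; rfl
@[simp] theorem nsl_false (ps : List Bool) : nsl (false :: ps) = nsl ps + 1 := by
  unfold nsl; rw [List.countP_cons]; rfl

/-- Pattern and letters of a word. -/
theorem exists_fill (w : List (Option B)) :
    ∃ (ps : List Bool) (Z : List B), w = fill ps Z ∧ nsl ps = Z.length ∧
      ∀ z, z ∈ Z ↔ some z ∈ w := by
  induction w with
  | nil => exact ⟨[], [], rfl, rfl, by simp⟩
  | cons a w ih =>
    obtain ⟨ps, Z, h1, h2, h3⟩ := ih
    cases a with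
    | none => exact ⟨true :: ps, Z, by rw [h1]; rfl, by simpa using h2, by simpa using h3⟩
    | some b =>
      refine ⟨false :: ps, b :: Z, by rw [h1]; rfl, by simp [h2], ?_⟩
      intro z
      simp [h3]

end fill

section perm
variable {B : Type v} [NonUnitalNonAssocRing B] (hB : E2 B) {A : Set B}
  (hA : ∀ i ∈ A, ∀ b, i * b ∈ A) {u : B} (hu : ∀ i ∈ A, ∀ h, i * (u * h) = (i * u) * h)

include hB hA hu in
theorem fill_swap {R : AddSubgroup B} {k n : ℕ} (hk : 2 ≤ k) (hR : Hk u A R k n) {i : B}
    (hi : i ∈ A) (b d : B) (Z : List B) : ∀ (ps : List Bool) (w1 : List (Option B)),
    nsl ps = Z.length + 2 → nph (w1 ++ fill ps (b :: d :: Z)) = k →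
    nlt (w1 ++ fill ps (b :: d :: Z)) = n →
    vl u i (w1 ++ fill ps (b :: d :: Z)) + vl u i (w1 ++ fill ps (d :: b :: Z)) ∈ R := by
  intro ps
  induction ps with
  | nil => intro w1 h; simp at h
  | cons t ps ih =>
    cases t with
    | true =>
      intro w1 h1 h2 h3
      have := ih (w1 ++ [none]) (by simpa using h1) (by simpa [fill] using h2)
        (by simpa [fill] using h3)
      simpa [fill] using this
    | false =>
      intro w1 h1 h2 h3
      cases ps with
      | nil => simp at h1
      | cons t ps =>
        cases t with
        | false =>
          exact T1 hB hA hu hk hR hi w1 (fill ps Z) b d h2 h3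
        | true =>
          cases ps with
          | nil => simp at h1
          | cons t ps =>
            cases t with
            | false =>
              exact T2 hB hA hu hR hi w1 (fill ps Z) b d h2 h3
            | true =>
              have hz : ∀ (b : B) (w : List (Option B)),
                  vl u i (w1 ++ some b :: none :: none :: w) = 0 := by
                intro b w
                rw [vl_append, vl_some, vl_none, vl_none,
                  phi0 hB hu (hA _ (vl_mem hA hi w1) b), vl_zero]
              change vl u i (w1 ++ some b :: none :: none :: fill ps (d :: Z))
                + vl u i (w1 ++ some d :: none :: none :: fill ps (b :: Z)) ∈ R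
              rw [hz, hz, add_zero]
              exact R.zero_mem

theorem fill_count (ps : List Bool) : ∀ (Z Z' : List B) , nsl ps = Z.length →
    Z.length = Z'.length → nph (fill ps Z) = nph (fill ps Z') ∧
      nlt (fill ps Z) = nlt (fill ps Z') := by
  induction ps with
  | nil => intro Z Z' _ _; exact ⟨rfl, rfl⟩
  | cons t ps ih =>
    intro Z Z' h1 h2
    cases t with
    | true =>
      have := ih Z Z' (by simpa using h1) h2
      simpa [fill] using this
    | false =>
      cases Z with
      | nil => simp at h1
      | cons a Z =>
        cases Z' with
        | nil => simp at h2
        | cons b Z' =>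
          have := ih Z Z' (by simpa using h1) (by simpa using h2)
          simpa [fill] using this

include hB hA hu in
theorem fill_perm {R : AddSubgroup B} {k n : ℕ} (hk : 2 ≤ k) (hR : Hk u A R k n) {i : B}
    (hi : i ∈ A) {Z Z' : List B} (hp : Z.Perm Z') : ∀ (ps : List Bool) (w1 : List (Option B)),
    nsl ps = Z.length → nph (w1 ++ fill ps Z) = k → nlt (w1 ++ fill ps Z) = n →
    vl u i (w1 ++ fill ps Z) + vl u i (w1 ++ fill ps Z') ∈ R := by
  induction hp with
  | nil =>
    intro ps w1 _ _ _
    rw [hB.two]; exact R.zero_mem
  | cons b hp ihp =>
    rename_i Z Z'
    intro ps
    induction ps with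
    | nil => intro w1 h; simp at h
    | cons t ps ih =>
      intro w1 h1 h2 h3
      cases t with
      | true =>
        have := ih (w1 ++ [none]) (by simpa using h1) (by simpa [fill] using h2)
          (by simpa [fill] using h3)
        simpa [fill] using this
      | false =>
        have := ihp ps (w1 ++ [some b]) (by simpa using h1) (by simpa [fill] using h2)
          (by simpa [fill] using h3)
        simpa [fill] using this
  | swap b d Z =>
    intro ps w1 h1 h2 h3
    exact fill_swap hB hA hu hk hR hi d b Z ps w1 h1 h2 h3
  | trans hp1 hp2 ih1 ih2 =>
    rename_i Z1 Z2 Z3
    intro ps w1 h1 h2 h3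
    have hc := fill_count (B := B) ps Z1 Z2 h1 hp1.length_eq
    have e1 := ih1 ps w1 h1 h2 h3
    have e2 := ih2 ps w1 (h1.trans hp1.length_eq)
      (by rw [nph_append] at h2 ⊢; rw [← hc.1]; exact h2)
      (by rw [nlt_append] at h3 ⊢; rw [← hc.2]; exact h3)
    have e3 := R.add_mem e1 e2
    have t := hB.two (vl u i (w1 ++ fill ps Z2))
    convert e3 using 1
    linear_combination (norm := abel) -t

include hB hA hu in
/-- A repeated letter. -/
theorem fill_dup {R : AddSubgroup B} {k n : ℕ} (hR : Hk u A R k n) {i : B}
    (hi : i ∈ A) (a e : B) (Z : List B) (ps : List Bool) (hk : 2 ≤ k)
    (h1 : nsl ps = Z.length + 3) (h2 : nph (fill ps (a :: e :: e :: Z)) = k)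
    (h3 : nlt (fill ps (a :: e :: e :: Z)) = n) : vl u i (fill ps (a :: e :: e :: Z)) ∈ R := by
  cases ps with
  | nil => simp at h1
  | cons t ps =>
    cases t with
    | false =>
      simp only [fill, nph_some, nlt_some] at h2 h3
      rw [fill, vl_some]
      exact hR _ (hA i hi a) _ h2 (by omega)
    | true =>
      rw [fill, vl_none]
      cases ps with
      | nil => simp at h1
      | cons t ps =>
        cases t with
        | true =>
          rw [fill, vl_none, phi0 hB hu hi, vl_zero]; exact R.zero_mem
        | false =>
          rw [fill, vl_some]
          cases ps with
          | nil => simp at h1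
          | cons t ps =>
            cases t with
            | true =>
              rw [fill, vl_none, phi1 hB hA hu hi, vl_zero]; exact R.zero_mem
            | false =>
              rw [fill, vl_some]
              cases ps with
              | nil => simp at h1
              | cons t ps =>
                cases t with
                | true =>
                  rw [fill, vl_none, phi2 hB hA hu hi, vl_zero]; exact R.zero_mem
                | false =>
                  rw [fill, vl_some]
                  simp only [fill, nph_some, nlt_some, nph_none, nlt_none] at h2 h3
                  have hl := hB.lin a e (i * u)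
                  have e1 := hR i hi (none :: some ((a * e) * e) :: fill ps Z)
                    (by simpa using h2) (by simp; omega)
                  have e2 := hR i hi (none :: some (a * e) :: some e :: fill ps Z)
                    (by simpa using h2) (by simp; omega)
                  rw [vl_none, vl_some] at e1
                  rw [vl_none, vl_some, vl_some] at e2
                  have key : (((i * u) * a) * e) * e = (i * u) * ((a * e) * e)
                      + ((i * u) * (a * e)) * e := by
                    rw [hB.comm ((a * e) * e) (i * u), hB.comm (a * e) (i * u), hB.comm a (i * u)] at hl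
                    apply hB.eq_of
                    rw [← hl]; abel
                  rw [key, vl_add]
                  exact R.add_mem e1 e2

include hB hA hu in
/-- Words with few letters vanish. -/
theorem vl_few : ∀ (m : ℕ) (w : List (Option B)) (i : B), w.length ≤ m → i ∈ A →
    nlt w + 3 < 3 * nph w → vl u i w = 0 := by
  intro m
  induction m with
  | zero =>
    intro w i hm _ h
    have : w = [] := List.length_eq_zero_iff.mp (by omega)
    subst this
    simp at h
  | succ m ih =>
    intro w i hm hi h
    cases w with
    | nil => simp at h
    | cons a w =>
      cases a with
      | some b =>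
        simp only [nlt_some, nph_some] at h
        rw [vl_some]
        exact ih w _ (by simpa using hm) (hA i hi b) (by omega)
      | none =>
        simp only [nlt_none, nph_none] at h
        rw [vl_none]
        cases w with
        | nil => simp at h
        | cons a w =>
          cases a with
          | none => rw [vl_none, phi0 hB hu hi, vl_zero]
          | some b =>
            simp only [nlt_some, nph_some] at h
            rw [vl_some]
            cases w with
            | nil => simp at h
            | cons a w =>
              cases a with
              | none => rw [vl_none, phi1 hB hA hu hi, vl_zero]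
              | some d =>
                simp only [nlt_some, nph_some] at h
                rw [vl_some]
                cases w with
                | nil => simp at h
                | cons a w =>
                  cases a with
                  | none => rw [vl_none, phi2 hB hA hu hi, vl_zero]
                  | some e =>
                    simp only [nlt_some, nph_some] at h
                    rw [vl_some]
                    exact ih w _ (by simp at hm; omega)
                      (hA _ (hA _ (hA _ (hA i hi u) b) d) e) (by omega)

end perm

end Pool.Agent.H66.Eng2
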