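import Pool.Agent.H66.Eng2.Six

set_option autoImplicit false

/-!
# The prime lemma: rearranging letters (MP_1664c7_al)
-/

universe u v

namespace Pool.Agent.H66.Eng2

open Pool.Agent.H66.Eng Pool.Agent.H86.Eng2

section words
variable {B : Type v} [NonUnitalNonAssocRing B]

theorem fw_append' (m : B) (l1 l2 : List B) : fw m (l1 ++ l2) = fw (fw m l1) l2 :=
  List.foldl_append

theorem fw_add' (m n : B) (l : List B) : fw (m + n) l = fw m l + fw n l := by
  induction l generalizing m n with
  | nil => rfl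
  | cons a l ih =>
    change fw ((m + n) * a) l = fw (m * a) l + fw (n * a) l
    rw [add_mul, ih]

theorem fw_zero' (l : List B) : fw (0 : B) l = 0 := by
  induction l with
  | nil => rfl
  | cons a l ih =>
    change fw (0 * a) l = 0
    rw [zero_mul, ih]

theorem fw_cons' (m a : B) (l : List B) : fw m (a :: l) = fw (m * a) l := rfl

theorem fw_nil' (m : B) : fw m [] = m := rfl

theorem fw_mid (hB : E2 B) (q a b d : B) (l : List B) :
    fw (((q * a) * b) * d) l + fw (((q * a) * d) * b) l =
      fw (q * ((a * b) * d)) l + fw (q * ((a * d) * b)) l + fw ((q * (a * b)) * d) l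
        + fw ((q * (a * d)) * b) l := by
  rw [← fw_add', E2.mid hB q a b d, fw_add', fw_add', fw_add']

/-- A word with two `u` and letters. -/
def W3 (u p : B) (X0 X Y : List B) : B := fw ((fw ((fw p X0) * u) X) * u) Y

/-- Words with few letters are in `R`. -/
def HS (u p : B) (R : AddSubgroup B) (n : ℕ) : Prop :=
  ∀ X0 X Y : List B, X0.length + X.length + Y.length < n → W3 u p X0 X Y ∈ R

/-- `{z | z l ∈ R}`. -/
def Rl (R : AddSubgroup B) (l : B) : AddSubgroup B where
  carrier := {z | z * l ∈ R}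
  zero_mem' := by
    change 0 * l ∈ R
    rw [zero_mul]; exact R.zero_mem
  add_mem' := by
    intro a b ha hb
    change (a + b) * l ∈ R
    rw [add_mul]; exact R.add_mem ha hb
  neg_mem' := by
    intro a ha
    change (-a) * l ∈ R
    rw [neg_mul]; exact R.neg_mem ha

theorem mem_Rl {R : AddSubgroup B} {l z : B} : z ∈ Rl R l ↔ z * l ∈ R := Iff.rfl

theorem W3_last (u p : B) (X0 X Y : List B) (l : B) :
    W3 u p X0 X (Y ++ [l]) = W3 u p X0 X Y * l := by
  unfold W3
  rw [fw_append']; rfl

theorem HS.last {u p : B} {R : AddSubgroup B} {n : ℕ} (h : HS u p R (n + 1)) (l : B) :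
    HS u p (Rl R l) n := by
  intro X0 X Y hn
  rw [mem_Rl, ← W3_last]
  exact h X0 X (Y ++ [l]) (by simp; omega)

theorem W3_add (u : B) (X2 Y : List B) (z w : B) :
    fw ((fw (z + w) X2) * u) Y = fw ((fw z X2) * u) Y + fw ((fw w X2) * u) Y := by
  rw [fw_add', add_mul, fw_add']

end words

section S
variable {B : Type v} [NonUnitalNonAssocRing B] (hB : E2 B) {A : Set B}
  (hA : ∀ i ∈ A, ∀ b, i * b ∈ A) {u : B} (hu : ∀ i ∈ A, ∀ h, i * (u * h) = (i * u) * h)

include hA in
theorem fw_mem {p : B} (hp : p ∈ A) (l : List B) : fw p l ∈ A := by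
  induction l generalizing p with
  | nil => exact hp
  | cons a l ih => exact ih (hA p hp a)

include hB hu in
theorem phi0 {i : B} (hi : i ∈ A) : (i * u) * u = 0 := by
  rw [← hu i hi, hB.sq, mul_zero]

include hB hu hA in
theorem phi1 {i : B} (hi : i ∈ A) (h : B) : ((i * u) * h) * u = 0 := by
  have := hB.lin i u h
  rw [phi0 hB hu hi, phi0 hB hu (hA i hi h)] at this
  simpa using this

include hB hu hA in
theorem phi2 {i : B} (hi : i ∈ A) (a b : B) : (((i * u) * a) * b) * u = 0 := by
  have h := hB.full i (u * a) b u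
  rw [hu i hi, hu _ (hA i hi b), hu _ (hA i hi u), hu _ (hA _ (hA i hi b) u),
    hu _ (hA _ (hA i hi u) b), phi1 hB hA hu hi, phi0 hB hu hi, phi0 hB hu (hA i hi b),
    phi1 hB hA hu hi, phi1 hB hA hu (hA i hi b)] at h
  simpa using h

include hB hu hA in
/-- The exact identity. -/
theorem phi3 {p : B} (hp : p ∈ A) (a b d : B) :
    (((p * u) * b) * d) * a + (((p * u) * d) * b) * a =
      ((((p * u) * a) * b) * d + (((p * u) * a) * d) * b)
      + ((((p * b) * u) * a) * d + (((p * b) * u) * d) * a)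
      + ((((p * d) * u) * a) * b + (((p * d) * u) * b) * a) := by
  have h1 := congrArg (· * a) (hB.full p u b d)
  have h2 := hB.full p (u * a) b d
  simp only [add_mul, zero_mul] at h1
  rw [hu p hp, hu _ (hA p hp b), hu _ (hA p hp d), hu _ (hA _ (hA p hp b) d),
    hu _ (hA _ (hA p hp d) b)] at h2
  have t1 := hB.two ((((p * b) * d) * u) * a)
  have t2 := hB.two ((((p * d) * b) * u) * a)
  have t3 := hB.two (((((p * u) * a) * b) * d))
  have t4 := hB.two (((((p * u) * a) * d) * b))
  have t5 := hB.two ((((p * b) * u) * a) * d)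
  have t6 := hB.two ((((p * b) * u) * d) * a)
  have t7 := hB.two ((((p * d) * u) * a) * b)
  have t8 := hB.two ((((p * d) * u) * b) * a)
  linear_combination (norm := abel) h1 + h2 - t1 - t2 - t3 - t4 - t5 - t6 - t7 - t8

variable {p : B} (hp : p ∈ A)

include hB in
theorem S_aM {R : AddSubgroup B} {n : ℕ} (hR : HS u p R n) (X0 X1 X2 Y : List B) (a b d : B)
    (hn : X0.length + (X1 ++ a :: b :: d :: X2).length + Y.length = n) :
    W3 u p X0 (X1 ++ a :: b :: d :: X2) Y + W3 u p X0 (X1 ++ a :: d :: b :: X2) Y ∈ R := by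
  have hn' : X0.length + X1.length + X2.length + Y.length + 3 = n := by
    simp at hn; omega
  have e1 := hR X0 (X1 ++ ((a * b) * d) :: X2) Y (by simp; omega)
  have e2 := hR X0 (X1 ++ ((a * d) * b) :: X2) Y (by simp; omega)
  have e3 := hR X0 (X1 ++ (a * b) :: d :: X2) Y (by simp; omega)
  have e4 := hR X0 (X1 ++ (a * d) :: b :: X2) Y (by simp; omega)
  unfold W3 at e1 e2 e3 e4 ⊢
  simp only [fw_append', fw_cons'] at e1 e2 e3 e4 ⊢
  rw [← fw_add', ← add_mul, fw_mid hB, add_mul, add_mul, add_mul, fw_add', fw_add', fw_add']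
  exact R.add_mem (R.add_mem (R.add_mem e1 e2) e3) e4

include hB in
theorem S_cM {R : AddSubgroup B} {n : ℕ} (hR : HS u p R n) (X0 X Y1 Y2 : List B) (a b d : B)
    (hn : X0.length + X.length + (Y1 ++ a :: b :: d :: Y2).length = n) :
    W3 u p X0 X (Y1 ++ a :: b :: d :: Y2) + W3 u p X0 X (Y1 ++ a :: d :: b :: Y2) ∈ R := by
  have hn' : X0.length + X.length + Y1.length + Y2.length + 3 = n := by
    simp at hn; omega
  have e1 := hR X0 X (Y1 ++ ((a * b) * d) :: Y2) (by simp; omega)
  have e2 := hR X0 X (Y1 ++ ((a * d) * b) :: Y2) (by simp; omega)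
  have e3 := hR X0 X (Y1 ++ (a * b) :: d :: Y2) (by simp; omega)
  have e4 := hR X0 X (Y1 ++ (a * d) :: b :: Y2) (by simp; omega)
  unfold W3 at e1 e2 e3 e4 ⊢
  simp only [fw_append', fw_cons'] at e1 e2 e3 e4 ⊢
  rw [fw_mid hB]
  exact R.add_mem (R.add_mem (R.add_mem e1 e2) e3) e4

include hB hA hu hp in
theorem S_a0 {R : AddSubgroup B} {n : ℕ} (hR : HS u p R n) : ∀ (m : ℕ) (X0 X2 : List B)
    (b d : B), X2.length = m → X0.length + (m + 2) = n →
    W3 u p X0 (b :: d :: X2) [] + W3 u p X0 (d :: b :: X2) [] ∈ R := by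
  intro m
  induction m with
  | zero =>
    intro X0 X2 b d hm _
    have : X2 = [] := List.length_eq_zero_iff.mp hm
    subst this
    have hq := fw_mem hA hp X0
    unfold W3
    simp only [fw_cons', fw_nil']
    rw [phi2 hB hA hu hq, phi2 hB hA hu hq, add_zero]
    exact R.zero_mem
  | succ m ih =>
    intro X0 X2 b d hm hn
    obtain ⟨a, X3, rfl⟩ := List.exists_cons_of_length_eq_add_one hm
    have hm' : X3.length = m := by simpa using hm
    have e1 := S_aM hB hR X0 [] X3 [] a b d (by simp; omega)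
    have e2 := ih (X0 ++ [b]) X3 a d hm' (by simp; omega)
    have e3 := ih (X0 ++ [d]) X3 a b hm' (by simp; omega)
    have hq := fw_mem hA hp X0
    have key := phi3 hB hA hu hq a b d
    unfold W3 at e1 e2 e3 ⊢
    simp only [fw_append', fw_cons', fw_nil', List.nil_append] at e1 e2 e3 ⊢
    rw [← add_mul, ← fw_add', key]
    rw [← add_mul, ← fw_add'] at e1 e2 e3
    rw [fw_add', fw_add', add_mul, add_mul]
    exact R.add_mem (R.add_mem e1 e2) e3

/-- The statement of the rearrangement lemma. -/
def SP (u p : B) (R : AddSubgroup B) (n : ℕ) : Prop :=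
  (∀ X0 X1 X2 Y : List B, ∀ b d : B, X0.length + (X1 ++ b :: d :: X2).length + Y.length = n →
    W3 u p X0 (X1 ++ b :: d :: X2) Y + W3 u p X0 (X1 ++ d :: b :: X2) Y ∈ R) ∧
  (∀ X0 X Y : List B, ∀ b d : B, X0.length + (X ++ [b]).length + (d :: Y).length = n →
    W3 u p X0 (X ++ [b]) (d :: Y) + W3 u p X0 (X ++ [d]) (b :: Y) ∈ R) ∧
  (∀ X0 X Y1 Y2 : List B, ∀ b d : B, X0.length + X.length + (Y1 ++ b :: d :: Y2).length = n →
    W3 u p X0 X (Y1 ++ b :: d :: Y2) + W3 u p X0 X (Y1 ++ d :: b :: Y2) ∈ R)

include hB hA hu hp in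
theorem lemS : ∀ (n : ℕ) (R : AddSubgroup B), HS u p R n → SP u p R n := by
  intro n
  induction n with
  | zero =>
    intro R _
    refine ⟨?_, ?_, ?_⟩
    · intro X0 X1 X2 Y b d hn; simp at hn
    · intro X0 X Y b d hn; simp at hn
    · intro X0 X Y1 Y2 b d hn; simp at hn
  | succ n ih =>
    intro R hR
    have ihl : ∀ l, SP u p (Rl R l) n := fun l => ih _ (hR.last l)
    -- (a)
    have ha : ∀ X0 X1 X2 Y : List B, ∀ b d : B,
        X0.length + (X1 ++ b :: d :: X2).length + Y.length = n + 1 →
        W3 u p X0 (X1 ++ b :: d :: X2) Y + W3 u p X0 (X1 ++ d :: b :: X2) Y ∈ R := by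
      intro X0 X1 X2 Y b d hn
      rcases List.eq_nil_or_concat Y with rfl | ⟨Y, l, rfl⟩
      · rcases List.eq_nil_or_concat X1 with rfl | ⟨X1, a, rfl⟩
        · exact S_a0 hB hA hu hp hR X2.length X0 X2 b d rfl (by simp at hn; omega)
        · have := S_aM hB hR X0 X1 X2 [] a b d (by simp at hn ⊢; omega)
          simpa using this
      · rw [List.concat_eq_append] at hn ⊢
        have := (ihl l).1 X0 X1 X2 Y b d (by simp at hn ⊢; omega)
        rw [mem_Rl, add_mul, ← W3_last, ← W3_last] at this
        exact this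
    -- a relation
    have rel : ∀ X0 X : List B, ∀ a d e : B, X0.length + X.length + 3 = n + 1 →
        W3 u p X0 (X ++ [d]) [a, e] + W3 u p X0 (X ++ [e]) [a, d] ∈ R := by
      intro X0 X a d e hn
      have e1 := S_cM hB hR X0 X [] [] a d e (by simp; omega)
      have e2 := ha X0 X [] [a] d e (by simp; omega)
      have hq := fw_mem hA (hA _ (fw_mem hA hp X0) u) X
      have key := hB.full (fw ((fw p X0) * u) X) (u * a) d e
      rw [hu _ hq, hu _ (hA _ hq d), hu _ (hA _ hq e), hu _ (hA _ (hA _ hq d) e),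
        hu _ (hA _ (hA _ hq e) d)] at key
      unfold W3 at e1 e2 ⊢
      simp only [fw_append', fw_cons', fw_nil', List.nil_append] at e1 e2 ⊢
      have h3 := R.neg_mem (R.add_mem e1 e2)
      convert h3 using 1
      linear_combination (norm := abel) key
    -- (c) for the first two letters of the last block
    have hc0 : ∀ X0 X : List B, ∀ b d : B, X0.length + X.length + 2 = n + 1 →
        W3 u p X0 X [b, d] + W3 u p X0 X [d, b] ∈ R := by
      intro X0 X b d hn
      rcases List.eq_nil_or_concat X with rfl | ⟨X, e, rfl⟩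
      · unfold W3
        simp only [fw_nil', fw_cons']
        rw [phi0 hB hu (fw_mem hA hp X0)]
        simp only [zero_mul, add_zero]
        exact R.zero_mem
      · rw [List.concat_eq_append] at hn ⊢
        have hn' : X0.length + X.length + 3 = n + 1 := by simp at hn; omega
        have e1 := rel X0 X b e d hn'
        have e2 := (ihl e).2.1 X0 X [] d b (by simp; omega)
        have e3 := rel X0 X d b e hn'
        rw [mem_Rl, add_mul, ← W3_last, ← W3_last] at e2
        simp only [List.cons_append, List.nil_append] at e2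
        have := R.add_mem (R.sub_mem e1 e2) e3
        convert this using 1
        abel
    -- (c)
    have hcc : ∀ X0 X Y1 Y2 : List B, ∀ b d : B,
        X0.length + X.length + (Y1 ++ b :: d :: Y2).length = n + 1 →
        W3 u p X0 X (Y1 ++ b :: d :: Y2) + W3 u p X0 X (Y1 ++ d :: b :: Y2) ∈ R := by
      intro X0 X Y1 Y2 b d hn
      rcases List.eq_nil_or_concat Y2 with rfl | ⟨Y2, l, rfl⟩
      · rcases List.eq_nil_or_concat Y1 with rfl | ⟨Y1, a, rfl⟩
        · exact hc0 X0 X b d (by simp at hn; omega)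
        · have := S_cM hB hR X0 X Y1 [] a b d (by simp at hn ⊢; omega)
          simpa using this
      · rw [List.concat_eq_append] at hn ⊢
        have := (ihl l).2.2 X0 X Y1 Y2 b d (by simp at hn ⊢; omega)
        rw [mem_Rl, add_mul, ← W3_last, ← W3_last] at this
        simpa using this
    refine ⟨ha, ?_, hcc⟩
    -- (b)
    intro X0 X Y b d hn
    rcases List.eq_nil_or_concat Y with rfl | ⟨Y, l, rfl⟩
    · have e1 := hc0 X0 X b d (by simp at hn; omega)
      have e2 := ha X0 X [] [] b d (by simp at hn ⊢; omega)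
      have key := hB.full (fw ((fw p X0) * u) X) u b d
      unfold W3 at e1 e2 ⊢
      simp only [fw_append', fw_cons', fw_nil'] at e1 e2 ⊢
      have h3 := R.neg_mem (R.add_mem e1 e2)
      convert h3 using 1
      linear_combination (norm := abel) key
    · rw [List.concat_eq_append] at hn ⊢
      have := (ihl l).2.1 X0 X Y b d (by simp at hn ⊢; omega)
      rw [mem_Rl, add_mul, ← W3_last, ← W3_last] at this
      simpa using this

end S

end Pool.Agent.H66.Eng2
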