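import Pool.Agent.H66.Eng2.PrimeS

set_option autoImplicit false
set_option linter.unusedSectionVars false

/-!
# The prime lemma: words with many `u` (MP_1664c7_al)
-/

universe u v

namespace Pool.Agent.H66.Eng2

open Pool.Agent.H66.Eng Pool.Agent.H86.Eng2

section vl
variable {B : Type v} [NonUnitalNonAssocRing B]

/-- One step: `none` is multiplication by `u`. -/
def stp (u : B) (z : B) : Option B → B
  | none => z * u
  | some b => z * b

/-- Value of a word. -/
def vl (u z : B) (w : List (Option B)) : B := w.foldl (stp u) z

theorem vl_nil (u z : B) : vl u z [] = z := rfl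

theorem vl_none (u z : B) (w : List (Option B)) : vl u z (none :: w) = vl u (z * u) w := rfl

theorem vl_some (u z b : B) (w : List (Option B)) :
    vl u z (some b :: w) = vl u (z * b) w := rfl

theorem vl_append (u z : B) (w1 w2 : List (Option B)) :
    vl u z (w1 ++ w2) = vl u (vl u z w1) w2 := List.foldl_append

theorem vl_add (u z z' : B) (w : List (Option B)) : vl u (z + z') w = vl u z w + vl u z' w := by
  induction w generalizing z z' with
  | nil => rfl
  | cons a w ih =>
    cases a with
    | none => rw [vl_none, vl_none, vl_none, add_mul, ih]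
    | some b => rw [vl_some, vl_some, vl_some, add_mul, ih]

theorem vl_zero (u : B) (w : List (Option B)) : vl u 0 w = 0 := by
  induction w with
  | nil => rfl
  | cons a w ih =>
    cases a with
    | none => rw [vl_none, zero_mul, ih]
    | some b => rw [vl_some, zero_mul, ih]

theorem vl_neg (u z : B) (w : List (Option B)) : vl u (-z) w = -vl u z w := by
  rw [eq_neg_iff_add_eq_zero, ← vl_add, neg_add_cancel, vl_zero]

theorem vl_map (u z : B) (X : List B) : vl u z (X.map some) = fw z X := by
  induction X generalizing z with
  | nil => rfl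
  | cons a X ih => rw [List.map_cons, vl_some, fw_cons', ih]

/-- Number of `u`. -/
def nph (w : List (Option B)) : ℕ := w.countP (·.isNone)

/-- Number of letters. -/
def nlt (w : List (Option B)) : ℕ := w.countP (·.isSome)

theorem nph_append (w1 w2 : List (Option B)) : nph (w1 ++ w2) = nph w1 + nph w2 :=
  List.countP_append

theorem nlt_append (w1 w2 : List (Option B)) : nlt (w1 ++ w2) = nlt w1 + nlt w2 :=
  List.countP_append

@[simp] theorem nph_nil : nph ([] : List (Option B)) = 0 := rfl
@[simp] theorem nlt_nil : nlt ([] : List (Option B)) = 0 := rfl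

@[simp] theorem nph_none (w : List (Option B)) : nph (none :: w) = nph w + 1 := by
  unfold nph; rw [List.countP_cons]; rfl

@[simp] theorem nlt_none (w : List (Option B)) : nlt (none :: w) = nlt w := by
  unfold nlt; rw [List.countP_cons]; rfl

@[simp] theorem nph_some (b : B) (w : List (Option B)) : nph (some b :: w) = nph w := by
  unfold nph; rw [List.countP_cons]; rfl

@[simp] theorem nlt_some (b : B) (w : List (Option B)) : nlt (some b :: w) = nlt w + 1 := by
  unfold nlt; rw [List.countP_cons]; rfl

theorem nph_map (X : List B) : nph (X.map some) = 0 := by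
  induction X with
  | nil => rfl
  | cons a X ih => rw [List.map_cons, nph_some, ih]

theorem nlt_map (X : List B) : nlt (X.map some) = X.length := by
  induction X with
  | nil => rfl
  | cons a X ih => rw [List.map_cons, nlt_some, ih, List.length_cons]

/-- The last `u`. -/
theorem last_none (w : List (Option B)) :
    (∃ X : List B, w = X.map some) ∨ ∃ pre, ∃ X : List B, w = pre ++ none :: X.map some := by
  induction w using List.reverseRecOn with
  | nil => exact Or.inl ⟨[], rfl⟩
  | append_singleton w a ih =>
    cases a with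
    | none => exact Or.inr ⟨w, [], rfl⟩
    | some b =>
      rcases ih with ⟨X, rfl⟩ | ⟨pre, X, rfl⟩
      · exact Or.inl ⟨X ++ [b], by simp⟩
      · exact Or.inr ⟨pre, X ++ [b], by simp⟩

/-- `{z | vl z rest ∈ R}`. -/
def Rv (R : AddSubgroup B) (u : B) (rest : List (Option B)) : AddSubgroup B where
  carrier := {z | vl u z rest ∈ R}
  zero_mem' := by
    change vl u 0 rest ∈ R
    rw [vl_zero]; exact R.zero_mem
  add_mem' := by
    intro a b ha hb
    change vl u (a + b) rest ∈ R
    rw [vl_add]; exact R.add_mem ha hb
  neg_mem' := by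
    intro a ha
    change vl u (-a) rest ∈ R
    rw [vl_neg]; exact R.neg_mem ha

theorem mem_Rv {R : AddSubgroup B} {u : B} {rest : List (Option B)} {z : B} :
    z ∈ Rv R u rest ↔ vl u z rest ∈ R := Iff.rfl

theorem W3_vl (u p : B) (X0 X Y : List B) :
    W3 u p X0 X Y = vl u p (X0.map some ++ none :: (X.map some ++ none :: Y.map some)) := by
  unfold W3
  rw [vl_append, vl_map, vl_none, vl_append, vl_map, vl_none, vl_map]

/-- Words with `k` times `u` and fewer than `n` letters are in `R`. -/
def Hk (u : B) (A : Set B) (R : AddSubgroup B) (k n : ℕ) : Prop :=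
  ∀ i ∈ A, ∀ w : List (Option B), nph w = k → nlt w < n → vl u i w ∈ R

end vl

section T
variable {B : Type v} [NonUnitalNonAssocRing B] (hB : E2 B) {A : Set B}
  (hA : ∀ i ∈ A, ∀ b, i * b ∈ A) {u : B} (hu : ∀ i ∈ A, ∀ h, i * (u * h) = (i * u) * h)

include hA in
theorem vl_mem {i : B} (hi : i ∈ A) (w : List (Option B)) : vl u i w ∈ A := by
  induction w generalizing i with
  | nil => exact hi
  | cons a w ih =>
    cases a with
    | none => exact ih (hA i hi u)
    | some b => exact ih (hA i hi b)

theorem hs_of {R : AddSubgroup B} {k n : ℕ} (hR : Hk u A R k n) {i : B} (hi : i ∈ A)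
    (pre rest : List (Option B)) (hk : nph pre + nph rest + 2 = k) :
    HS u (vl u i pre) (Rv R u rest) (n - nlt pre - nlt rest) := by
  intro X0 X Y hn
  rw [mem_Rv, W3_vl, ← vl_append, ← vl_append]
  refine hR i hi _ ?_ ?_
  · simp only [nph_append, nph_none, nph_map]; omega
  · simp only [nlt_append, nlt_none, nlt_map]; omega

include hB hA hu in
theorem T1 {R : AddSubgroup B} {k n : ℕ} (hk : 2 ≤ k) (hR : Hk u A R k n) {i : B} (hi : i ∈ A)
    (w1 w2 : List (Option B)) (b d : B) (h1 : nph (w1 ++ some b :: some d :: w2) = k)
    (h2 : nlt (w1 ++ some b :: some d :: w2) = n) :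
    vl u i (w1 ++ some b :: some d :: w2) + vl u i (w1 ++ some d :: some b :: w2) ∈ R := by
  simp only [nph_append, nph_some] at h1
  simp only [nlt_append, nlt_some] at h2
  rcases last_none w1 with ⟨X, rfl⟩ | ⟨pre, X, rfl⟩
  · rw [nph_map] at h1
    refine R.add_mem ?_ ?_
    · rw [vl_append, vl_some, vl_some]
      exact hR _ (hA _ (hA _ (vl_mem hA hi _) _) _) w2 (by omega) (by omega)
    · rw [vl_append, vl_some, vl_some]
      exact hR _ (hA _ (hA _ (vl_mem hA hi _) _) _) w2 (by omega) (by omega)
  · simp only [nph_append, nph_none, nph_map] at h1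
    simp only [nlt_append, nlt_none, nlt_map] at h2
    -- is there a later `u`?
    have hdec : (∃ X2 : List B, w2 = X2.map some) ∨
        ∃ X2 : List B, ∃ rest, w2 = X2.map some ++ none :: rest := by
      clear h1 h2
      induction w2 with
      | nil => exact Or.inl ⟨[], rfl⟩
      | cons a w ih =>
        cases a with
        | none => exact Or.inr ⟨[], w, rfl⟩
        | some b =>
          rcases ih with ⟨X, rfl⟩ | ⟨X, rest, rfl⟩
          · exact Or.inl ⟨b :: X, rfl⟩
          · exact Or.inr ⟨b :: X, rest, rfl⟩
    rcases hdec with ⟨X2, rfl⟩ | ⟨X2, rest, rfl⟩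
    · -- last block
      rw [nph_map] at h1
      rw [nlt_map] at h2
      rcases last_none pre with ⟨X', rfl⟩ | ⟨pre1, X', rfl⟩
      · rw [nph_map] at h1; omega
      · simp only [nph_append, nph_none, nph_map] at h1
        simp only [nlt_append, nlt_none, nlt_map] at h2
        have hS := (lemS hB hA hu (vl_mem hA hi pre1) _ _
          (hs_of hR hi pre1 [] (by simp; omega))).2.2 [] X' X X2 b d (by simp; omega)
        rw [mem_Rv, vl_nil, W3_vl, W3_vl, ← vl_append, ← vl_append] at hS
        simpa using hS
    · simp only [nph_append, nph_none, nph_map] at h1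
      simp only [nlt_append, nlt_none, nlt_map] at h2
      have hS := (lemS hB hA hu (vl_mem hA hi pre) _ _
          (hs_of hR hi pre rest (by omega))).1 [] X X2 [] b d (by simp; omega)
      rw [mem_Rv, vl_add, W3_vl, W3_vl, ← vl_append, ← vl_append, ← vl_append,
        ← vl_append] at hS
      simpa using hS

include hB hA hu in
theorem T2 {R : AddSubgroup B} {k n : ℕ} (hR : Hk u A R k n) {i : B} (hi : i ∈ A)
    (w1 w2 : List (Option B)) (b d : B) (h1 : nph (w1 ++ some b :: none :: some d :: w2) = k)
    (h2 : nlt (w1 ++ some b :: none :: some d :: w2) = n) :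
    vl u i (w1 ++ some b :: none :: some d :: w2) + vl u i (w1 ++ some d :: none :: some b :: w2)
      ∈ R := by
  simp only [nph_append, nph_some, nph_none] at h1
  simp only [nlt_append, nlt_some, nlt_none] at h2
  rcases last_none w1 with ⟨X, rfl⟩ | ⟨pre, X, rfl⟩
  · rw [nph_map] at h1
    refine R.add_mem ?_ ?_
    · rw [vl_append, vl_some]
      exact hR _ (hA _ (vl_mem hA hi _) _) (none :: some d :: w2)
        (by simp only [nph_none, nph_some]; omega) (by simp only [nlt_none, nlt_some]; omega)
    · rw [vl_append, vl_some]
      exact hR _ (hA _ (vl_mem hA hi _) _) (none :: some b :: w2)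
        (by simp only [nph_none, nph_some]; omega) (by simp only [nlt_none, nlt_some]; omega)
  · simp only [nph_append, nph_none, nph_map] at h1
    simp only [nlt_append, nlt_none, nlt_map] at h2
    have hS := (lemS hB hA hu (vl_mem hA hi pre) _ _
        (hs_of hR hi pre w2 (by omega))).2.1 [] X [] b d (by simp; omega)
    rw [mem_Rv, vl_add, W3_vl, W3_vl, ← vl_append, ← vl_append, ← vl_append,
      ← vl_append] at hS
    simpa using hS

end T

end Pool.Agent.H66.Eng2
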