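import Pool.Agent.H66.Eng2.BP

set_option autoImplicit false

/-!
# Reduction to just non-nilpotent algebras generated by a thick sandwich and abelian letters
(MP_1664c7_al)
-/

universe u v

namespace Pool.Agent.H66.Eng2

open Pool.Agent.H66.Eng Pool.Agent.H86.Eng2

/-- (A) for just non-nilpotent algebras. -/
def AJProp (F : Type u) [Field F] : Prop :=
  ∀ (Q : Type v) [NonUnitalNonAssocRing Q] [Module F Q] [IsScalarTower F Q Q]
    [SMulCommClass F Q Q], ∀ c : Q, Thick2 c → ∀ Y : Set Q,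
    (∀ x ∈ Y, ∀ y ∈ Y, x * y = 0) → JN F (insert c Y) →
    ∀ x ∈ Submodule.span F Y, ∀ u : Q, (u * x) * x = 0

/-- If the letters are sandwiches, the algebra is nilpotent. -/
theorem nil_of_sq {F : Type u} [Field F] {Q : Type v} [NonUnitalNonAssocRing Q] [Module F Q]
    [IsScalarTower F Q Q] [SMulCommClass F Q Q] (hQ : E2 Q) {c : Q} (hc : Thick2 c) {Y : Set Q}
    (hY : Y.Finite) (hYY : ∀ x ∈ Y, ∀ y ∈ Y, x * y = 0)
    (h2 : ∀ x ∈ Submodule.span F Y, ∀ u : Q, (u * x) * x = 0) :
    NilMod (insert c Y) (⊥ : Submodule F Q) := by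
  classical
  set Yf := hY.toFinset with hYf
  have hYf' : ∀ x, x ∈ Yf ↔ x ∈ Y := fun x => hY.mem_toFinset
  set V : AddSubgroup Q := (Submodule.span F Y).toAddSubgroup with hV
  have hVV : ∀ x ∈ V, ∀ y ∈ V, x * y = 0 := fun x hx y hy => span_mul_zero hYY x hx y hy
  have h2' : ∀ x ∈ V, ∀ u : Q, (u * x) * x = 0 := fun x hx u => h2 x hx u
  have hYV : Y ⊆ (V : Set Q) := fun x hx => Submodule.subset_span hx
  refine ⟨2 * Yf.card + 3, ?_⟩
  intro n hn w hw
  obtain ⟨k, f, e, hW, hX⟩ := count_letters hYf' hYV hw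
  rw [Submodule.mem_bot]
  by_contra hne
  have hf : ∀ x ∈ Yf, f x ≤ 1 := by
    intro x hx
    by_contra hcon
    have hxY := (hYf' x).mp hx
    have := XM.pred (hYV hxY) (hX x hxY) 2 (by omega)
    exact hne (bprop Q hQ c hc V hVV h2' x (hYV hxY) w this)
  have hm : ∑ x ∈ Yf, f x ≤ Yf.card := by
    calc ∑ x ∈ Yf, f x ≤ ∑ x ∈ Yf, 1 := Finset.sum_le_sum hf
      _ = Yf.card := by simp
  rcases Nat.lt_or_ge k 2 with hk | hk
  · omega
  · rcases Nat.lt_or_ge (∑ x ∈ Yf, f x) (2 * k - 1) with h | h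
    · exact hne (few_letters hQ hc k k _ _ rfl hk (by omega) hW)
    · omega

/-- A non-nilpotent residually nilpotent algebra has a just non-nilpotent quotient. -/
theorem exists_JN {F : Type u} [Field F] {A : Type v} [NonUnitalNonAssocRing A] [Module F A]
    [IsScalarTower F A A] [SMulCommClass F A A] (hA : E2 A) {X : Set A} (hX : X.Finite)
    (hgen : mspan F X 1 = ⊤) (hres : ⨅ n, mspan F X n = ⊥)
    (hnon : ¬ NilMod X (⊥ : Submodule F A)) :
    ∃ (I : Submodule F A) (hI : SId I), JN F (qmk hI '' X) := by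
  obtain ⟨I, hIid, hIcl, hIn, hmax⟩ := exists_max_closed hX hgen bot_ideal
    (by rw [Cl_bot hres]) hnon
  refine ⟨I, hIid, ?_⟩
  set q := qmk hIid with hq
  have hmapspan : ∀ n, (mspan F X n).map q = mspan F (q '' X) n := map_mspan hIid X
  refine ⟨e2_quo hA hIid, hX.image q, ?_, ?_, ?_, ?_⟩
  · rw [← hmapspan, hgen, Submodule.map_top, LinearMap.range_eq_top]
    exact qmk_surj hIid
  · rw [eq_bot_iff]
    intro z hz
    obtain ⟨a, rfl⟩ := qmk_surj hIid z
    rw [Submodule.mem_iInf] at hz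
    have ha : a ∈ I := by
      apply hIcl
      rw [mem_Cl]
      intro n
      have h1 := hz n
      rw [← hmapspan] at h1
      obtain ⟨b, hb, hbe⟩ := h1
      have h2 : a - b ∈ I := by
        rw [← qmk_eq hIid]
        exact hbe.symm
      have e : a = (a - b) + b := by abel
      rw [e]
      exact Submodule.add_mem_sup h2 hb
    simpa using (qmk_eq_zero hIid a).mpr ha
  · rintro ⟨K, hK⟩
    apply hIn
    refine ⟨K, ?_⟩
    intro n hn w hw
    rw [← qmk_eq_zero hIid]
    simpa using hK n hn _ (Mon.map q (qmk_mul hIid) hw)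
  · intro J hJ hJne
    have hgenQ : mspan F (q '' X) 1 = ⊤ := by
      rw [← hmapspan, hgen, Submodule.map_top, LinearMap.range_eq_top]
      exact qmk_surj hIid
    set J' := (Cl (q '' X) J).comap q with hJ'
    have hJ'id : SId J' := comap_ideal hIid (Cl_ideal hgenQ hJ)
    have hIJ : I ≤ J' := by
      intro x hx
      rw [hJ', Submodule.mem_comap, hq, (qmk_eq_zero hIid x).mpr hx]
      exact Submodule.zero_mem _
    have hJ'cl : Cl X J' ≤ J' := by
      intro x hx
      rw [hJ', Submodule.mem_comap]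
      apply Cl_Cl
      rw [mem_Cl]
      intro n
      have h1 := (mem_Cl.mp hx) n
      obtain ⟨a, ha, b, hb, rfl⟩ := Submodule.mem_sup.mp h1
      rw [map_add]
      refine Submodule.add_mem_sup ha ?_
      rw [← hmapspan]
      exact ⟨b, hb, rfl⟩
    have hnil : NilMod X J' := by
      by_contra hnn
      have heq := hmax J' hJ'id hJ'cl hIJ hnn
      apply hJne
      rw [eq_bot_iff]
      intro y hy
      obtain ⟨y, rfl⟩ := qmk_surj hIid y
      have : y ∈ J' := le_Cl _ _ hy
      rw [heq] at this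
      simpa using (qmk_eq_zero hIid y).mpr this
    obtain ⟨K, hK⟩ := hnil
    refine ⟨K, ?_⟩
    intro n hn w hw
    obtain ⟨a, ha, rfl⟩ := Mon.lift q (qmk_mul hIid) hw
    exact hK n hn a ha

/-- (QN) follows from (A) for just non-nilpotent algebras. -/
theorem qn_of_jn {F : Type u} [Field F] (hAJ : AJProp.{u, v} F) : QN.{u, v} F := by
  classical
  intro A _ _ _ _ hA _ c hc Y hY hYY hgenA
  set X : Set A := insert c Y with hXdef
  have hX : X.Finite := hY.insert c
  set Z : Set (PS A) := sing 1 '' X with hZ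
  set P : ℕ → A → Prop := fun k w => Mon X k w with hP
  have hPm : ∀ i a j b, P i a → P j b → P (i + j) (a * b) := fun _ _ _ _ ha hb => Mon.mul ha hb
  have hZP : Z ⊆ Hom P := by
    rintro f ⟨x, hx, rfl⟩
    exact ⟨1, x, Mon.gen hx, rfl⟩
  have hle := adjoin_le_hom (F := F) hPm hZP
  have hR : E2 (NonUnitalAlgebra.adjoin F Z) := (hom_mulId hA P).e2 (F := F) _ hle
  have hfin : (gens F Z).Finite := gens_finite (hX.image _)
  have hmon : ∀ n f, Mon (gens F Z) n f → ∃ w, Mon X n w ∧ (f : PS A) = sing n w := by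
    intro n f hf
    induction hf with
    | gen hx =>
      obtain ⟨x, hx, hxe⟩ := hx
      exact ⟨x, Mon.gen hx, hxe.symm⟩
    | mul _ _ h1 h2 =>
      obtain ⟨a, ha, hae⟩ := h1
      obtain ⟨b, hb, hbe⟩ := h2
      refine ⟨a * b, ha.mul hb, ?_⟩
      rename_i y z _ _
      change ((y : PS A) * (z : PS A)) = _
      rw [hae, hbe, sing_mul_sing]
  have hres : ⨅ n, mspan F (gens F Z) n = ⊥ := by
    rw [eq_bot_iff]
    intro f hf
    rw [Submodule.mem_iInf] at hf
    have hk : ∀ k, (f : PS A) k = 0 := by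
      intro k
      have h1 := hf (k + 1)
      unfold mspan at h1
      clear hf
      induction h1 using Submodule.span_induction with
      | mem g hg =>
        obtain ⟨m, hm, hg⟩ := hg
        obtain ⟨w, _, hge⟩ := hmon m g hg
        rw [hge, sing_ne]
        omega
      | zero => rfl
      | add g g' _ _ h1 h2 =>
        change (g : PS A) k + (g' : PS A) k = 0
        rw [h1, h2, add_zero]
      | smul r g _ h1 =>
        change r • (g : PS A) k = 0
        rw [h1, smul_zero]
    have : f = 0 := Subtype.ext (funext hk)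
    simpa using this
  have hnil : NilMod (gens F Z) (⊥ : Submodule F (NonUnitalAlgebra.adjoin F Z)) := by
    by_contra hnon
    obtain ⟨I, hI, hJN⟩ := exists_JN (F := F) hR hfin (gens_top Z) hres hnon
    have hcZ : sing 1 c ∈ NonUnitalAlgebra.adjoin F Z :=
      NonUnitalAlgebra.subset_adjoin F ⟨c, Set.mem_insert _ _, rfl⟩
    set c' : NonUnitalAlgebra.adjoin F Z := ⟨sing 1 c, hcZ⟩ with hc'
    set Y' : Set (NonUnitalAlgebra.adjoin F Z) := {f | (f : PS A) ∈ sing 1 '' Y} with hY'
    have hY'fin : Y'.Finite := (hY.image _).preimage (Subtype.val_injective.injOn)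
    have hins : gens F Z = insert c' Y' := by
      ext f
      constructor
      · intro hf
        obtain ⟨x, hx, hxe⟩ := (show (f : PS A) ∈ sing 1 '' X from hf)
        rcases Set.mem_insert_iff.mp hx with rfl | hx
        · exact Set.mem_insert_iff.mpr (Or.inl (Subtype.ext hxe.symm))
        · exact Set.mem_insert_of_mem _ ⟨x, hx, hxe⟩
      · intro hf
        rcases Set.mem_insert_iff.mp hf with rfl | ⟨x, hx, hxe⟩
        · exact ⟨c, Set.mem_insert _ _, rfl⟩
        · exact ⟨x, Set.mem_insert_of_mem _ hx, hxe⟩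
    have hc'thick : Thick2 c' := by
      have ht := ps_thick hc 1
      exact ⟨fun x => Subtype.ext (ht.cc x), fun x y => Subtype.ext (ht.cxc x y),
        fun x y => Subtype.ext (ht.th x y)⟩
    have hY'Y' : ∀ x ∈ Y', ∀ y ∈ Y', x * y = 0 := by
      rintro f ⟨x, hx, hxe⟩ g ⟨y, hy, hye⟩
      apply Subtype.ext
      change (f : PS A) * (g : PS A) = 0
      rw [← hxe, ← hye, sing_mul_sing, hYY x hx y hy, sing_zero]
    have him : (qmk hI '' (gens F Z)) = insert (qmk hI c') (qmk hI '' Y') := by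
      rw [hins]; exact Set.image_insert_eq
    rw [him] at hJN
    have hYYq : ∀ x ∈ qmk hI '' Y', ∀ y ∈ qmk hI '' Y', x * y = 0 := by
      rintro _ ⟨x, hx, rfl⟩ _ ⟨y, hy, rfl⟩
      rw [← qmk_mul, hY'Y' x hx y hy, map_zero]
    have hthq := thick_quo hc'thick hI
    exact hJN.non (nil_of_sq hJN.e2 hthq (hY'fin.image _) hYYq
      (hAJ (Quo I hI) (qmk hI c') hthq (qmk hI '' Y') hYYq hJN))
  obtain ⟨K, hK⟩ := hnil
  refine ⟨K, ?_⟩
  intro n hn w hw
  have hlift : ∀ n w, Mon X n w → ∃ f, Mon (gens F Z) n f ∧ (f : PS A) = sing n w := by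
    intro n w hw
    induction hw with
    | gen hx =>
      rename_i x
      have hxZ : sing 1 x ∈ NonUnitalAlgebra.adjoin F Z :=
        NonUnitalAlgebra.subset_adjoin F ⟨x, hx, rfl⟩
      exact ⟨⟨sing 1 x, hxZ⟩, Mon.gen (show sing 1 x ∈ Z from ⟨x, hx, rfl⟩), rfl⟩
    | mul _ _ h1 h2 =>
      obtain ⟨f, hf, hfe⟩ := h1
      obtain ⟨g, hg, hge⟩ := h2
      refine ⟨f * g, hf.mul hg, ?_⟩
      change ((f : PS A) * (g : PS A)) = _
      rw [hfe, hge, sing_mul_sing]
  obtain ⟨f, hf, hfe⟩ := hlift n w hw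
  have h0 := hK n hn f hf
  have h1 : f = 0 := by simpa using h0
  have h2 : sing n w n = 0 := by
    rw [← hfe, h1]
    rfl
  rw [sing_same] at h2
  simpa using h2

end Pool.Agent.H66.Eng2
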