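import Pool.Agent.H66.Eng2.Rees
import Pool.Agent.H66.Eng2.Base

set_option autoImplicit false

/-!
# The semiprime case with abelian letters (MP_1664c7_al)
-/

universe u v

namespace Pool.Agent.H66.Eng2

open Pool.Agent.H66.Eng Pool.Agent.H86.Eng2

/-- (A): in a semiprime algebra generated by a thick sandwich and pairwise annihilating letters,
the letters are sandwiches. -/
def AProp (F : Type u) [Field F] : Prop :=
  ∀ (Q : Type v) [NonUnitalNonAssocRing Q] [Module F Q] [IsScalarTower F Q Q]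
    [SMulCommClass F Q Q], E2 Q → Semi F Q → ∀ c : Q, Thick2 c → ∀ Y : Set Q, Y.Finite →
    (∀ x ∈ Y, ∀ y ∈ Y, x * y = 0) → mspan F (insert c Y) 1 = ⊤ →
    ∀ x ∈ Submodule.span F Y, ∀ u : Q, (u * x) * x = 0

/-- (B): products containing a letter twice vanish. -/
def BProp : Prop :=
  ∀ (Q : Type v) [NonUnitalNonAssocRing Q], E2 Q → ∀ c : Q, Thick2 c → ∀ V : AddSubgroup Q,
    (∀ x ∈ V, ∀ y ∈ V, x * y = 0) → (∀ x ∈ V, ∀ u : Q, (u * x) * x = 0) →
    ∀ x ∈ V, ∀ z : Q, XM (V : Set Q) c x 2 z → z = 0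

theorem count_letters {Q : Type v} [NonUnitalNonAssocRing Q] {c : Q} {Y : Set Q} {Yf : Finset Q}
    (hYf : ∀ x, x ∈ Yf ↔ x ∈ Y) {V : Set Q} (hV : Y ⊆ V) {n : ℕ} {w : Q}
    (hw : Mon (insert c Y) n w) :
    ∃ (k : ℕ) (f : Q → ℕ), n = k + ∑ x ∈ Yf, f x ∧ W c k (∑ x ∈ Yf, f x) w ∧
      ∀ x ∈ Y, XM V c x (f x) w := by
  classical
  induction hw with
  | gen hx =>
    rename_i y
    by_cases hyY : y ∈ Y
    · refine ⟨0, fun x => if x = y then 1 else 0, ?_, ?_, ?_⟩
      · rw [Finset.sum_ite_eq' Yf y, if_pos ((hYf y).mpr hyY)]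
      · rw [Finset.sum_ite_eq' Yf y, if_pos ((hYf y).mpr hyY)]
        exact W.elt y
      · intro x _
        by_cases hxy : x = y
        · subst hxy
          simpa using (XM.x : XM V c x 1 x)
        · simpa [hxy] using (XM.v y (hV hyY) : XM V c x 0 y)
    · have hyc : y = c := by
        rcases Set.mem_insert_iff.mp hx with h | h
        · exact h
        · exact absurd h hyY
      subst hyc
      refine ⟨1, fun _ => 0, by simp, ?_, ?_⟩
      · simpa using W.gen
      · intro x _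
        exact XM.c
  | mul _ _ h1 h2 =>
    obtain ⟨k1, f1, e1, w1, x1⟩ := h1
    obtain ⟨k2, f2, e2, w2, x2⟩ := h2
    refine ⟨k1 + k2, fun x => f1 x + f2 x, ?_, ?_, ?_⟩
    · rw [Finset.sum_add_distrib]; omega
    · rw [Finset.sum_add_distrib]; exact w1.mul w2
    · intro x hx
      exact (x1 x hx).mul (x2 x hx)

/-- (A) and (B) give (QN). -/
theorem qn_of {F : Type u} [Field F] (hA : AProp.{u, v} F) (hB : BProp.{v}) : QN.{u, v} F := by
  classical
  intro Q _ _ _ _ hQ hs c hc Y hY hYY hgen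
  set Yf := hY.toFinset with hYf
  have hYf' : ∀ x, x ∈ Yf ↔ x ∈ Y := fun x => hY.mem_toFinset
  set V : AddSubgroup Q := (Submodule.span F Y).toAddSubgroup with hV
  have hVV : ∀ x ∈ V, ∀ y ∈ V, x * y = 0 := fun x hx y hy => span_mul_zero hYY x hx y hy
  have h2 : ∀ x ∈ V, ∀ u : Q, (u * x) * x = 0 :=
    fun x hx u => hA Q hQ hs c hc Y hY hYY hgen x hx u
  have hYV : Y ⊆ (V : Set Q) := fun x hx => Submodule.subset_span hx
  refine ⟨2 * Yf.card + 3, ?_⟩
  intro n hn w hw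
  obtain ⟨k, f, e, hW, hX⟩ := count_letters hYf' hYV hw
  rw [Submodule.mem_bot]
  by_contra hne
  have hf : ∀ x ∈ Yf, f x ≤ 1 := by
    intro x hx
    by_contra hcon
    have hxY := (hYf' x).mp hx
    have := XM.pred (hYV hxY) (hX x hxY) 2 (by omega)
    exact hne (hB Q hQ c hc V hVV h2 x (hYV hxY) w this)
  have hm : ∑ x ∈ Yf, f x ≤ Yf.card := by
    calc ∑ x ∈ Yf, f x ≤ ∑ x ∈ Yf, 1 := Finset.sum_le_sum hf
      _ = Yf.card := by simp
  rcases Nat.lt_or_ge k 2 with hk | hk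
  · omega
  · rcases Nat.lt_or_ge (∑ x ∈ Yf, f x) (2 * k - 1) with h | h
    · exact hne (few_letters hQ hc k k _ _ rfl hk (by omega) hW)
    · omega

end Pool.Agent.H66.Eng2
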