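import Pool.Agent.H66.Eng2.Final

set_option autoImplicit false

/-!
# Reduction to abelian letters by a Rees algebra (MP_1664c7_al)
-/

universe u v

namespace Pool.Agent.H66.Eng2

open Pool.Agent.H66.Eng Pool.Agent.H86.Eng2

/-- The statement for semiprime algebras generated by a thick sandwich and pairwise annihilating
letters. -/
def QN (F : Type u) [Field F] : Prop :=
  ∀ (Q : Type v) [NonUnitalNonAssocRing Q] [Module F Q] [IsScalarTower F Q Q]
    [SMulCommClass F Q Q], E2 Q → Semi F Q → ∀ c : Q, Thick2 c → ∀ Y : Set Q, Y.Finite →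
    (∀ x ∈ Y, ∀ y ∈ Y, x * y = 0) → mspan F (insert c Y) 1 = ⊤ →
    NilMod (insert c Y) (⊥ : Submodule F Q)

section mapspan

variable {F : Type u} [Field F] {A : Type v} [NonUnitalNonAssocRing A] [Module F A]
  [IsScalarTower F A A] [SMulCommClass F A A]

theorem map_mspan {I : Submodule F A} (hI : SId I) (X : Set A) (n : ℕ) :
    (mspan F X n).map (qmk hI) = mspan F (qmk hI '' X) n := by
  unfold mspan
  rw [Submodule.map_span]
  congr 1
  ext b
  constructor
  · rintro ⟨a, ⟨m, hm, ha⟩, rfl⟩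
    exact ⟨m, hm, Mon.map (qmk hI) (qmk_mul hI) ha⟩
  · rintro ⟨m, hm, hb⟩
    obtain ⟨a, ha, rfl⟩ := Mon.lift (qmk hI) (qmk_mul hI) hb
    exact ⟨a, ⟨m, hm, ha⟩, rfl⟩

theorem quo_gen {I : Submodule F A} (hI : SId I) {X : Set A} (hX : mspan F X 1 = ⊤) :
    mspan F (qmk hI '' X) 1 = ⊤ := by
  rw [← map_mspan, hX, Submodule.map_top, LinearMap.range_eq_top]
  exact qmk_surj hI

theorem nilMod_of_quo {I : Submodule F A} (hI : SId I) {X : Set A}
    (h : NilMod (qmk hI '' X) (⊥ : Submodule F (Quo I hI))) : NilMod X I := by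
  obtain ⟨K, hK⟩ := h
  refine ⟨K, ?_⟩
  intro n hn w hw
  rw [← qmk_eq_zero hI]
  simpa using hK n hn _ (Mon.map (qmk hI) (qmk_mul hI) hw)

/-- The quotient by a maximal ideal with non-nilpotent quotient is semiprime. -/
theorem semi_quo (hA : E2 A) {X : Set A} (hX : X.Finite) {I : Submodule F A} (hI : SId I)
    (hn : ¬ NilMod X I)
    (hmax : ∀ J : Submodule F A, SId J → I ≤ J → ¬ NilMod X J → J = I) :
    Semi F (Quo I hI) := by
  intro J hJ hJJ
  set J' := J.comap (qmk hI) with hJ'
  have hJ'id : SId J' := comap_ideal hI hJ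
  have hIJ : I ≤ J' := by
    intro x hx
    rw [hJ', Submodule.mem_comap, (qmk_eq_zero hI x).mpr hx]
    exact Submodule.zero_mem _
  by_cases hnil : NilMod X J'
  · exfalso
    apply hn
    refine ext_rel hA hX hJ'id hI ?_ hnil
    intro x hx y hy
    rw [← qmk_eq_zero hI, qmk_mul]
    exact hJJ _ hx _ hy
  · have heq := hmax J' hJ'id hIJ hnil
    rw [eq_bot_iff]
    intro y hy
    obtain ⟨y, rfl⟩ := qmk_surj hI y
    have : y ∈ J' := hy
    rw [heq] at this
    simpa using (qmk_eq_zero hI y).mpr this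

end mapspan

section qn

variable {F : Type u} [Field F]

/-- The semiprimeness hypothesis can be dropped. -/
theorem qn_nil (hQN : QN.{u, v} F) (Q : Type v) [NonUnitalNonAssocRing Q] [Module F Q]
    [IsScalarTower F Q Q] [SMulCommClass F Q Q] (hQ : E2 Q) {c : Q} (hc : Thick2 c) {Y : Set Q}
    (hY : Y.Finite) (hYY : ∀ x ∈ Y, ∀ y ∈ Y, x * y = 0) (hgen : mspan F (insert c Y) 1 = ⊤) :
    NilMod (insert c Y) (⊥ : Submodule F Q) := by
  by_contra hnon
  obtain ⟨I, hI, hIn, hmax⟩ := exists_max (hY.insert c) bot_ideal hnon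
  apply hIn
  apply nilMod_of_quo hI
  have him : (qmk hI '' (insert c Y)) = insert (qmk hI c) (qmk hI '' Y) := Set.image_insert_eq
  rw [him]
  refine hQN (Quo I hI) (e2_quo hQ hI) (semi_quo hQ (hY.insert c) hI hIn hmax) (qmk hI c)
    (thick_quo hc hI) (qmk hI '' Y) (hY.image _) ?_ ?_
  · rintro _ ⟨x, hx, rfl⟩ _ ⟨y, hy, rfl⟩
    rw [← qmk_mul, hYY x hx y hy, map_zero]
  · rw [← him]
    exact quo_gen hI hgen

end qn

/-- Words in `c` (`k` times) and `L` (`m` times). -/
inductive WD {A : Type*} [Mul A] (L : Set A) (c : A) : ℕ → ℕ → A → Prop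
  | l (a : A) (ha : a ∈ L) : WD L c 0 1 a
  | c : WD L c 1 0 c
  | mul {k m k' m' : ℕ} {y z : A} : WD L c k m y → WD L c k' m' z →
      WD L c (k + k') (m + m') (y * z)

section rees

variable {F : Type u} [Field F] {B : Type v} [NonUnitalNonAssocRing B] [Module F B]
  [IsScalarTower F B B] [SMulCommClass F B B]

/-- Evaluation of a power series. -/
def ev {B : Type v} [NonUnitalNonAssocRing B] (n : ℕ) : PS B →+ B where
  toFun f := f n
  map_zero' := rfl
  map_add' _ _ := rfl

theorem psps_mul (f g : PS (PS B)) (k m : ℕ) :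
    (f * g) k m = ∑ p ∈ Finset.HasAntidiagonal.antidiagonal k,
      ∑ q ∈ Finset.HasAntidiagonal.antidiagonal m, f p.1 q.1 * g p.2 q.2 := by
  have h : ev m ((f * g) k) = ∑ p ∈ Finset.HasAntidiagonal.antidiagonal k,
      ev m (f p.1 * g p.2) := by
    rw [ps_mul, map_sum]
  exact h

/-- Bihomogeneous elements. -/
def Hom2 (P : ℕ → ℕ → B → Prop) : Set (PS (PS B)) :=
  {f | ∃ k m w, P k m w ∧ f = sing k (sing m w)}

theorem sing2_mul (k m k' m' : ℕ) (a b : B) :
    (sing k (sing m a)) * (sing k' (sing m' b)) = sing (k + k') (sing (m + m') (a * b)) := by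
  rw [sing_mul_sing, sing_mul_sing]

theorem sing2_add (k m : ℕ) (a b : B) :
    sing k (sing m (a + b)) = sing k (sing m a) + sing k (sing m b) := by
  rw [sing_add, sing_add]

theorem sing2_zero (k m : ℕ) : sing k (sing m (0 : B)) = 0 := by
  rw [sing_zero, sing_zero]

theorem sing2_ne {k m k' m' : ℕ} (a : B) (h : ¬ (k' = k ∧ m' = m)) :
    sing k (sing m a) k' m' = 0 := by
  by_cases h1 : k' = k
  · subst h1
    rw [sing_same, sing_ne]
    intro h2
    exact h ⟨rfl, h2⟩
  · rw [sing_ne _ h1]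
    rfl

omit [IsScalarTower F B B] [SMulCommClass F B B] in
theorem hom2_mulId (hB : E2 B) (P : ℕ → ℕ → B → Prop) : MulId (Hom2 P) where
  two := by
    intro f
    funext k
    funext m
    exact hB.two (f k m)
  sq := by
    rintro a ⟨i, i', a, _, rfl⟩
    rw [sing2_mul, hB.sq, sing2_zero]
  comm := by
    rintro a ⟨i, i', a, _, rfl⟩ b ⟨j, j', b, _, rfl⟩
    rw [sing2_mul, sing2_mul, add_comm j i, add_comm j' i', ← sing2_add, hB.comm a b, hB.two,
      sing2_zero]
  eng := by
    rintro x ⟨i, i', x, _, rfl⟩ a ⟨j, j', a, _, rfl⟩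
    rw [sing2_mul, sing2_mul, sing2_mul, hB.eng, sing2_zero]
  lin := by
    rintro x ⟨i, i', x, _, rfl⟩ a ⟨j, j', a, _, rfl⟩ w ⟨k, k', w, _, rfl⟩
    simp only [sing2_mul]
    have e1 : i + j + k + j = i + j + j + k := by omega
    have e2 : i + k + j + j = i + j + j + k := by omega
    have f1 : i' + j' + k' + j' = i' + j' + j' + k' := by omega
    have f2 : i' + k' + j' + j' = i' + j' + j' + k' := by omega
    rw [e1, e2, f1, f2, ← sing2_add, ← sing2_add, hB.lin, sing2_zero]
  full := by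
    rintro x ⟨i, i', x, _, rfl⟩ p ⟨j, j', p, _, rfl⟩ q ⟨k, k', q, _, rfl⟩ r ⟨l, l', r, _, rfl⟩
    simp only [sing2_mul]
    have e1 : i + j + l + k = i + j + k + l := by omega
    have e2 : i + k + j + l = i + j + k + l := by omega
    have e3 : i + k + l + j = i + j + k + l := by omega
    have e4 : i + l + j + k = i + j + k + l := by omega
    have e5 : i + l + k + j = i + j + k + l := by omega
    have f1 : i' + j' + l' + k' = i' + j' + k' + l' := by omega
    have f2 : i' + k' + j' + l' = i' + j' + k' + l' := by omega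
    have f3 : i' + k' + l' + j' = i' + j' + k' + l' := by omega
    have f4 : i' + l' + j' + k' = i' + j' + k' + l' := by omega
    have f5 : i' + l' + k' + j' = i' + j' + k' + l' := by omega
    rw [e1, e2, e3, e4, e5, f1, f2, f3, f4, f5, ← sing2_add, ← sing2_add, ← sing2_add,
      ← sing2_add, ← sing2_add, hB.full, sing2_zero]

theorem hom2_span_mul {P : ℕ → ℕ → B → Prop}
    (hP : ∀ i i' a j j' b, P i i' a → P j j' b → P (i + j) (i' + j') (a * b)) :
    ∀ f ∈ Submodule.span F (Hom2 P), ∀ g ∈ Submodule.span F (Hom2 P),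
      f * g ∈ Submodule.span F (Hom2 P) := by
  refine span_mul_mem ?_
  rintro f ⟨i, i', a, ha, rfl⟩ g ⟨j, j', b, hb, rfl⟩
  rw [sing2_mul]
  exact Submodule.subset_span ⟨i + j, i' + j', a * b, hP i i' a j j' b ha hb, rfl⟩

theorem adjoin_le_hom2 {P : ℕ → ℕ → B → Prop}
    (hP : ∀ i i' a j j' b, P i i' a → P j j' b → P (i + j) (i' + j') (a * b))
    {Z : Set (PS (PS B))} (hZ : Z ⊆ Hom2 P) :
    ∀ f ∈ NonUnitalAlgebra.adjoin F Z, f ∈ Submodule.span F (Hom2 P) := by
  intro f hf
  induction hf using NonUnitalAlgebra.adjoin_induction with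
  | mem x hx => exact Submodule.subset_span (hZ hx)
  | add x y _ _ h1 h2 => exact Submodule.add_mem _ h1 h2
  | zero => exact Submodule.zero_mem _
  | mul x y _ _ h1 h2 => exact hom2_span_mul hP x h1 y h2
  | smul r x _ h1 => exact Submodule.smul_mem _ r h1

/-- Exact part. -/
def Ex (F : Type u) [Field F] {B : Type v} [NonUnitalNonAssocRing B] [Module F B]
    (L : Set B) (c : B) (k m : ℕ) : Submodule F B := Submodule.span F {w | WD L c k m w}

/-- Words with fewer letters. -/
def Lo (F : Type u) [Field F] {B : Type v} [NonUnitalNonAssocRing B] [Module F B]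
    (L : Set B) (c : B) (k m : ℕ) : Submodule F B :=
  Submodule.span F {w | ∃ m', m' < m ∧ WD L c k m' w}

theorem ex_mul_lo {L : Set B} {c : B} {k m k' m' : ℕ} {x y : B} (hx : x ∈ Ex F L c k m)
    (hy : y ∈ Lo F L c k' m') : x * y ∈ Lo F L c (k + k') (m + m') := by
  refine span_mul_mem ?_ x hx y hy
  rintro a ha b ⟨n, hn, hb⟩
  exact Submodule.subset_span ⟨m + n, by omega, WD.mul ha hb⟩

theorem lo_mul_ex {L : Set B} {c : B} {k m k' m' : ℕ} {x y : B} (hx : x ∈ Lo F L c k m)
    (hy : y ∈ Ex F L c k' m') : x * y ∈ Lo F L c (k + k') (m + m') := by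
  refine span_mul_mem ?_ x hx y hy
  rintro a ⟨n, hn, ha⟩ b hb
  exact Submodule.subset_span ⟨n + m', by omega, WD.mul ha hb⟩

/-- Words with many `c` or many letters are congruent to words with fewer letters. -/
theorem rees (hQN : QN.{u, v} F) (hB : E2 B) {L : Set B} (hL : L.Finite)
    (hLL : ∀ x ∈ L, ∀ y ∈ L, x * y ∈ L) {c : B} (hc : Thick2 c) :
    ∃ K, ∀ k m w, K ≤ k + m → WD L c k m w → w ∈ Lo F L c k m := by
  classical
  set Z : Set (PS (PS B)) := insert (sing 1 (sing 0 c)) ((fun a => sing 0 (sing 1 a)) '' L)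
    with hZ
  have hPm : ∀ i i' a j j' b, WD L c i i' a → WD L c j j' b → WD L c (i + j) (i' + j') (a * b) :=
    fun _ _ _ _ _ _ ha hb => WD.mul ha hb
  have hZP : Z ⊆ Hom2 (WD L c) := by
    intro f hf
    rcases Set.mem_insert_iff.mp hf with rfl | ⟨x, hx, rfl⟩
    · exact ⟨1, 0, c, WD.c, rfl⟩
    · exact ⟨0, 1, x, WD.l x hx, rfl⟩
  have hle := adjoin_le_hom2 (F := F) hPm hZP
  have hR : E2 (NonUnitalAlgebra.adjoin F Z) := (hom2_mulId hB (WD L c)).e2 (F := F) _ hle
  have hcoef : ∀ f ∈ Submodule.span F (Hom2 (WD L c)), ∀ k m, f k m ∈ Ex F L c k m := by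
    intro f hf k m
    induction hf using Submodule.span_induction with
    | mem f hf =>
      obtain ⟨i, j, w, hw, rfl⟩ := hf
      by_cases hk : k = i ∧ m = j
      · obtain ⟨rfl, rfl⟩ := hk
        rw [sing_same, sing_same]
        exact Submodule.subset_span hw
      · rw [sing2_ne _ hk]
        exact Submodule.zero_mem _
    | zero => exact Submodule.zero_mem _
    | add f g _ _ h1 h2 => exact Submodule.add_mem _ h1 h2
    | smul r f _ h1 => exact Submodule.smul_mem _ r h1
  let I : Submodule F (NonUnitalAlgebra.adjoin F Z) :=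
    { carrier := {f | ∀ k m, (f : PS (PS B)) k m ∈ Lo F L c k m}
      zero_mem' := fun k m => Submodule.zero_mem _
      add_mem' := fun {f g} hf hg k m => Submodule.add_mem _ (hf k m) (hg k m)
      smul_mem' := fun r f hf k m => Submodule.smul_mem _ r (hf k m) }
  have hImem : ∀ f : NonUnitalAlgebra.adjoin F Z,
      f ∈ I ↔ ∀ k m, (f : PS (PS B)) k m ∈ Lo F L c k m := fun f => Iff.rfl
  have hI : SId I := by
    intro f hf g
    rw [hImem] at hf
    have hg : ∀ k m, (g : PS (PS B)) k m ∈ Ex F L c k m := hcoef g (hle g g.2)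
    constructor
    · rw [hImem]
      intro k m
      change ((f : PS (PS B)) * (g : PS (PS B))) k m ∈ _
      rw [psps_mul]
      refine Submodule.sum_mem _ ?_
      rintro ⟨i, j⟩ hij
      refine Submodule.sum_mem _ ?_
      rintro ⟨i', j'⟩ hij'
      have e : i + j = k := by simpa using hij
      have e' : i' + j' = m := by simpa using hij'
      have := lo_mul_ex (hf i i') (hg j j')
      rwa [e, e'] at this
    · rw [hImem]
      intro k m
      change ((g : PS (PS B)) * (f : PS (PS B))) k m ∈ _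
      rw [psps_mul]
      refine Submodule.sum_mem _ ?_
      rintro ⟨i, j⟩ hij
      refine Submodule.sum_mem _ ?_
      rintro ⟨i', j'⟩ hij'
      have e : i + j = k := by simpa using hij
      have e' : i' + j' = m := by simpa using hij'
      have := ex_mul_lo (hg i i') (hf j j')
      rwa [e, e'] at this
  have hG := e2_quo hR hI
  set q := qmk hI with hq
  have hcZ : sing 1 (sing 0 c) ∈ NonUnitalAlgebra.adjoin F Z :=
    NonUnitalAlgebra.subset_adjoin F (Set.mem_insert _ _)
  set c' : NonUnitalAlgebra.adjoin F Z := ⟨sing 1 (sing 0 c), hcZ⟩ with hc'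
  set Y' : Set (NonUnitalAlgebra.adjoin F Z) :=
    {f | (f : PS (PS B)) ∈ (fun a => sing 0 (sing 1 a)) '' L} with hY'
  have hY'fin : Y'.Finite := (hL.image _).preimage (Subtype.val_injective.injOn)
  have hins : insert c' Y' = gens F Z := by
    ext f
    constructor
    · intro hf
      rcases Set.mem_insert_iff.mp hf with rfl | hf
      · exact Set.mem_insert _ _
      · exact Set.mem_insert_of_mem _ hf
    · intro hf
      rcases Set.mem_insert_iff.mp (show (f : PS (PS B)) ∈ insert (sing 1 (sing 0 c))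
        ((fun a => sing 0 (sing 1 a)) '' L) from hf) with hf | hf
      · exact Set.mem_insert_iff.mpr (Or.inl (Subtype.ext hf))
      · exact Set.mem_insert_of_mem _ hf
  have hgen' : mspan F (insert c' Y') 1 = ⊤ := by rw [hins]; exact gens_top Z
  have hc'thick : Thick2 c' := by
    have ht := ps_thick (ps_thick hc 0) 1
    exact ⟨fun x => Subtype.ext (ht.cc x), fun x y => Subtype.ext (ht.cxc x y),
      fun x y => Subtype.ext (ht.th x y)⟩
  have him : (q '' (insert c' Y')) = insert (q c') (q '' Y') := Set.image_insert_eq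
  have hgenG : mspan F (insert (q c') (q '' Y')) 1 = ⊤ := by
    rw [← him]
    exact quo_gen hI hgen'
  have hYY : ∀ x ∈ q '' Y', ∀ y ∈ q '' Y', x * y = 0 := by
    rintro _ ⟨f, ⟨a, ha, hfa⟩, rfl⟩ _ ⟨g, ⟨b, hb, hgb⟩, rfl⟩
    have hfa' : sing 0 (sing 1 a) = (f : PS (PS B)) := hfa
    have hgb' : sing 0 (sing 1 b) = (g : PS (PS B)) := hgb
    rw [hq, ← qmk_mul, qmk_eq_zero, hImem]
    intro k m
    change ((f : PS (PS B)) * (g : PS (PS B))) k m ∈ _
    rw [← hfa', ← hgb', sing2_mul]
    by_cases hk : k = 0 + 0 ∧ m = 1 + 1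
    · obtain ⟨rfl, rfl⟩ := hk
      rw [sing_same, sing_same]
      exact Submodule.subset_span ⟨1, by omega, WD.l _ (hLL a ha b hb)⟩
    · rw [sing2_ne _ hk]
      exact Submodule.zero_mem _
  obtain ⟨K, hK⟩ := qn_nil hQN (Quo I hI) hG (thick_quo hc'thick hI) (hY'fin.image q) hYY hgenG
  refine ⟨K, ?_⟩
  have hlift : ∀ k m w, WD L c k m w → ∃ f, Mon (insert c' Y') (k + m) f ∧
      (f : PS (PS B)) = sing k (sing m w) := by
    intro k m w hw
    induction hw with
    | l a ha =>
      have haZ : sing 0 (sing 1 a) ∈ NonUnitalAlgebra.adjoin F Z :=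
        NonUnitalAlgebra.subset_adjoin F (Set.mem_insert_of_mem _ ⟨a, ha, rfl⟩)
      exact ⟨⟨sing 0 (sing 1 a), haZ⟩, Mon.gen (Set.mem_insert_of_mem _ ⟨a, ha, rfl⟩), rfl⟩
    | c => exact ⟨c', Mon.gen (Set.mem_insert _ _), rfl⟩
    | mul _ _ h1 h2 =>
      rename_i k m k' m' y z _ _
      obtain ⟨f, hf, hfe⟩ := h1
      obtain ⟨g, hg, hge⟩ := h2
      refine ⟨f * g, ?_, ?_⟩
      · have := hf.mul hg
        have e : k + m + (k' + m') = k + k' + (m + m') := by omega
        rwa [e] at this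
      · change ((f : PS (PS B)) * (g : PS (PS B))) = _
        rw [hfe, hge, sing2_mul]
  intro k m w hkm hw
  obtain ⟨f, hf, hfe⟩ := hlift k m w hw
  have hzero : q f = 0 := by
    have h1 := hK (k + m) hkm (q f) (by rw [← him]; exact Mon.map q (qmk_mul hI) hf)
    simpa using h1
  rw [hq, qmk_eq_zero, hImem] at hzero
  have := hzero k m
  rwa [hfe, sing_same, sing_same] at this

/-- Words with many `c` vanish. -/
theorem many_c (hQN : QN.{u, v} F) (hB : E2 B) {L : Set B} (hL : L.Finite)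
    (hLL : ∀ x ∈ L, ∀ y ∈ L, x * y ∈ L) {c : B} (hc : Thick2 c) :
    ∃ K, ∀ k m w, K ≤ k → WD L c k m w → w = 0 := by
  obtain ⟨K, hK⟩ := rees (F := F) hQN hB hL hLL hc
  refine ⟨K, ?_⟩
  intro k m
  induction m using Nat.strong_induction_on with
  | _ m ih =>
    intro w hk hw
    have h1 := hK k m w (by omega) hw
    have h2 : Lo F L c k m ≤ ⊥ := by
      refine Submodule.span_le.mpr ?_
      rintro w' ⟨m', hm', hw'⟩
      simpa using ih m' hm' w' hk hw'
    simpa using h2 h1

end rees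

/-- **Theorem N from the semiprime case with abelian letters.** -/
theorem thmN_of_qn {F : Type u} [Field F] (hQN : QN.{u, v} F) : ThmNProp.{u, v} F := by
  intro G _ _ _ _ hG Y hY c hc hgen hnil
  obtain ⟨n0, hnil⟩ := hnil
  set L : Set G := {w : G | ∃ m, 1 ≤ m ∧ Mon Y m w} with hLdef
  have hLfin : L.Finite := by
    refine (((Mon.finite_lt hY n0).image Prod.snd).union (Set.finite_singleton 0)).subset ?_
    rintro w ⟨m, _, hw⟩
    rcases Nat.lt_or_ge m n0 with h | h
    · exact Or.inl ⟨(m, w), ⟨h, hw⟩, rfl⟩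
    · exact Or.inr (hnil m h w hw)
  have hLL : ∀ x ∈ L, ∀ y ∈ L, x * y ∈ L := by
    rintro x ⟨m, hm, hx⟩ y ⟨n, hn, hy⟩
    exact ⟨m + n, by omega, hx.mul hy⟩
  obtain ⟨C, hC⟩ := many_c (F := F) hQN hG hLfin hLL hc
  have hmonWD : ∀ n w, Mon (insert c Y) n w → ∃ k m, WD L c k m w := by
    intro n w hw
    induction hw with
    | gen hx =>
      rcases Set.mem_insert_iff.mp hx with rfl | hx
      · exact ⟨1, 0, WD.c⟩
      · exact ⟨0, 1, WD.l _ ⟨1, le_rfl, Mon.gen hx⟩⟩
    | mul _ _ h1 h2 =>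
      obtain ⟨k, m, h1⟩ := h1
      obtain ⟨k', m', h2⟩ := h2
      exact ⟨k + k', m + m', h1.mul h2⟩
  have hbot : cspan F c C = ⊥ := by
    rw [eq_bot_iff]
    refine Submodule.span_le.mpr ?_
    intro z hz
    have hT : Submodule.span F {w : G | ∃ m, 1 ≤ m ∧ Mon (insert c Y) m w} = ⊤ := hgen
    have hmem := cp_expand hT hz
    have hzero : Submodule.span F {w : G | TM {w : G | ∃ m, 1 ≤ m ∧ Mon (insert c Y) m w} c C w}
        ≤ ⊥ := by
      refine Submodule.span_le.mpr ?_
      intro w hw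
      have htm : ∀ k a, TM {w : G | ∃ m, 1 ≤ m ∧ Mon (insert c Y) m w} c k a →
          ∃ k' m', k ≤ k' ∧ WD L c k' m' a := by
        intro k a ha
        induction ha with
        | leaf a ha =>
          obtain ⟨m, _, ha⟩ := ha
          obtain ⟨k', m', h⟩ := hmonWD m a ha
          exact ⟨k', m', Nat.zero_le _, h⟩
        | gen => exact ⟨1, 0, le_rfl, WD.c⟩
        | mul _ _ h1 h2 =>
          obtain ⟨k1, m1, hk1, h1⟩ := h1
          obtain ⟨k2, m2, hk2, h2⟩ := h2
          exact ⟨k1 + k2, m1 + m2, by omega, h1.mul h2⟩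
      obtain ⟨k', m', hk', h⟩ := htm C w hw
      simpa using hC k' m' w hk' h
    exact hzero hmem
  have hNil1 : NilMod (insert c Y) (cspan F c 1) := by
    refine ⟨n0, ?_⟩
    have key : ∀ n w, Mon (insert c Y) n w → Mon Y n w ∨ w ∈ cspan F c 1 := by
      intro n w hw
      induction hw with
      | gen hx =>
        rcases Set.mem_insert_iff.mp hx with rfl | hx
        · exact Or.inr (Submodule.subset_span CP.gen)
        · exact Or.inl (Mon.gen hx)
      | mul _ _ h1 h2 =>
        rename_i m n x y _ _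
        rcases h1 with h1 | h1
        · rcases h2 with h2 | h2
          · exact Or.inl (h1.mul h2)
          · exact Or.inr ((cspan_ideal c 1) y h2 x).2
        · exact Or.inr ((cspan_ideal c 1) x h1 y).1
    intro n hn w hw
    rcases key n w hw with h | h
    · rw [hnil n hn w h]
      exact Submodule.zero_mem _
    · exact h
  have hpow : ∀ k, NilMod (insert c Y) (cspan F c (2 ^ k)) := by
    intro k
    induction k with
    | zero => simpa using hNil1
    | succ k ihk =>
      refine ext_rel hG (hY.insert c) (cspan_ideal c _) (cspan_ideal c _) ?_ ihk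
      intro a ha b hb
      have := cspan_mul ha hb
      have e : 2 ^ k + 2 ^ k = 2 ^ (k + 1) := by ring
      rwa [e] at this
  obtain ⟨K, hK⟩ := hpow C
  refine ⟨K, ?_⟩
  intro n hn w hw
  have h1 := hK n hn w hw
  have h2 : cspan F c (2 ^ C) ≤ ⊥ := by
    rw [← hbot]
    exact cspan_anti (le_of_lt C.lt_two_pow_self)
  simpa using h2 h1

end Pool.Agent.H66.Eng2
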