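import Pool.Agent.H66.Eng2.QJ

set_option autoImplicit false

/-!
# The square of a letter: `(G q) id(G q) = 0` (MP_1664c7_al)
-/

universe u v

namespace Pool.Agent.H66.Eng2

open Pool.Agent.H66.Eng Pool.Agent.H86.Eng2

section basic
variable {G : Type v} [NonUnitalNonAssocRing G]

theorem E2.mid (hG : E2 G) (g a b d : G) :
    ((g * a) * b) * d + ((g * a) * d) * b =
      g * ((a * b) * d) + g * ((a * d) * b) + (g * (a * b)) * d + (g * (a * d)) * b := by
  have h := hG.full a b d g
  rw [hG.comm ((a * b) * d) g, hG.comm (a * b) g, hG.comm ((a * d) * b) g, hG.comm (a * d) g,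
    hG.comm a g] at h
  apply hG.eq_of
  rw [← h]
  abel

end basic

/-- `G` is generated by `c` and `V`. -/
def GenBy (F : Type u) [Field F] {G : Type v} [NonUnitalNonAssocRing G] [Module F G] (c : G)
    (V : Submodule F G) : Prop :=
  ∀ S : Submodule F G, c ∈ S → V ≤ S → (∀ a ∈ S, ∀ b ∈ S, a * b ∈ S) → ∀ a, a ∈ S

/-- The properties of `v` used below. -/
structure ZX {G : Type v} [NonUnitalNonAssocRing G] (c x v : G) : Prop where
  kc : v * c = 0
  kgc : ∀ g, v * (g * c) = 0
  jac : ∀ a b d, v * ((a * b) * d + (b * d) * a + (d * a) * b) = 0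
  kgx : ∀ g, v * (g * x) = 0
  kx : v * x = 0

/-- Right normed words. -/
def fw {G : Type v} [Mul G] (m : G) (l : List G) : G := l.foldl (· * ·) m

section six
variable {F : Type u} [Field F] {G : Type v} [NonUnitalNonAssocRing G] [Module F G]
  {c : G} {V : Submodule F G}

omit [Module F G] in
@[simp] theorem fw_nil (m : G) : fw m [] = m := rfl

@[simp] theorem fw_cons (m a : G) (l : List G) : fw m (a :: l) = fw (m * a) l := rfl

theorem fw_append (m : G) (l1 l2 : List G) : fw m (l1 ++ l2) = fw (fw m l1) l2 :=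
  List.foldl_append

theorem fw_add (m n : G) (l : List G) : fw (m + n) l = fw m l + fw n l := by
  induction l generalizing m n with
  | nil => rfl
  | cons a l ih => rw [fw_cons, fw_cons, fw_cons, add_mul, ih]

theorem fw_zero (l : List G) : fw (0 : G) l = 0 := by
  induction l with
  | nil => rfl
  | cons a l ih => rw [fw_cons, zero_mul, ih]

theorem fw_smul [IsScalarTower F G G] (r : F) (m : G) (l : List G) :
    fw (r • m) l = r • fw m l := by
  induction l generalizing m with
  | nil => rfl
  | cons a l ih => rw [fw_cons, fw_cons, smul_mul_assoc, ih]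

theorem ZX.sym (hG : E2 G) {x v : G} (hv : ZX c x v) (a b e : G) :
    v * ((a * b) * e) = v * ((a * e) * b) + v * (a * (b * e)) := by
  have h := hv.jac a b e
  rw [mul_add, mul_add, hG.comm (b * e) a, hG.comm e a] at h
  apply hG.eq_of
  rw [← h]; abel

theorem ZX.der (hG : E2 G) {x v : G} (hv : ZX c x v) (a b e : G) :
    v * (a * (b * e)) = ((v * a) * b) * e + ((v * a) * e) * b + (v * (a * b)) * e
      + (v * (a * e)) * b := by
  have h1 := hv.sym hG a b e
  have h2 := hG.full a v b e
  rw [hG.comm ((a * b) * e) v, hG.comm (a * b) v, hG.comm ((a * e) * b) v, hG.comm (a * e) v,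
    hG.comm a v, h1] at h2
  apply hG.eq_of
  rw [← h2]
  have h3 := hG.two (v * ((a * e) * b))
  linear_combination (norm := abel) -h3

/-- If `v a = 0`, then `b ↦ v (a b)` is a derivation. -/
theorem ZX.der0 (hG : E2 G) {x v : G} (hv : ZX c x v) {a : G} (ha : v * a = 0) (b e : G) :
    v * (a * (b * e)) = (v * (a * b)) * e + (v * (a * e)) * b := by
  have h := hv.der hG a b e
  rw [ha] at h
  simpa using h

theorem ZX.der_zero [SMulCommClass F G G] (hG : E2 G)
    (hgen : GenBy F c V) {x v : G} (hv : ZX c x v) {a : G} (ha : v * a = 0)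
    (hV : ∀ y ∈ V, v * (a * y) = 0) : ∀ b, v * (a * b) = 0 := by
  intro b
  let S : Submodule F G :=
    { carrier := {b | v * (a * b) = 0}
      zero_mem' := by simp
      add_mem' := by
        intro b e hb he
        have hb' : v * (a * b) = 0 := hb
        have he' : v * (a * e) = 0 := he
        change v * (a * (b + e)) = 0
        rw [mul_add, mul_add, hb', he', add_zero]
      smul_mem' := by
        intro r b hb
        have hb' : v * (a * b) = 0 := hb
        change v * (a * (r • b)) = 0
        rw [mul_smul_comm, mul_smul_comm, hb', smul_zero] }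
  refine hgen S (hv.kgc a) (fun y hy => hV y hy) ?_ b
  intro b hb e he
  change v * (a * (b * e)) = 0
  have hb' : v * (a * b) = 0 := hb
  have he' : v * (a * e) = 0 := he
  rw [hv.der0 hG ha, hb', he', zero_mul, zero_mul, add_zero]

theorem ZX.tau [SMulCommClass F G G] (hG : E2 G) (hgen : GenBy F c V) {x v : G}
    (hx : x ∈ V) (hVV : ∀ y ∈ V, ∀ z ∈ V, y * z = 0) (hv : ZX c x v) (g b : G) :
    v * ((g * x) * b) = 0 := by
  have sym : ∀ g b, v * ((g * x) * b) = v * ((b * x) * g) := by
    intro g b
    have h := hG.full x g b v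
    rw [hG.comm ((x * g) * b) v, hG.comm (x * g) v, hG.comm ((x * b) * g) v, hG.comm (x * b) v,
      hG.comm x v, hv.kx, hG.comm x g, hG.comm x b, hv.kgx, hv.kgx] at h
    apply hG.eq_of
    simpa using h
  refine hv.der_zero hG hgen (hv.kgx g) ?_ b
  intro y hy
  rw [sym, hVV y hy x hx, zero_mul, mul_zero]

theorem vcomm (hG : E2 G) (hVV : ∀ y ∈ V, ∀ z ∈ V, y * z = 0) (p : G) {y z w : G}
    (hy : y ∈ V) (hz : z ∈ V) (hw : w ∈ V) : ((p * y) * z) * w = ((p * y) * w) * z := by
  have h := hG.full y p z w
  rw [hVV y hy z hz, hVV y hy w hw, hG.comm y p] at h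
  apply hG.eq_of
  simpa using h

theorem vxx (hG : E2 G) (hVV : ∀ y ∈ V, ∀ z ∈ V, y * z = 0) (p : G) {y x : G}
    (hy : y ∈ V) (hx : x ∈ V) : ((p * y) * x) * x = 0 := by
  have h := hG.lin y x p
  rw [hVV y hy x hx, hG.comm y p] at h
  simpa using h

theorem fw_comm (hG : E2 G) (hVV : ∀ y ∈ V, ∀ z ∈ V, y * z = 0) :
    ∀ (l : List G), (∀ y ∈ l, y ∈ V) → ∀ (p : G) {y w : G}, y ∈ V → w ∈ V →
      fw ((p * y) * w) l = (fw (p * y) l) * w := by
  intro l
  induction l with
  | nil => intro _ p y w _ _; rfl
  | cons z l ih =>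
    intro hl p y w hy hw
    have hz : z ∈ V := hl z (by simp)
    rw [fw_cons, fw_cons, vcomm hG hVV p hy hw hz]
    exact ih (fun y hy => hl y (by simp [hy])) (p * y) hz hw

/-- `Γ_S(T | U)`. -/
def Gam (v g a x : G) (S T U : List G) : G := v * fw ((fw (g * x) S) * (fw (a * x) T)) U

theorem gam_zero [SMulCommClass F G G] (hG : E2 G) (hgen : GenBy F c V) {x v : G}
    (hx : x ∈ V) (hVV : ∀ y ∈ V, ∀ z ∈ V, y * z = 0) (hv : ZX c x v) (g u : G) {w : G}
    (hw : w ∈ V) :
    ∀ (nU nS : ℕ) (S T U : List G), U.length = nU → S.length = nS → (∀ y ∈ S, y ∈ V) →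
      (∀ y ∈ T, y ∈ V) → (∀ y ∈ U, y ∈ V) → (S ≠ [] ∨ T ≠ []) →
      Gam v g (u * w) x S T U = 0 := by
  have hT1 : ∀ T : List G, (∀ y ∈ T, y ∈ V) → fw ((u * w) * x) T = (fw (u * w) T) * x :=
    fun T hT => fw_comm hG hVV T hT u hw hx
  have hT2 : ∀ T : List G, (∀ y ∈ T, y ∈ V) → (fw ((u * w) * x) T) * x = 0 := by
    intro T hT
    rw [← fw_comm hG hVV T hT (u * w) hx hx, vxx hG hVV u hw hx, fw_zero]
  intro nU
  induction nU with
  | zero =>
    intro nS S T U hU _ _ hT _ _
    have : U = [] := List.length_eq_zero_iff.mp hU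
    subst this
    unfold Gam
    rw [fw_nil, hT1 T hT, hG.comm]
    rw [hG.comm (fw (g * x) S)]
    rw [hG.comm]
    exact hv.tau hG hgen hx hVV _ _
  | succ nU ihU =>
    intro nS
    induction nS with
    | zero =>
      intro S T U hU hS _ hT hUV hne
      have hS0 : S = [] := List.length_eq_zero_iff.mp hS
      subst hS0
      obtain ⟨z, U, rfl⟩ := List.exists_cons_of_length_eq_add_one hU
      have hz : z ∈ V := hUV z (by simp)
      have hT' : (fw ((u * w) * x) T) * x = 0 := hT2 T hT
      have hm := E2.mid hG g x (fw ((u * w) * x) T) z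
      rw [hG.comm x (fw ((u * w) * x) T), hT', hVV x hx z hz] at hm
      simp only [zero_mul, mul_zero, add_zero] at hm
      have hm' := hG.eq_of hm
      have h1 := ihU 1 [z] T U (by simpa using hU) rfl (by simpa using hz) hT
        (fun y hy => hUV y (by simp [hy])) (Or.inl (by simp))
      unfold Gam at h1 ⊢
      rw [fw_cons, fw_nil, hm']
      exact h1
    | succ nS ihS =>
      intro S T U hU hS hSV hT hUV _
      obtain ⟨z, U, rfl⟩ := List.exists_cons_of_length_eq_add_one hU
      have hz : z ∈ V := hUV z (by simp)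
      have hSne : S ≠ [] := by
        intro h
        rw [h] at hS
        simp at hS
      obtain ⟨S', s, rfl⟩ : ∃ S' s, S = S' ++ [s] :=
        ⟨S.dropLast, S.getLast hSne, (List.dropLast_append_getLast hSne).symm⟩
      have hs : s ∈ V := hSV s (by simp)
      have hS' : ∀ y ∈ S', y ∈ V := fun y hy => hSV y (by simp [hy])
      have hU' : ∀ y ∈ U, y ∈ V := fun y hy => hUV y (by simp [hy])
      have hlen : S'.length = nS := by simpa using hS
      have hUl : U.length = nU := by simpa using hU
      have h1 := ihU (nS + 2) (S' ++ [s, z]) T U hUl (by simp [hlen])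
        (by intro y hy; simp at hy; rcases hy with h | rfl | rfl; exacts [hS' y h, hs, hz]) hT hU'
        (Or.inl (by simp))
      have h2 := ihU nS S' (T ++ [s, z]) U hUl hlen hS'
        (by intro y hy; simp at hy; rcases hy with h | rfl | rfl; exacts [hT y h, hs, hz]) hU'
        (Or.inr (by simp))
      have h3 := ihS S' (T ++ [s]) (z :: U) (by simpa using hU) hlen hS'
        (by intro y hy; simp at hy; rcases hy with h | rfl; exacts [hT y h, hs]) hUV
        (Or.inr (by simp))
      unfold Gam at h1 h2 h3 ⊢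
      simp only [fw_append, fw_cons, fw_nil] at h1 h2 h3 ⊢
      have hm := E2.mid hG (fw (g * x) S') s (fw ((u * w) * x) T) z
      rw [hVV s hs z hz, hG.comm s] at hm
      simp only [zero_mul, mul_zero, add_zero] at hm
      have hm' : fw (g * x) S' * s * fw (u * w * x) T * z = fw (g * x) S' * s * z * fw (u * w * x) T
          + (fw (g * x) S' * (fw (u * w * x) T * s * z)
            + fw (g * x) S' * (fw (u * w * x) T * s) * z) := by
        apply hG.eq_of
        rw [← hm]
        have := hG.two (fw (g * x) S' * s * fw (u * w * x) T * z)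
        have h2 := hG.two (fw (g * x) S' * s * z * fw (u * w * x) T)
        linear_combination (norm := abel) this + h2
      rw [hm', fw_add, fw_add, mul_add, mul_add, h1, h2, h3]
      simp

/-- Words starting with a letter. -/
theorem first_letter [SMulCommClass F G G] (hG : E2 G) (hgen : GenBy F c V) {x v : G}
    (hx : x ∈ V) (hVV : ∀ y ∈ V, ∀ z ∈ V, y * z = 0) (hv : ZX c x v) (g : G) (l : List G)
    (hl : ∀ y ∈ l, y ∈ V) : v * fw ((g * x) * x) l = 0 := by
  rcases List.eq_nil_or_concat l with rfl | ⟨l, z, rfl⟩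
  · rw [fw_nil]
    exact hv.tau hG hgen hx hVV _ _
  · rw [List.concat_eq_append] at hl ⊢
    rw [fw_append, fw_comm hG hVV l (fun y hy => hl y (by simp [hy])) g hx hx, fw_cons, fw_nil]
    exact hv.tau hG hgen hx hVV _ _

/-- The statement for words of length `k`. -/
def SK (x : G) (k : ℕ) : Prop :=
  ∀ (g g' : G) (l : List G), l.length = k → ((g * x) * x) * fw ((g' * x) * x) l = 0

theorem swap_adj (hG : E2 G) {x : G} {k : ℕ} (ih : ∀ j, j < k → SK x j) (g g' : G)
    (l1 l2 : List G) (a b d : G) (hl : (l1 ++ a :: b :: d :: l2).length = k) :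
    ((g * x) * x) * fw ((g' * x) * x) (l1 ++ a :: b :: d :: l2)
      = ((g * x) * x) * fw ((g' * x) * x) (l1 ++ a :: d :: b :: l2) := by
  have hl' : l1.length + l2.length + 3 = k := by
    rw [← hl]; simp; omega
  have e1 := ih (l1.length + l2.length + 1) (by omega) g g' (l1 ++ ((a * b) * d) :: l2)
    (by simp; omega)
  have e2 := ih (l1.length + l2.length + 1) (by omega) g g' (l1 ++ ((a * d) * b) :: l2)
    (by simp; omega)
  have e3 := ih (l1.length + l2.length + 2) (by omega) g g' (l1 ++ (a * b) :: d :: l2)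
    (by simp; omega)
  have e4 := ih (l1.length + l2.length + 2) (by omega) g g' (l1 ++ (a * d) :: b :: l2)
    (by simp; omega)
  have hm := E2.mid hG (fw ((g' * x) * x) l1) a b d
  simp only [fw_append, fw_cons] at e1 e2 e3 e4 ⊢
  apply hG.eq_of
  rw [← mul_add, ← fw_add, hm, fw_add, fw_add, fw_add, mul_add, mul_add, mul_add, e1, e2, e3, e4]
  simp

theorem perm_inv (hG : E2 G) {x : G} {k : ℕ} (ih : ∀ j, j < k → SK x j) (g g' : G)
    {l l' : List G} (hp : l.Perm l') : ∀ (l1 : List G) (a : G), (l1 ++ a :: l).length = k →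
    ((g * x) * x) * fw ((g' * x) * x) (l1 ++ a :: l)
      = ((g * x) * x) * fw ((g' * x) * x) (l1 ++ a :: l') := by
  induction hp with
  | nil => intro l1 a _; rfl
  | cons b _ ihp =>
    intro l1 a hl
    have h := ihp (l1 ++ [a]) b (by simpa using hl)
    simpa using h
  | swap b d l =>
    intro l1 a hl
    exact swap_adj hG ih g g' l1 l a d b hl
  | trans h1 _ ih1 ih2 =>
    intro l1 a hl
    rw [ih1 l1 a hl]
    refine ih2 l1 a ?_
    have := h1.length_eq
    simp at hl ⊢
    omega

/-- Multiderivations vanish when they vanish on letters. -/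
theorem multi_der [SMulCommClass F G G] (hG : E2 G) (hgen : GenBy F c V) {x : G}
    (hq : ∀ g, ZX c x ((g * x) * x)) {k : ℕ} (ih : ∀ j, j < k → SK x j) (g g' a : G)
    (hV : ∀ ys : List G, ys.length + 1 = k → (∀ y ∈ ys, y ∈ V) →
      ((g * x) * x) * fw ((g' * x) * x) (a :: ys) = 0) :
    ∀ (bs ys : List G), bs.length + ys.length + 1 = k → (∀ y ∈ ys, y ∈ V) →
      ((g * x) * x) * fw ((g' * x) * x) (a :: (bs ++ ys)) = 0 := by
  intro bs
  induction bs with
  | nil => intro ys hl hy; exact hV ys (by simpa using hl) hy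
  | cons b bs ihb =>
    intro ys hl hy
    have hp : (b :: (bs ++ ys)).Perm ((bs ++ ys) ++ [b]) := List.perm_append_comm (l₁ := [b])
    have h1 := perm_inv hG ih g g' hp [] a (by simp at hl ⊢; omega)
    simp only [List.nil_append] at h1
    rw [List.cons_append, h1]
    have e : ∀ b, fw ((g' * x) * x) (a :: (bs ++ ys ++ [b]))
        = (fw ((g' * x) * x) (a :: (bs ++ ys))) * b := by
      intro b
      rw [← List.cons_append, fw_append, fw_cons, fw_nil]
    rw [e]
    refine (hq g).der_zero hG hgen ?_ ?_ b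
    · exact ih (bs.length + ys.length + 1) (by simp at hl; omega) g g' _ (by simp)
    · intro y hyV
      rw [← e]
      have := ihb (ys ++ [y]) (by simp at hl ⊢; omega)
        (by intro z hz; simp at hz; rcases hz with h | rfl; exacts [hy z h, hyV])
      rwa [← List.append_assoc] at this

/-- First letter in `G V`. -/
theorem first_gv [SMulCommClass F G G] (hG : E2 G) (hgen : GenBy F c V) {x : G}
    (hx : x ∈ V) (hVV : ∀ y ∈ V, ∀ z ∈ V, y * z = 0)
    (hq : ∀ g, ZX c x ((g * x) * x)) {k : ℕ} (ih : ∀ j, j < k → SK x j) (g g' u w : G)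
    (hw : w ∈ V) (ys : List G) (hk : ys.length + 1 = k) (hy : ∀ y ∈ ys, y ∈ V) :
    ((g * x) * x) * fw ((g' * x) * x) ((u * w) :: ys) = 0 := by
  cases ys with
  | nil =>
    rw [fw_cons, fw_nil]
    exact (hq g).tau hG hgen hx hVV _ _
  | cons z U =>
    have hz : z ∈ V := hy z (by simp)
    have hU : ∀ y ∈ U, y ∈ V := fun y h => hy y (by simp [h])
    have hax : ((u * w) * x) * x = 0 := vxx hG hVV u hw hx
    have g1 := gam_zero hG hgen hx hVV (hq g) g' u hw U.length 0 [] [z] U rfl rfl (by simp)
      (by simpa using hz) hU (Or.inr (by simp))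
    have g2 := gam_zero hG hgen hx hVV (hq g) g' u hw U.length 1 [z] [] U rfl rfl
      (by simpa using hz) (by simp) hU (Or.inl (by simp))
    have m1 := E2.mid hG g' x ((u * w) * x) z
    have m2 := E2.mid hG (g' * x) x (u * w) z
    rw [hG.comm x ((u * w) * x), hax, hVV x hx z hz] at m1
    simp only [zero_mul, mul_zero, add_zero] at m1
    have m1' := hG.eq_of m1
    rw [hVV x hx z hz, hG.comm x (u * w)] at m2
    simp only [zero_mul, mul_zero, add_zero] at m2
    have h3 : ((g * x) * x) * fw ((g' * x) * x) (z :: ((u * w) :: U)) = 0 := by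
      have := multi_der hG hgen hq ih g g' z (fun ys _ hys =>
        first_letter hG hgen hx hVV (hq g) g' (z :: ys)
          (by intro y h; simp at h; rcases h with rfl | h; exacts [hz, hys y h]))
        ((u * w) :: U) [] (by simp at hk ⊢; omega) (by simp)
      simpa using this
    unfold Gam at g1 g2
    simp only [fw_cons, fw_nil] at g1 g2 h3 ⊢
    have m3 : g' * x * x * (u * w) * z = g' * x * x * z * (u * w)
        + (g' * x * (u * w * x * z) + g' * x * (u * w * x) * z) := by
      apply hG.eq_of
      rw [← m2]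
      have t1 := hG.two (g' * x * x * (u * w) * z)
      have t2 := hG.two (g' * x * x * z * (u * w))
      linear_combination (norm := abel) t1 + t2
    rw [m3, fw_add, fw_add, mul_add, mul_add, h3, g1, m1', g2]
    simp

/-- Arbitrary first letter. -/
theorem first_all [IsScalarTower F G G] [SMulCommClass F G G] (hG : E2 G)
    (hgen : GenBy F c V) {x : G}
    (hx : x ∈ V) (hVV : ∀ y ∈ V, ∀ z ∈ V, y * z = 0)
    (hq : ∀ g, ZX c x ((g * x) * x)) {k : ℕ} (ih : ∀ j, j < k → SK x j) (g g' : G) :
    ∀ a : G, ∀ ys : List G, ys.length + 1 = k → (∀ y ∈ ys, y ∈ V) →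
      ((g * x) * x) * fw ((g' * x) * x) (a :: ys) = 0 := by
  let S : Submodule F G :=
    { carrier := {a | ∀ ys : List G, ys.length + 1 = k → (∀ y ∈ ys, y ∈ V) →
        ((g * x) * x) * fw ((g' * x) * x) (a :: ys) = 0}
      zero_mem' := by
        intro ys _ _
        rw [fw_cons, mul_zero, fw_zero, mul_zero]
      add_mem' := by
        intro a b ha hb ys h1 h2
        rw [fw_cons, mul_add, fw_add, mul_add]
        have e1 := ha ys h1 h2
        have e2 := hb ys h1 h2
        rw [fw_cons] at e1 e2
        rw [e1, e2, add_zero]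
      smul_mem' := by
        intro r a ha ys h1 h2
        have e1 := ha ys h1 h2
        rw [fw_cons] at e1 ⊢
        rw [mul_smul_comm, fw_smul, mul_smul_comm, e1, smul_zero] }
  have hSmem : ∀ a, a ∈ S ↔ ∀ ys : List G, ys.length + 1 = k → (∀ y ∈ ys, y ∈ V) →
      ((g * x) * x) * fw ((g' * x) * x) (a :: ys) = 0 := fun a => Iff.rfl
  let T : Submodule F G :=
    { carrier := {a | ∀ h : G, h * a ∈ S}
      zero_mem' := by
        intro h
        rw [mul_zero]
        exact S.zero_mem
      add_mem' := by
        intro a b ha hb h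
        rw [mul_add]
        exact S.add_mem (ha h) (hb h)
      smul_mem' := by
        intro r a ha h
        rw [mul_smul_comm]
        exact S.smul_mem r (ha h) }
  have hT : ∀ a, a ∈ T := by
    refine hgen T ?_ ?_ ?_
    · intro h
      rw [hSmem]
      intro ys _ _
      rw [fw_cons, (hq g').kgc, fw_zero, mul_zero]
    · intro y hy h
      rw [hSmem]
      intro ys h1 h2
      exact first_gv hG hgen hx hVV hq ih g g' h y hy ys h1 h2
    · intro a ha b hb h
      rw [hSmem]
      intro ys h1 h2
      have e1 := (hSmem _).mp (hb (h * a)) ys h1 h2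
      have e2 := (hSmem _).mp (ha (h * b)) ys h1 h2
      have e3 := (hq g').sym hG h a b
      rw [fw_cons] at e1 e2 ⊢
      have e4 : ((g' * x) * x) * (h * (a * b)) = ((g' * x) * x) * ((h * a) * b)
          + ((g' * x) * x) * ((h * b) * a) := by
        have t := hG.two (((g' * x) * x) * ((h * b) * a))
        rw [e3]
        linear_combination (norm := abel) -t
      rw [e4, fw_add, mul_add, e1, e2, add_zero]
  refine hgen S ?_ ?_ ?_
  · rw [hSmem]
    intro ys _ _
    rw [fw_cons, (hq g').kc, fw_zero, mul_zero]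
  · intro y hy
    rw [hSmem]
    intro ys _ h2
    exact first_letter hG hgen hx hVV (hq g) g' (y :: ys)
      (by intro z h; simp at h; rcases h with rfl | h; exacts [hy, h2 z h])
  · intro a _ b _
    exact hT b a

/-- **(6)**: `(G q) id(G q) = 0`. -/
theorem six [IsScalarTower F G G] [SMulCommClass F G G] (hG : E2 G)
    (hgen : GenBy F c V) {x : G}
    (hx : x ∈ V) (hVV : ∀ y ∈ V, ∀ z ∈ V, y * z = 0)
    (hq : ∀ g, ZX c x ((g * x) * x)) : ∀ k, SK x k := by
  intro k
  induction k using Nat.strong_induction_on with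
  | _ k ih =>
    intro g g' l hl
    cases l with
    | nil => exact (hq g).tau hG hgen hx hVV _ _
    | cons a l =>
      have h := multi_der hG hgen hq ih g g' a
        (first_all hG hgen hx hVV hq ih g g' a) l [] (by simpa using hl) (by simp)
      simpa using h

end six

end Pool.Agent.H66.Eng2
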