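import Pool.Agent.H66.Eng2.PS

set_option autoImplicit false

/-!
# Adding a thick sandwich to a nilpotent algebra (MP_1664c7_al)
-/

universe u v

namespace Pool.Agent.H66.Eng2

open Pool.Agent.H66.Eng Pool.Agent.H86.Eng2

section basics

variable {A : Type v} [NonUnitalNonAssocRing A]

theorem e2_anti (hA : E2 A) (x y : A) : x * y = -(y * x) := by
  rw [hA.neg, hA.comm]

theorem e2_rel (hA : E2 A) (I : AddSubgroup A) : RelOn I := by
  intro z _ x y
  have h := hA.lin x y z
  rw [hA.comm x z, hA.comm (x * y) z, hA.comm ((x * y) * y) z] at h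
  linear_combination (norm := abel) h

end basics

section quo

variable {F : Type u} [Field F] {A : Type v} [NonUnitalNonAssocRing A] [Module F A]
  [IsScalarTower F A A] [SMulCommClass F A A]

theorem e2_quo (hA : E2 A) {I : Submodule F A} (h : SId I) : E2 (Quo I h) where
  two := by
    intro x
    obtain ⟨x, rfl⟩ := qmk_surj h x
    rw [← map_add, hA.two, map_zero]
  sq := by
    intro x
    obtain ⟨x, rfl⟩ := qmk_surj h x
    rw [← qmk_mul, hA.sq, map_zero]
  eng := by
    intro x y
    obtain ⟨x, rfl⟩ := qmk_surj h x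
    obtain ⟨y, rfl⟩ := qmk_surj h y
    rw [← qmk_mul, ← qmk_mul, ← qmk_mul, hA.eng, map_zero]
  lin := by
    intro x a w
    obtain ⟨x, rfl⟩ := qmk_surj h x
    obtain ⟨a, rfl⟩ := qmk_surj h a
    obtain ⟨w, rfl⟩ := qmk_surj h w
    simp only [← qmk_mul, ← map_add]
    rw [hA.lin, map_zero]

theorem thick_quo {c : A} (hc : Thick2 c) {I : Submodule F A} (h : SId I) :
    Thick2 (qmk h c) where
  cc := by
    intro x
    obtain ⟨x, rfl⟩ := qmk_surj h x
    rw [← qmk_mul, ← qmk_mul, hc.cc, map_zero]
  cxc := by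
    intro x y
    obtain ⟨x, rfl⟩ := qmk_surj h x
    obtain ⟨y, rfl⟩ := qmk_surj h y
    rw [← qmk_mul, ← qmk_mul, ← qmk_mul, hc.cxc, map_zero]
  th := by
    intro x y
    obtain ⟨x, rfl⟩ := qmk_surj h x
    obtain ⟨y, rfl⟩ := qmk_surj h y
    rw [← qmk_mul, ← qmk_mul, ← qmk_mul, hc.th, map_zero]

/-- Relative extension lemma. -/
theorem ext_rel (hA : E2 A) {X : Set A} (hX : X.Finite) {I J : Submodule F A} (hI : SId I)
    (hJ : SId J) (hIJ : ∀ x ∈ I, ∀ y ∈ I, x * y ∈ J) (hN : NilMod X I) : NilMod X J := by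
  have hB := e2_quo hA hJ
  set I' : Submodule F (Quo J hJ) := I.map (qmk hJ) with hI'
  have hid : IsId I'.toAddSubgroup := by
    intro x hx y
    obtain ⟨x, hx, rfl⟩ := hx
    obtain ⟨y, rfl⟩ := qmk_surj hJ y
    constructor
    · exact ⟨x * y, (hI x hx y).1, qmk_mul hJ x y⟩
    · exact ⟨y * x, (hI x hx y).2, qmk_mul hJ y x⟩
  have hII : ∀ x ∈ I'.toAddSubgroup, ∀ y ∈ I'.toAddSubgroup, x * y = 0 := by
    intro x hx y hy
    obtain ⟨x, hx, rfl⟩ := hx
    obtain ⟨y, hy, rfl⟩ := hy
    rw [← qmk_mul, qmk_eq_zero]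
    exact hIJ x hx y hy
  obtain ⟨N, hN⟩ := hN
  obtain ⟨K, hK⟩ := extension (e2_anti hB) (hX.image (qmk hJ)) hid (e2_rel hB _) hII
    ⟨N, by
      intro n hn w hw
      obtain ⟨w, hw', rfl⟩ := Mon.lift (qmk hJ) (qmk_mul hJ) hw
      exact ⟨w, hN n hn w hw', rfl⟩⟩
  refine ⟨K, ?_⟩
  intro n hn w hw
  rw [← qmk_eq_zero hJ]
  exact hK n hn _ (Mon.map (qmk hJ) (qmk_mul hJ) hw)

end quo

/-- Products with `n` factors `x` and the others in `T`. -/
inductive TM {A : Type*} [Mul A] (T : Set A) (x : A) : ℕ → A → Prop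
  | leaf (a : A) (ha : a ∈ T) : TM T x 0 a
  | gen : TM T x 1 x
  | mul {m n : ℕ} {y z : A} : TM T x m y → TM T x n z → TM T x (m + n) (y * z)

/-- Products of elements of `V`, the element `c` and (exactly `n` times) the element `x`. -/
inductive XM {A : Type*} [Mul A] (V : Set A) (c x : A) : ℕ → A → Prop
  | v (a : A) (ha : a ∈ V) : XM V c x 0 a
  | c : XM V c x 0 c
  | x : XM V c x 1 x
  | mul {m n : ℕ} {y z : A} : XM V c x m y → XM V c x n z → XM V c x (m + n) (y * z)

section cp

variable {F : Type u} [Field F] {B : Type v} [NonUnitalNonAssocRing B] [Module F B]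
  [IsScalarTower F B B] [SMulCommClass F B B]

theorem cp_expand {T : Set B} (hT : Submodule.span F T = ⊤) {x : B} {n : ℕ} {z : B}
    (h : CP x n z) : z ∈ Submodule.span F {w | TM T x n w} := by
  induction h with
  | elt a =>
    have ha : a ∈ Submodule.span F T := by rw [hT]; trivial
    refine Submodule.span_mono ?_ ha
    intro b hb
    exact TM.leaf b hb
  | gen => exact Submodule.subset_span TM.gen
  | mul _ _ h1 h2 =>
    refine span_mul_mem ?_ _ h1 _ h2
    intro a ha b hb
    exact Submodule.subset_span (TM.mul ha hb)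

theorem cspan_mul {c : B} {m n : ℕ} {x y : B} (hx : x ∈ cspan F c m) (hy : y ∈ cspan F c n) :
    x * y ∈ cspan F c (m + n) := by
  refine span_mul_mem ?_ x hx y hy
  intro a ha b hb
  exact Submodule.subset_span (CP.mul ha hb)

omit [IsScalarTower F B B] [SMulCommClass F B B] in
theorem cspan_anti {c : B} {m n : ℕ} (h : m ≤ n) : cspan F c n ≤ cspan F c m := by
  refine Submodule.span_mono ?_
  intro z hz
  exact CP.pred hz m h

/-- Bounded multiplicity of a letter annihilating the other letters. -/
def LetterBound (F : Type u) [Field F] (G : Type v) [NonUnitalNonAssocRing G] [Module F G] :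
    Prop :=
  ∀ (c x : G) (V : Submodule F G), Thick2 c → (∀ v ∈ V, ∀ w ∈ V, v * w ∈ V) →
    FiniteDimensional F V → x ∈ V → (∀ v ∈ V, x * v = 0) →
    ∃ C, ∀ z, XM (V : Set G) c x C z → z = 0

end cp

theorem XM.pred {A : Type*} [Mul A] {V : Set A} {c x : A} (hx : x ∈ V) {n : ℕ} {z : A}
    (h : XM V c x n z) : ∀ m, m ≤ n → XM V c x m z := by
  induction h with
  | v a ha =>
    intro m hm
    have : m = 0 := by omega
    subst this
    exact XM.v a ha
  | c =>
    intro m hm
    have : m = 0 := by omega
    subst this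
    exact XM.c
  | x =>
    intro m hm
    rcases Nat.eq_zero_or_pos m with rfl | hm'
    · exact XM.v x hx
    · have : m = 1 := by omega
      subst this
      exact XM.x
  | mul _ _ ih1 ih2 =>
    rename_i m1 n1 y z _ _
    intro m hm
    rcases Nat.lt_or_ge m m1 with hlt | hge
    · have := (ih1 m (by omega)).mul (ih2 0 (by omega))
      simpa using this
    · have := (ih1 m1 (by omega)).mul (ih2 (m - m1) (by omega))
      have e : m1 + (m - m1) = m := by omega
      rwa [e] at this

/-- A last nonzero monomial. -/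
theorem exists_last {A : Type*} [NonUnitalNonAssocRing A] {Y : Set A} {n0 : ℕ}
    (hnil : ∀ n, n0 ≤ n → ∀ w, Mon Y n w → w = 0) (hex : ∃ m w, Mon Y m w ∧ w ≠ 0) :
    ∃ m w, Mon Y m w ∧ w ≠ 0 ∧ ∀ n, m < n → ∀ w', Mon Y n w' → w' = 0 := by
  induction n0 with
  | zero =>
    obtain ⟨m, w, hw, hne⟩ := hex
    exact absurd (hnil m (Nat.zero_le m) w hw) hne
  | succ k ih =>
    by_cases h : ∀ w, Mon Y k w → w = 0
    · apply ih
      intro n hn w hw
      rcases Nat.lt_or_ge k n with h1 | h1
      · exact hnil n h1 w hw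
      · have : n = k := le_antisymm h1 hn
        subst this
        exact h w hw
    · push Not at h
      obtain ⟨w, hw, hne⟩ := h
      exact ⟨k, w, hw, hne, fun n hn w' hw' => hnil n hn w' hw'⟩

section thmN

variable {F : Type u} [Field F]

theorem mspan_finite {G : Type v} [NonUnitalNonAssocRing G] [Module F G] {Y : Set G}
    (hY : Y.Finite) {n0 : ℕ} (hnil : ∀ n, n0 ≤ n → ∀ w, Mon Y n w → w = 0) :
    FiniteDimensional F (mspan F Y 1) := by
  have hfin : ({w : G | ∃ m, 1 ≤ m ∧ Mon Y m w}).Finite := by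
    refine (((Mon.finite_lt hY n0).image Prod.snd).union (Set.finite_singleton 0)).subset ?_
    rintro w ⟨m, _, hw⟩
    rcases Nat.lt_or_ge m n0 with h | h
    · exact Or.inl ⟨(m, w), ⟨h, hw⟩, rfl⟩
    · exact Or.inr (hnil m h w hw)
  exact FiniteDimensional.span_of_finite F hfin

/-- **Theorem N.** -/
theorem thmN (hLB : ∀ (G : Type v) [NonUnitalNonAssocRing G] [Module F G]
      [IsScalarTower F G G] [SMulCommClass F G G], E2 G → LetterBound F G) :
    ∀ (d : ℕ) (G : Type v) [NonUnitalNonAssocRing G] [Module F G]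
      [IsScalarTower F G G] [SMulCommClass F G G] (_ : E2 G) (Y : Set G) (_ : Y.Finite)
      (c : G) (_ : Thick2 c) (_ : mspan F (insert c Y) 1 = ⊤)
      (_ : ∃ n0, ∀ n, n0 ≤ n → ∀ w, Mon Y n w → w = 0)
      (_ : Module.finrank F (mspan F Y 1) ≤ d),
      ∃ K, ∀ n, K ≤ n → ∀ w, Mon (insert c Y) n w → w = 0 := by
  intro d
  induction d with
  | zero =>
    intro G _ _ _ _ hG Y hY c hc hgen hnil hd
    obtain ⟨n0, hnil⟩ := hnil
    have := mspan_finite (F := F) hY hnil
    have hV : mspan F Y 1 = ⊥ := by
      apply Submodule.finrank_eq_zero.mp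
      omega
    have hY0 : ∀ y ∈ Y, y = 0 := by
      intro y hy
      have : y ∈ mspan F Y 1 := Submodule.subset_span ⟨1, le_rfl, Mon.gen hy⟩
      rw [hV] at this
      simpa using this
    have key : ∀ n w, Mon (insert c Y) n w → (n = 1 ∧ w = c) ∨ w = 0 := by
      intro n w hw
      induction hw with
      | gen hx =>
        rcases Set.mem_insert_iff.mp hx with rfl | hx
        · exact Or.inl ⟨rfl, rfl⟩
        · exact Or.inr (hY0 _ hx)
      | mul _ _ h1 h2 =>
        right
        rcases h1 with ⟨_, rfl⟩ | rfl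
        · rcases h2 with ⟨_, rfl⟩ | rfl
          · exact hG.sq _
          · exact mul_zero _
        · exact zero_mul _
    refine ⟨2, ?_⟩
    intro n hn w hw
    rcases key n w hw with ⟨h, _⟩ | h
    · omega
    · exact h
  | succ d ih =>
    intro G _ _ _ _ hG Y hY c hc hgen hnil hd
    obtain ⟨n0, hnil⟩ := hnil
    have hVfin := mspan_finite (F := F) hY hnil
    by_cases hex : ∃ m w, Mon Y m w ∧ w ≠ 0
    swap
    · refine ih G hG Y hY c hc hgen ⟨n0, hnil⟩ ?_
      push Not at hex
      have hV : mspan F Y 1 = ⊥ := by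
        rw [eq_bot_iff]
        refine Submodule.span_le.mpr ?_
        rintro w ⟨m, _, hw⟩
        simpa using hex m w hw
      rw [hV]
      simp
    obtain ⟨m, x, hxM, hx0, hlast⟩ := exists_last hnil hex
    set V := mspan F Y 1 with hV
    have hxV : x ∈ V := Submodule.subset_span ⟨m, hxM.pos, hxM⟩
    have hVV : ∀ v ∈ V, ∀ w ∈ V, v * w ∈ V := by
      intro v hv w hw
      have := mspan_mul hv hw
      refine Submodule.span_mono ?_ this
      rintro w ⟨m, hm, hw⟩
      exact ⟨m, by omega, hw⟩
    have hxv : ∀ v ∈ V, x * v = 0 := by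
      intro v hv
      have hx' : x ∈ Submodule.span F {x} := Submodule.subset_span rfl
      refine span_mul_zero (F := F) (S := {x}) (T := {w : G | ∃ m, 1 ≤ m ∧ Mon Y m w}) ?_
        x hx' v hv
      rintro y hy w ⟨n, hn, hw⟩
      have hy' : y = x := hy
      subst hy'
      exact hlast (m + n) (by omega) _ (hxM.mul hw)
    obtain ⟨C, hC⟩ := hLB G hG c x V hc hVV hVfin hxV hxv
    -- the ideal generated by x
    have hX1 : SId (cspan F x 1) := cspan_ideal x 1
    -- quotient
    have hNil1 : NilMod (insert c Y) (cspan F x 1) := by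
      set q := qmk hX1 with hq
      have hG1 := e2_quo hG hX1
      have him : (q '' (insert c Y)) = insert (q c) (q '' Y) := Set.image_insert_eq
      have hmap : ∀ (Z : Set G) (n : ℕ) (a : G), a ∈ mspan F Z n → q a ∈ mspan F (q '' Z) n := by
        intro Z n a ha
        have h1 : q a ∈ (mspan F Z n).map q := ⟨a, ha, rfl⟩
        have h2 : (mspan F Z n).map q ≤ mspan F (q '' Z) n := by
          unfold mspan
          rw [Submodule.map_span]
          refine Submodule.span_le.mpr ?_
          rintro b ⟨a, ⟨m, hm, ha⟩, rfl⟩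
          exact Submodule.subset_span ⟨m, hm, Mon.map q (qmk_mul hX1) ha⟩
        exact h2 h1
      have hle : mspan F (q '' Y) 1 ≤ V.map q := by
        refine Submodule.span_le.mpr ?_
        rintro b ⟨m, hm, hb⟩
        obtain ⟨a, ha, rfl⟩ := Mon.lift q (qmk_mul hX1) hb
        exact ⟨a, Submodule.subset_span ⟨m, hm, ha⟩, rfl⟩
      have hfr : Module.finrank F (mspan F (q '' Y) 1) ≤ d := by
        have h1 : Module.finrank F (mspan F (q '' Y) 1) ≤ Module.finrank F (V.map q) :=
          Submodule.finrank_mono hle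
        have h2 := LinearMap.finrank_range_add_finrank_ker (q.domRestrict V)
        have h3 : LinearMap.range (q.domRestrict V) = V.map q := by
          rw [LinearMap.range_domRestrict]
        have h4 : 0 < Module.finrank F (LinearMap.ker (q.domRestrict V)) := by
          rw [Module.finrank_pos_iff]
          refine ⟨⟨⟨⟨x, hxV⟩, ?_⟩, 0, ?_⟩⟩
          · rw [LinearMap.mem_ker, LinearMap.domRestrict_apply]
            exact (qmk_eq_zero hX1 x).mpr (Submodule.subset_span CP.gen)
          · intro h
            apply hx0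
            have := congrArg (fun t : LinearMap.ker (q.domRestrict V) => ((t : V) : G)) h
            simpa using this
        rw [h3] at h2
        omega
      have hgen1 : mspan F (insert (q c) (q '' Y)) 1 = ⊤ := by
        rw [eq_top_iff]
        intro b _
        obtain ⟨a, rfl⟩ := qmk_surj hX1 b
        rw [← him]
        apply hmap
        rw [hgen]
        trivial
      obtain ⟨K, hK⟩ := ih (Quo (cspan F x 1) hX1) hG1 (q '' Y) (hY.image q) (q c)
        (thick_quo hc hX1) hgen1
        ⟨n0, by
          intro n hn w hw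
          obtain ⟨a, ha, rfl⟩ := Mon.lift q (qmk_mul hX1) hw
          rw [hnil n hn a ha, map_zero]⟩ hfr
      refine ⟨K, ?_⟩
      intro n hn w hw
      rw [← qmk_eq_zero hX1]
      apply hK n hn
      rw [← him]
      exact Mon.map q (qmk_mul hX1) hw
    have hpow : ∀ k, NilMod (insert c Y) (cspan F x (2 ^ k)) := by
      intro k
      induction k with
      | zero => simpa using hNil1
      | succ k ihk =>
        refine ext_rel hG (hY.insert c) (cspan_ideal x _) (cspan_ideal x _) ?_ ihk
        intro a ha b hb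
        have := cspan_mul ha hb
        have e : 2 ^ k + 2 ^ k = 2 ^ (k + 1) := by ring
        rwa [e] at this
    have hbot : cspan F x (2 ^ C) = ⊥ := by
      rw [eq_bot_iff]
      refine Submodule.span_le.mpr ?_
      intro z hz
      have hz' : CP x C z := CP.pred hz C (le_of_lt C.lt_two_pow_self)
      have hT : Submodule.span F {w : G | ∃ m, 1 ≤ m ∧ Mon (insert c Y) m w} = ⊤ := hgen
      have hmem := cp_expand hT hz'
      have hzero : Submodule.span F {w : G | TM {w : G | ∃ m, 1 ≤ m ∧ Mon (insert c Y) m w} x C w}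
          ≤ ⊥ := by
        refine Submodule.span_le.mpr ?_
        intro w hw
        have hXM : XM (V : Set G) c x C w := by
          have hmon : ∀ m a, Mon (insert c Y) m a → XM (V : Set G) c x 0 a := by
            intro m a ha
            induction ha with
            | gen hx =>
              rcases Set.mem_insert_iff.mp hx with rfl | hx
              · exact XM.c
              · exact XM.v _ (Submodule.subset_span ⟨1, le_rfl, Mon.gen hx⟩)
            | mul _ _ h1 h2 => simpa using h1.mul h2
          have htm : ∀ k a, TM {w : G | ∃ m, 1 ≤ m ∧ Mon (insert c Y) m w} x k a →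
              XM (V : Set G) c x k a := by
            intro k a ha
            induction ha with
            | leaf a ha =>
              obtain ⟨m, _, ha⟩ := ha
              exact hmon m a ha
            | gen => exact XM.x
            | mul _ _ h1 h2 => exact h1.mul h2
          exact htm C w hw
        simpa using hC w hXM
      exact hzero hmem
    obtain ⟨K, hK⟩ := hpow C
    refine ⟨K, ?_⟩
    intro n hn w hw
    have := hK n hn w hw
    rw [hbot] at this
    simpa using this

/-- Theorem N as a property. -/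
def ThmNProp (F : Type u) [Field F] : Prop :=
  ∀ (G : Type v) [NonUnitalNonAssocRing G] [Module F G]
      [IsScalarTower F G G] [SMulCommClass F G G] (_ : E2 G) (Y : Set G) (_ : Y.Finite)
      (c : G) (_ : Thick2 c) (_ : mspan F (insert c Y) 1 = ⊤)
      (_ : ∃ n0, ∀ n, n0 ≤ n → ∀ w, Mon Y n w → w = 0),
      ∃ K, ∀ n, K ≤ n → ∀ w, Mon (insert c Y) n w → w = 0

theorem thmNProp_of_LB (hLB : ∀ (G : Type v) [NonUnitalNonAssocRing G] [Module F G]
      [IsScalarTower F G G] [SMulCommClass F G G], E2 G → LetterBound F G) :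
    ThmNProp.{u, v} F := by
  intro G _ _ _ _ hG Y hY c hc hgen hnil
  exact thmN hLB _ G hG Y hY c hc hgen hnil le_rfl

end thmN

end Pool.Agent.H66.Eng2
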